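import Pool.Agent.Lib.MP_6f5d36_co.Level8c
import Pool.Agent.Lib.MP_6f5d36_co.Level9Cert
import Pool.Agent.Lib.MP_6f5d36_co.Tab7
import Pool.Agent.Lib.MP_6f5d36_co.D8.C0
import Pool.Agent.Lib.MP_6f5d36_co.D8.C1
import Pool.Agent.Lib.MP_6f5d36_co.D8.C2
import Pool.Agent.Lib.MP_6f5d36_co.D8.C3

/-!
# MP_6f5d36_co : level 8 in case (ii), the checker with the certificates and the tables
-/

set_option autoImplicit false

namespace CR

namespace D8

/-- the lists of certificates -/
noncomputable def g7 : List (List (ℕ × ℕ)) := [e0, e1, e2, e3, e4, e5, e6, e7, e8, e9, e10, e11, e12, e13, e14, e15, e16, e17, e18, e19]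

/-- certificate number `c` is for the pattern `N` -/
noncomputable def ok7 (N c : ℕ) : Bool := L9.look2 g7 (c / 16) (c % 16) N

/-- the open patterns -/
def Os (i : ℕ) : ℕ := OsL.getD i 0o425312243521401231032100000

/-- the check of the pattern `R` with the stars `E` -/
noncomputable def ck (R : ℕ) (E : List ℕ) (T : List L8.Tok) : Bool :=
  L8.chk Tab.T5 Tab.E6 (fun _ _ => false) ok7 Os R E T

end D8

end CR
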