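import Pool.Agent.Lib.MP_6f5d36_co.Ker

/-!
# MP_6f5d36_co : level 8 in case (ii), the open patterns and the lists of certificates
-/

set_option autoImplicit false

namespace CR

namespace D8

/-- all certificates of the list (seven points) are right -/
noncomputable def certs7 (L : List (Nat × Nat)) : Bool :=
  List.rec (motive := fun _ => Bool) true (fun a _ ih => Ker.band (Ker.cert7 a.1 a.2) ih) L

/-- the open patterns of eight points (27 labels) -/
def OsL : List Nat :=
  [0o425312243521401231032100000, 0o325055553502041233003210100,
  0o121223312531015354321100000, 0o121223552513015354321100000,
  0o321523212131025534321100000, 0o551532212131025534321100000, 0o50025412305312420321320100,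
  0o52345142311414431031210100, 0o255214512452150424031210100, 0o125545550142152144321320100,
  0o430412514421524313201110000, 0o433442114132052433121100000,
  0o324123433442052433121100000, 0o214435442153343023201320100,
  0o310225522103001051431320100, 0o451543555123153542231210000, 0o13102431011243254123210000,
  0o431014013102243254123210000, 0o431015013102243254123210000,
  0o103003341312243254123210000, 0o144433323021243254123210000,
  0o413453141312414332231210000, 0o415354553102515432231210000,
  0o344035430453430130331201100, 0o255305523550412132131201100,
  0o355015530551514134131201100, 0o424123115231043423121100000,
  0o442543214132043423121100000, 0o223512432431014432132100000, 0o4453440423034422231211000,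
  0o421243110351034422231211000, 0o423243110351034422231211000,
  0o424243110351034422231211000, 0o425243110351034422231211000,
  0o440423110351034422231211000, 0o440423215342034422231211000,
  0o423243351312034422231211000, 0o445334151433413123021210000,
  0o424123240532413123021210000, 0o442343254433413123021210000,
  0o321253530532055432231211000, 0o323253530532055432231211000,
  0o325253530532055432231211000, 0o214552421101005420431211000,
  0o552214151421005420431211000, 0o552214412241005420431211000,
  0o552214214552005420431211000, 0o53003441312441232231210000, 0o134135143102441232231210000,
  0o134135414343441232231210000, 0o134135441312441232231210000,
  0o414345143102441232231210000, 0o320253441312441232231210000,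
  0o323253441312441232231210000, 0o324253441312441232231210000, 0o45132504321331023021210000,
  0o514343451433331023021210000, 0o145434451443331023021210000,
  0o345132534321331023021210000, 0o445132544321331023021210000,
  0o453424010351304322231211000, 0o404453543001304322231211000,
  0o404453543003304322231211000, 0o453424524243304322231211000,
  0o334135310351413122231210000, 0o444123310351413122231210000,
  0o403145030532103412231210000, 0o430534102121351321431321000,
  0o203322015141351321431321000, 0o555444143310442134132321000, 0o555111143310442134132321000]

end D8

end CR
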