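import Pool.Agent.Lib.MP_6f5d36_co.D8.Main
import Pool.Agent.Lib.MP_6f5d36_co.C2.N9

/-!
# MP_6f5d36_co : levels 8 and 9 in case (ii)
-/

set_option autoImplicit false

namespace CR

namespace D8

theorem OsL_eq : OsL = C2.OL := by decide +kernel

/-- the open patterns of eight points are impossible (level 9) -/
theorem dead9_all (hTab : ∀ F, C2.Tabs F Tab.T5 Tab.RT) : ∀ O ∈ OsL, Dead9 O := by
  intro O hO
  rw [OsL_eq] at hO
  exact C2.d9_all hTab O hO

/-- **levels 8 and 9 in case (ii)** -/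
theorem kill2_fin (hF : ∀ F, L7.TabF F Tab.T5 Tab.E6 Tab.T4 Tab.E5)
    (hTab : ∀ F, C2.Tabs F Tab.T5 Tab.RT) :
    ∀ k, k < Tab.nr → Tab.E2 k ≠ [] → Kill2 (Tab.reps k) (Tab.E2 k) :=
  kill2_all hF (dead9_all hTab)

end D8

end CR
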