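import Pool.Agent.Lib.MP_6f5d36_co.D8.T00
import Pool.Agent.Lib.MP_6f5d36_co.D8.T01
import Pool.Agent.Lib.MP_6f5d36_co.D8.T02
import Pool.Agent.Lib.MP_6f5d36_co.D8.T03
import Pool.Agent.Lib.MP_6f5d36_co.D8.T04
import Pool.Agent.Lib.MP_6f5d36_co.D8.T05
import Pool.Agent.Lib.MP_6f5d36_co.D8.T06
import Pool.Agent.Lib.MP_6f5d36_co.Cert
import Pool.Agent.Lib.MP_6f5d36_co.RepOK
import Pool.Agent.Lib.MP_6f5d36_co.Tab
import Pool.Agent.Lib.MP_6f5d36_co.C2.ETab

/-!
# MP_6f5d36_co : level 8 in case (ii), the final theorem (generated)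

`CR.D8.kill2_all` : level 8 in case (ii) is finished for all ranks, relative to the tables and the open
patterns of eight points.
-/

set_option autoImplicit false
set_option linter.all false
set_option maxRecDepth 100000

namespace CR

namespace D8

open L9 L8

theorem certs7_sound : ∀ (L : List (ℕ × ℕ)), certs7 L = true → ∀ a ∈ L, ¬ Realk 7 8 a.1
  | [], _, a, ha => by simp at ha
  | b :: L, h, a, ha => by
    have h1 : Ker.band (Ker.cert7 b.1 b.2) (certs7 L) = true := h
    obtain ⟨h2, h3⟩ := band_eq h1
    rcases List.mem_cons.1 ha with rfl | ha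
    · exact fun h4 => cert7_sound h2 (h4.mono (by norm_num))
    · exact certs7_sound L h3 a ha

/-- all the lists are accepted -/
def AllC7 : List (List (ℕ × ℕ)) → Prop
  | [] => True
  | L :: LL => certs7 L = true ∧ AllC7 LL

theorem AllC7.mem : ∀ (LL : List (List (ℕ × ℕ))), AllC7 LL → ∀ L ∈ LL, certs7 L = true
  | [], _, L, h => by simp at h
  | L' :: LL, h, L, hL => by
    rcases List.mem_cons.1 hL with rfl | h1
    · exact h.1
    · exact AllC7.mem LL h.2 L h1

theorem g7_ok : AllC7 g7 :=
  ⟨e0_ok, e1_ok, e2_ok, e3_ok, e4_ok, e5_ok, e6_ok, e7_ok, e8_ok, e9_ok, e10_ok, e11_ok, e12_ok, e13_ok, e14_ok, e15_ok, e16_ok, e17_ok, e18_ok, e19_ok, trivial⟩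

theorem ok7_sound (P C : ℕ) (h : ok7 P C = true) : ¬ Realk 7 8 P := by
  obtain ⟨L, hL, a, ha, rfl⟩ := look2_spec _ _ _ _ h
  exact certs7_sound L (AllC7.mem _ g7_ok L hL) a ha

theorem Os_mem (i : ℕ) : Os i ∈ OsL := by
  have h : ∀ (L : List ℕ) (i d : ℕ), d ∈ L → L.getD i d ∈ L := by
    intro L i d hd
    rcases Nat.lt_or_ge i L.length with h | h
    · rw [List.getD_eq_getElem _ _ h]
      exact List.getElem_mem h
    · rw [List.getD_eq_default _ _ h]
      exact hd
  exact h OsL i _ (by decide +kernel)

section

variable (hF : ∀ F, L7.TabF F Tab.T5 Tab.E6 Tab.T4 Tab.E5) (hO : ∀ O ∈ OsL, Dead9 O)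

include hF hO in
theorem link {k R : ℕ} {E : List ℕ} {T : List L8.Tok} (h : ck R E T = true) (hR : Tab.reps k = R)
    (hE : Tab.E2 k = E) : Kill2 (Tab.reps k) (Tab.E2 k) := by
  rw [hR, hE]
  exact kill2_of_chk hF (fun _ _ h => absurd h Bool.false_ne_true) ok7_sound
    (fun i => hO _ (Os_mem i)) h

include hF hO in
theorem m0 : Kill2 (Tab.reps 0) (Tab.E2 0) :=
  link hF hO c0 (by decide +kernel) (by decide +kernel)

include hF hO in
theorem m22 : Kill2 (Tab.reps 22) (Tab.E2 22) :=
  link hF hO c22 (by decide +kernel) (by decide +kernel)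

include hF hO in
theorem m30 : Kill2 (Tab.reps 30) (Tab.E2 30) :=
  link hF hO c30 (by decide +kernel) (by decide +kernel)

include hF hO in
theorem m86 : Kill2 (Tab.reps 86) (Tab.E2 86) :=
  link hF hO c86 (by decide +kernel) (by decide +kernel)

include hF hO in
theorem m113 : Kill2 (Tab.reps 113) (Tab.E2 113) :=
  link hF hO c113 (by decide +kernel) (by decide +kernel)

include hF hO in
theorem m121 : Kill2 (Tab.reps 121) (Tab.E2 121) :=
  link hF hO c121 (by decide +kernel) (by decide +kernel)

include hF hO in
theorem m123 : Kill2 (Tab.reps 123) (Tab.E2 123) :=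
  link hF hO c123 (by decide +kernel) (by decide +kernel)

include hF hO in
theorem m143 : Kill2 (Tab.reps 143) (Tab.E2 143) :=
  link hF hO c143 (by decide +kernel) (by decide +kernel)

include hF hO in
theorem m147 : Kill2 (Tab.reps 147) (Tab.E2 147) :=
  link hF hO c147 (by decide +kernel) (by decide +kernel)

include hF hO in
theorem m184 : Kill2 (Tab.reps 184) (Tab.E2 184) :=
  link hF hO c184 (by decide +kernel) (by decide +kernel)

include hF hO in
theorem m190 : Kill2 (Tab.reps 190) (Tab.E2 190) :=
  link hF hO c190 (by decide +kernel) (by decide +kernel)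

include hF hO in
theorem m191 : Kill2 (Tab.reps 191) (Tab.E2 191) :=
  link hF hO c191 (by decide +kernel) (by decide +kernel)

include hF hO in
theorem m209 : Kill2 (Tab.reps 209) (Tab.E2 209) :=
  link hF hO c209 (by decide +kernel) (by decide +kernel)

include hF hO in
theorem m220 : Kill2 (Tab.reps 220) (Tab.E2 220) :=
  link hF hO c220 (by decide +kernel) (by decide +kernel)

include hF hO in
theorem m232 : Kill2 (Tab.reps 232) (Tab.E2 232) :=
  link hF hO c232 (by decide +kernel) (by decide +kernel)

include hF hO in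
theorem m237 : Kill2 (Tab.reps 237) (Tab.E2 237) :=
  link hF hO c237 (by decide +kernel) (by decide +kernel)

include hF hO in
theorem m240 : Kill2 (Tab.reps 240) (Tab.E2 240) :=
  link hF hO c240 (by decide +kernel) (by decide +kernel)

include hF hO in
theorem m251 : Kill2 (Tab.reps 251) (Tab.E2 251) :=
  link hF hO c251 (by decide +kernel) (by decide +kernel)

include hF hO in
theorem m272 : Kill2 (Tab.reps 272) (Tab.E2 272) :=
  link hF hO c272 (by decide +kernel) (by decide +kernel)

include hF hO in
theorem m287 : Kill2 (Tab.reps 287) (Tab.E2 287) :=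
  link hF hO c287 (by decide +kernel) (by decide +kernel)

include hF hO in
theorem m310 : Kill2 (Tab.reps 310) (Tab.E2 310) :=
  link hF hO c310 (by decide +kernel) (by decide +kernel)

include hF hO in
theorem m362 : Kill2 (Tab.reps 362) (Tab.E2 362) :=
  link hF hO c362 (by decide +kernel) (by decide +kernel)

include hF hO in
theorem m395 : Kill2 (Tab.reps 395) (Tab.E2 395) :=
  link hF hO c395 (by decide +kernel) (by decide +kernel)

include hF hO in
theorem m398 : Kill2 (Tab.reps 398) (Tab.E2 398) :=
  link hF hO c398 (by decide +kernel) (by decide +kernel)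

include hF hO in
theorem m435 : Kill2 (Tab.reps 435) (Tab.E2 435) :=
  link hF hO c435 (by decide +kernel) (by decide +kernel)

include hF hO in
theorem m461 : Kill2 (Tab.reps 461) (Tab.E2 461) :=
  link hF hO c461 (by decide +kernel) (by decide +kernel)

include hF hO in
theorem m482 : Kill2 (Tab.reps 482) (Tab.E2 482) :=
  link hF hO c482 (by decide +kernel) (by decide +kernel)

include hF hO in
theorem m530 : Kill2 (Tab.reps 530) (Tab.E2 530) :=
  link hF hO c530 (by decide +kernel) (by decide +kernel)

include hF hO in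
theorem m549 : Kill2 (Tab.reps 549) (Tab.E2 549) :=
  link hF hO c549 (by decide +kernel) (by decide +kernel)

include hF hO in
theorem m623 : Kill2 (Tab.reps 623) (Tab.E2 623) :=
  link hF hO c623 (by decide +kernel) (by decide +kernel)

include hF hO in
theorem m667 : Kill2 (Tab.reps 667) (Tab.E2 667) :=
  link hF hO c667 (by decide +kernel) (by decide +kernel)

include hF hO in
theorem m671 : Kill2 (Tab.reps 671) (Tab.E2 671) :=
  link hF hO c671 (by decide +kernel) (by decide +kernel)

include hF hO in
theorem m683 : Kill2 (Tab.reps 683) (Tab.E2 683) :=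
  link hF hO c683 (by decide +kernel) (by decide +kernel)

include hF hO in
theorem m687 : Kill2 (Tab.reps 687) (Tab.E2 687) :=
  link hF hO c687 (by decide +kernel) (by decide +kernel)

include hF hO in
theorem m691 : Kill2 (Tab.reps 691) (Tab.E2 691) :=
  link hF hO c691 (by decide +kernel) (by decide +kernel)

include hF hO in
theorem m747 : Kill2 (Tab.reps 747) (Tab.E2 747) :=
  link hF hO c747 (by decide +kernel) (by decide +kernel)

include hF hO in
theorem m757 : Kill2 (Tab.reps 757) (Tab.E2 757) :=
  link hF hO c757 (by decide +kernel) (by decide +kernel)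

include hF hO in
theorem m767 : Kill2 (Tab.reps 767) (Tab.E2 767) :=
  link hF hO c767 (by decide +kernel) (by decide +kernel)

include hF hO in
theorem m768 : Kill2 (Tab.reps 768) (Tab.E2 768) :=
  link hF hO c768 (by decide +kernel) (by decide +kernel)

include hF hO in
theorem m781 : Kill2 (Tab.reps 781) (Tab.E2 781) :=
  link hF hO c781 (by decide +kernel) (by decide +kernel)

include hF hO in
theorem m795 : Kill2 (Tab.reps 795) (Tab.E2 795) :=
  link hF hO c795 (by decide +kernel) (by decide +kernel)

include hF hO in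
theorem m802 : Kill2 (Tab.reps 802) (Tab.E2 802) :=
  link hF hO c802 (by decide +kernel) (by decide +kernel)

include hF hO in
theorem m804 : Kill2 (Tab.reps 804) (Tab.E2 804) :=
  link hF hO c804 (by decide +kernel) (by decide +kernel)

include hF hO in
theorem m805 : Kill2 (Tab.reps 805) (Tab.E2 805) :=
  link hF hO c805 (by decide +kernel) (by decide +kernel)

include hF hO in
theorem m810 : Kill2 (Tab.reps 810) (Tab.E2 810) :=
  link hF hO c810 (by decide +kernel) (by decide +kernel)

include hF hO in
theorem m831 : Kill2 (Tab.reps 831) (Tab.E2 831) :=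
  link hF hO c831 (by decide +kernel) (by decide +kernel)

include hF hO in
theorem m841 : Kill2 (Tab.reps 841) (Tab.E2 841) :=
  link hF hO c841 (by decide +kernel) (by decide +kernel)

include hF hO in
theorem m845 : Kill2 (Tab.reps 845) (Tab.E2 845) :=
  link hF hO c845 (by decide +kernel) (by decide +kernel)

include hF hO in
theorem m848 : Kill2 (Tab.reps 848) (Tab.E2 848) :=
  link hF hO c848 (by decide +kernel) (by decide +kernel)

include hF hO in
theorem m861 : Kill2 (Tab.reps 861) (Tab.E2 861) :=
  link hF hO c861 (by decide +kernel) (by decide +kernel)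

include hF hO in
theorem m901 : Kill2 (Tab.reps 901) (Tab.E2 901) :=
  link hF hO c901 (by decide +kernel) (by decide +kernel)

include hF hO in
theorem m932 : Kill2 (Tab.reps 932) (Tab.E2 932) :=
  link hF hO c932 (by decide +kernel) (by decide +kernel)

include hF hO in
theorem m948 : Kill2 (Tab.reps 948) (Tab.E2 948) :=
  link hF hO c948 (by decide +kernel) (by decide +kernel)

include hF hO in
theorem m957 : Kill2 (Tab.reps 957) (Tab.E2 957) :=
  link hF hO c957 (by decide +kernel) (by decide +kernel)

include hF hO in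
theorem m960 : Kill2 (Tab.reps 960) (Tab.E2 960) :=
  link hF hO c960 (by decide +kernel) (by decide +kernel)

include hF hO in
theorem m963 : Kill2 (Tab.reps 963) (Tab.E2 963) :=
  link hF hO c963 (by decide +kernel) (by decide +kernel)

include hF hO in
theorem m967 : Kill2 (Tab.reps 967) (Tab.E2 967) :=
  link hF hO c967 (by decide +kernel) (by decide +kernel)

include hF hO in
theorem m984 : Kill2 (Tab.reps 984) (Tab.E2 984) :=
  link hF hO c984 (by decide +kernel) (by decide +kernel)

include hF hO in
theorem m985 : Kill2 (Tab.reps 985) (Tab.E2 985) :=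
  link hF hO c985 (by decide +kernel) (by decide +kernel)

include hF hO in
theorem m990 : Kill2 (Tab.reps 990) (Tab.E2 990) :=
  link hF hO c990 (by decide +kernel) (by decide +kernel)

include hF hO in
theorem m1004 : Kill2 (Tab.reps 1004) (Tab.E2 1004) :=
  link hF hO c1004 (by decide +kernel) (by decide +kernel)

include hF hO in
theorem m1006 : Kill2 (Tab.reps 1006) (Tab.E2 1006) :=
  link hF hO c1006 (by decide +kernel) (by decide +kernel)

include hF hO in
theorem m1037 : Kill2 (Tab.reps 1037) (Tab.E2 1037) :=
  link hF hO c1037 (by decide +kernel) (by decide +kernel)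

include hF hO in
theorem m1072 : Kill2 (Tab.reps 1072) (Tab.E2 1072) :=
  link hF hO c1072 (by decide +kernel) (by decide +kernel)

include hF hO in
theorem m1073 : Kill2 (Tab.reps 1073) (Tab.E2 1073) :=
  link hF hO c1073 (by decide +kernel) (by decide +kernel)

include hF hO in
theorem m1074 : Kill2 (Tab.reps 1074) (Tab.E2 1074) :=
  link hF hO c1074 (by decide +kernel) (by decide +kernel)

include hF hO in
theorem m1120 : Kill2 (Tab.reps 1120) (Tab.E2 1120) :=
  link hF hO c1120 (by decide +kernel) (by decide +kernel)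

include hF hO in
theorem m1130 : Kill2 (Tab.reps 1130) (Tab.E2 1130) :=
  link hF hO c1130 (by decide +kernel) (by decide +kernel)

include hF hO in
theorem m1147 : Kill2 (Tab.reps 1147) (Tab.E2 1147) :=
  link hF hO c1147 (by decide +kernel) (by decide +kernel)

include hF hO in
theorem m1150 : Kill2 (Tab.reps 1150) (Tab.E2 1150) :=
  link hF hO c1150 (by decide +kernel) (by decide +kernel)

include hF hO in
theorem m1190 : Kill2 (Tab.reps 1190) (Tab.E2 1190) :=
  link hF hO c1190 (by decide +kernel) (by decide +kernel)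

include hF hO in
theorem m1218 : Kill2 (Tab.reps 1218) (Tab.E2 1218) :=
  link hF hO c1218 (by decide +kernel) (by decide +kernel)

include hF hO in
theorem m1228 : Kill2 (Tab.reps 1228) (Tab.E2 1228) :=
  link hF hO c1228 (by decide +kernel) (by decide +kernel)

include hF hO in
theorem m1232 : Kill2 (Tab.reps 1232) (Tab.E2 1232) :=
  link hF hO c1232 (by decide +kernel) (by decide +kernel)

include hF hO in
theorem m1253 : Kill2 (Tab.reps 1253) (Tab.E2 1253) :=
  link hF hO c1253 (by decide +kernel) (by decide +kernel)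

include hF hO in
theorem m1256 : Kill2 (Tab.reps 1256) (Tab.E2 1256) :=
  link hF hO c1256 (by decide +kernel) (by decide +kernel)

include hF hO in
theorem m1259 : Kill2 (Tab.reps 1259) (Tab.E2 1259) :=
  link hF hO c1259 (by decide +kernel) (by decide +kernel)

include hF hO in
theorem m1263 : Kill2 (Tab.reps 1263) (Tab.E2 1263) :=
  link hF hO c1263 (by decide +kernel) (by decide +kernel)

include hF hO in
theorem m1285 : Kill2 (Tab.reps 1285) (Tab.E2 1285) :=
  link hF hO c1285 (by decide +kernel) (by decide +kernel)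

include hF hO in
theorem m1286 : Kill2 (Tab.reps 1286) (Tab.E2 1286) :=
  link hF hO c1286 (by decide +kernel) (by decide +kernel)

include hF hO in
theorem m1317 : Kill2 (Tab.reps 1317) (Tab.E2 1317) :=
  link hF hO c1317 (by decide +kernel) (by decide +kernel)

include hF hO in
theorem m1329 : Kill2 (Tab.reps 1329) (Tab.E2 1329) :=
  link hF hO c1329 (by decide +kernel) (by decide +kernel)

include hF hO in
theorem m1349 : Kill2 (Tab.reps 1349) (Tab.E2 1349) :=
  link hF hO c1349 (by decide +kernel) (by decide +kernel)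

include hF hO in
theorem m1361 : Kill2 (Tab.reps 1361) (Tab.E2 1361) :=
  link hF hO c1361 (by decide +kernel) (by decide +kernel)

include hF hO in
theorem m1394 : Kill2 (Tab.reps 1394) (Tab.E2 1394) :=
  link hF hO c1394 (by decide +kernel) (by decide +kernel)

include hF hO in
theorem m1395 : Kill2 (Tab.reps 1395) (Tab.E2 1395) :=
  link hF hO c1395 (by decide +kernel) (by decide +kernel)

include hF hO in
theorem m1402 : Kill2 (Tab.reps 1402) (Tab.E2 1402) :=
  link hF hO c1402 (by decide +kernel) (by decide +kernel)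

include hF hO in
theorem m1403 : Kill2 (Tab.reps 1403) (Tab.E2 1403) :=
  link hF hO c1403 (by decide +kernel) (by decide +kernel)

include hF hO in
theorem m1408 : Kill2 (Tab.reps 1408) (Tab.E2 1408) :=
  link hF hO c1408 (by decide +kernel) (by decide +kernel)

include hF hO in
theorem m1421 : Kill2 (Tab.reps 1421) (Tab.E2 1421) :=
  link hF hO c1421 (by decide +kernel) (by decide +kernel)

include hF hO in
theorem m1442 : Kill2 (Tab.reps 1442) (Tab.E2 1442) :=
  link hF hO c1442 (by decide +kernel) (by decide +kernel)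

include hF hO in
theorem m1450 : Kill2 (Tab.reps 1450) (Tab.E2 1450) :=
  link hF hO c1450 (by decide +kernel) (by decide +kernel)

include hF hO in
theorem m1463 : Kill2 (Tab.reps 1463) (Tab.E2 1463) :=
  link hF hO c1463 (by decide +kernel) (by decide +kernel)

include hF hO in
theorem m1548 : Kill2 (Tab.reps 1548) (Tab.E2 1548) :=
  link hF hO c1548 (by decide +kernel) (by decide +kernel)

include hF hO in
theorem m1559 : Kill2 (Tab.reps 1559) (Tab.E2 1559) :=
  link hF hO c1559 (by decide +kernel) (by decide +kernel)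

include hF hO in
theorem m1575 : Kill2 (Tab.reps 1575) (Tab.E2 1575) :=
  link hF hO c1575 (by decide +kernel) (by decide +kernel)

include hF hO in
theorem m1598 : Kill2 (Tab.reps 1598) (Tab.E2 1598) :=
  link hF hO c1598 (by decide +kernel) (by decide +kernel)

include hF hO in
theorem m1605 : Kill2 (Tab.reps 1605) (Tab.E2 1605) :=
  link hF hO c1605 (by decide +kernel) (by decide +kernel)

include hF hO in
theorem m1607 : Kill2 (Tab.reps 1607) (Tab.E2 1607) :=
  link hF hO c1607 (by decide +kernel) (by decide +kernel)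

include hF hO in
theorem m1609 : Kill2 (Tab.reps 1609) (Tab.E2 1609) :=
  link hF hO c1609 (by decide +kernel) (by decide +kernel)

include hF hO in
theorem m1642 : Kill2 (Tab.reps 1642) (Tab.E2 1642) :=
  link hF hO c1642 (by decide +kernel) (by decide +kernel)

include hF hO in
theorem m1710 : Kill2 (Tab.reps 1710) (Tab.E2 1710) :=
  link hF hO c1710 (by decide +kernel) (by decide +kernel)

include hF hO in
theorem m1711 : Kill2 (Tab.reps 1711) (Tab.E2 1711) :=
  link hF hO c1711 (by decide +kernel) (by decide +kernel)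

include hF hO in
theorem m1712 : Kill2 (Tab.reps 1712) (Tab.E2 1712) :=
  link hF hO c1712 (by decide +kernel) (by decide +kernel)

include hF hO in
theorem m1716 : Kill2 (Tab.reps 1716) (Tab.E2 1716) :=
  link hF hO c1716 (by decide +kernel) (by decide +kernel)

include hF hO in
theorem m1717 : Kill2 (Tab.reps 1717) (Tab.E2 1717) :=
  link hF hO c1717 (by decide +kernel) (by decide +kernel)

include hF hO in
theorem m1718 : Kill2 (Tab.reps 1718) (Tab.E2 1718) :=
  link hF hO c1718 (by decide +kernel) (by decide +kernel)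

include hF hO in
theorem m1732 : Kill2 (Tab.reps 1732) (Tab.E2 1732) :=
  link hF hO c1732 (by decide +kernel) (by decide +kernel)

include hF hO in
theorem m1733 : Kill2 (Tab.reps 1733) (Tab.E2 1733) :=
  link hF hO c1733 (by decide +kernel) (by decide +kernel)

include hF hO in
theorem m1736 : Kill2 (Tab.reps 1736) (Tab.E2 1736) :=
  link hF hO c1736 (by decide +kernel) (by decide +kernel)

include hF hO in
theorem m1747 : Kill2 (Tab.reps 1747) (Tab.E2 1747) :=
  link hF hO c1747 (by decide +kernel) (by decide +kernel)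

include hF hO in
theorem m1752 : Kill2 (Tab.reps 1752) (Tab.E2 1752) :=
  link hF hO c1752 (by decide +kernel) (by decide +kernel)

include hF hO in
theorem m1758 : Kill2 (Tab.reps 1758) (Tab.E2 1758) :=
  link hF hO c1758 (by decide +kernel) (by decide +kernel)

include hF hO in
theorem m1776 : Kill2 (Tab.reps 1776) (Tab.E2 1776) :=
  link hF hO c1776 (by decide +kernel) (by decide +kernel)

include hF hO in
theorem m1785 : Kill2 (Tab.reps 1785) (Tab.E2 1785) :=
  link hF hO c1785 (by decide +kernel) (by decide +kernel)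

include hF hO in
theorem m1799 : Kill2 (Tab.reps 1799) (Tab.E2 1799) :=
  link hF hO c1799 (by decide +kernel) (by decide +kernel)

include hF hO in
theorem m1800 : Kill2 (Tab.reps 1800) (Tab.E2 1800) :=
  link hF hO c1800 (by decide +kernel) (by decide +kernel)

include hF hO in
theorem m1801 : Kill2 (Tab.reps 1801) (Tab.E2 1801) :=
  link hF hO c1801 (by decide +kernel) (by decide +kernel)

include hF hO in
theorem m1810 : Kill2 (Tab.reps 1810) (Tab.E2 1810) :=
  link hF hO c1810 (by decide +kernel) (by decide +kernel)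

include hF hO in
theorem m1829 : Kill2 (Tab.reps 1829) (Tab.E2 1829) :=
  link hF hO c1829 (by decide +kernel) (by decide +kernel)

include hF hO in
theorem m1846 : Kill2 (Tab.reps 1846) (Tab.E2 1846) :=
  link hF hO c1846 (by decide +kernel) (by decide +kernel)

include hF hO in
theorem m1886 : Kill2 (Tab.reps 1886) (Tab.E2 1886) :=
  link hF hO c1886 (by decide +kernel) (by decide +kernel)

include hF hO in
theorem m1928 : Kill2 (Tab.reps 1928) (Tab.E2 1928) :=
  link hF hO c1928 (by decide +kernel) (by decide +kernel)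

include hF hO in
theorem m1931 : Kill2 (Tab.reps 1931) (Tab.E2 1931) :=
  link hF hO c1931 (by decide +kernel) (by decide +kernel)

include hF hO in
theorem m1932 : Kill2 (Tab.reps 1932) (Tab.E2 1932) :=
  link hF hO c1932 (by decide +kernel) (by decide +kernel)

include hF hO in
theorem m1937 : Kill2 (Tab.reps 1937) (Tab.E2 1937) :=
  link hF hO c1937 (by decide +kernel) (by decide +kernel)

include hF hO in
theorem m1962 : Kill2 (Tab.reps 1962) (Tab.E2 1962) :=
  link hF hO c1962 (by decide +kernel) (by decide +kernel)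

include hF hO in
theorem m1984 : Kill2 (Tab.reps 1984) (Tab.E2 1984) :=
  link hF hO c1984 (by decide +kernel) (by decide +kernel)

include hF hO in
theorem m2015 : Kill2 (Tab.reps 2015) (Tab.E2 2015) :=
  link hF hO c2015 (by decide +kernel) (by decide +kernel)

include hF hO in
theorem m2048 : Kill2 (Tab.reps 2048) (Tab.E2 2048) :=
  link hF hO c2048 (by decide +kernel) (by decide +kernel)

include hF hO in
theorem m2054 : Kill2 (Tab.reps 2054) (Tab.E2 2054) :=
  link hF hO c2054 (by decide +kernel) (by decide +kernel)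

include hF hO in
theorem m2108 : Kill2 (Tab.reps 2108) (Tab.E2 2108) :=
  link hF hO c2108 (by decide +kernel) (by decide +kernel)

include hF hO in
theorem m2127 : Kill2 (Tab.reps 2127) (Tab.E2 2127) :=
  link hF hO c2127 (by decide +kernel) (by decide +kernel)

include hF hO in
theorem m2145 : Kill2 (Tab.reps 2145) (Tab.E2 2145) :=
  link hF hO c2145 (by decide +kernel) (by decide +kernel)

include hF hO in
theorem m2147 : Kill2 (Tab.reps 2147) (Tab.E2 2147) :=
  link hF hO c2147 (by decide +kernel) (by decide +kernel)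

include hF hO in
theorem m2174 : Kill2 (Tab.reps 2174) (Tab.E2 2174) :=
  link hF hO c2174 (by decide +kernel) (by decide +kernel)

include hF hO in
theorem m2175 : Kill2 (Tab.reps 2175) (Tab.E2 2175) :=
  link hF hO c2175 (by decide +kernel) (by decide +kernel)

include hF hO in
theorem m2176 : Kill2 (Tab.reps 2176) (Tab.E2 2176) :=
  link hF hO c2176 (by decide +kernel) (by decide +kernel)

include hF hO in
theorem m2177 : Kill2 (Tab.reps 2177) (Tab.E2 2177) :=
  link hF hO c2177 (by decide +kernel) (by decide +kernel)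

include hF hO in
theorem m2178 : Kill2 (Tab.reps 2178) (Tab.E2 2178) :=
  link hF hO c2178 (by decide +kernel) (by decide +kernel)

include hF hO in
theorem m2180 : Kill2 (Tab.reps 2180) (Tab.E2 2180) :=
  link hF hO c2180 (by decide +kernel) (by decide +kernel)

include hF hO in
theorem m2184 : Kill2 (Tab.reps 2184) (Tab.E2 2184) :=
  link hF hO c2184 (by decide +kernel) (by decide +kernel)

include hF hO in
theorem m2207 : Kill2 (Tab.reps 2207) (Tab.E2 2207) :=
  link hF hO c2207 (by decide +kernel) (by decide +kernel)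

include hF hO in
theorem m2266 : Kill2 (Tab.reps 2266) (Tab.E2 2266) :=
  link hF hO c2266 (by decide +kernel) (by decide +kernel)

include hF hO in
theorem m2279 : Kill2 (Tab.reps 2279) (Tab.E2 2279) :=
  link hF hO c2279 (by decide +kernel) (by decide +kernel)

include hF hO in
theorem m2290 : Kill2 (Tab.reps 2290) (Tab.E2 2290) :=
  link hF hO c2290 (by decide +kernel) (by decide +kernel)

include hF hO in
theorem m2304 : Kill2 (Tab.reps 2304) (Tab.E2 2304) :=
  link hF hO c2304 (by decide +kernel) (by decide +kernel)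

include hF hO in
theorem m2305 : Kill2 (Tab.reps 2305) (Tab.E2 2305) :=
  link hF hO c2305 (by decide +kernel) (by decide +kernel)

include hF hO in
theorem m2306 : Kill2 (Tab.reps 2306) (Tab.E2 2306) :=
  link hF hO c2306 (by decide +kernel) (by decide +kernel)

include hF hO in
theorem m2311 : Kill2 (Tab.reps 2311) (Tab.E2 2311) :=
  link hF hO c2311 (by decide +kernel) (by decide +kernel)

include hF hO in
theorem m2313 : Kill2 (Tab.reps 2313) (Tab.E2 2313) :=
  link hF hO c2313 (by decide +kernel) (by decide +kernel)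

include hF hO in
theorem m2314 : Kill2 (Tab.reps 2314) (Tab.E2 2314) :=
  link hF hO c2314 (by decide +kernel) (by decide +kernel)

include hF hO in
theorem m2315 : Kill2 (Tab.reps 2315) (Tab.E2 2315) :=
  link hF hO c2315 (by decide +kernel) (by decide +kernel)

include hF hO in
theorem m2316 : Kill2 (Tab.reps 2316) (Tab.E2 2316) :=
  link hF hO c2316 (by decide +kernel) (by decide +kernel)

include hF hO in
theorem m2317 : Kill2 (Tab.reps 2317) (Tab.E2 2317) :=
  link hF hO c2317 (by decide +kernel) (by decide +kernel)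

include hF hO in
theorem m2319 : Kill2 (Tab.reps 2319) (Tab.E2 2319) :=
  link hF hO c2319 (by decide +kernel) (by decide +kernel)

include hF hO in
theorem m2320 : Kill2 (Tab.reps 2320) (Tab.E2 2320) :=
  link hF hO c2320 (by decide +kernel) (by decide +kernel)

include hF hO in
theorem m2325 : Kill2 (Tab.reps 2325) (Tab.E2 2325) :=
  link hF hO c2325 (by decide +kernel) (by decide +kernel)

include hF hO in
theorem m2334 : Kill2 (Tab.reps 2334) (Tab.E2 2334) :=
  link hF hO c2334 (by decide +kernel) (by decide +kernel)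

include hF hO in
theorem m2382 : Kill2 (Tab.reps 2382) (Tab.E2 2382) :=
  link hF hO c2382 (by decide +kernel) (by decide +kernel)

include hF hO in
theorem m2385 : Kill2 (Tab.reps 2385) (Tab.E2 2385) :=
  link hF hO c2385 (by decide +kernel) (by decide +kernel)

include hF hO in
theorem m2395 : Kill2 (Tab.reps 2395) (Tab.E2 2395) :=
  link hF hO c2395 (by decide +kernel) (by decide +kernel)

include hF hO in
theorem m2429 : Kill2 (Tab.reps 2429) (Tab.E2 2429) :=
  link hF hO c2429 (by decide +kernel) (by decide +kernel)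

include hF hO in
theorem m2472 : Kill2 (Tab.reps 2472) (Tab.E2 2472) :=
  link hF hO c2472 (by decide +kernel) (by decide +kernel)

include hF hO in
theorem m2488 : Kill2 (Tab.reps 2488) (Tab.E2 2488) :=
  link hF hO c2488 (by decide +kernel) (by decide +kernel)

include hF hO in
theorem m2498 : Kill2 (Tab.reps 2498) (Tab.E2 2498) :=
  link hF hO c2498 (by decide +kernel) (by decide +kernel)

include hF hO in
theorem m2506 : Kill2 (Tab.reps 2506) (Tab.E2 2506) :=
  link hF hO c2506 (by decide +kernel) (by decide +kernel)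

include hF hO in
theorem m2517 : Kill2 (Tab.reps 2517) (Tab.E2 2517) :=
  link hF hO c2517 (by decide +kernel) (by decide +kernel)

include hF hO in
theorem m2520 : Kill2 (Tab.reps 2520) (Tab.E2 2520) :=
  link hF hO c2520 (by decide +kernel) (by decide +kernel)

include hF hO in
theorem m2521 : Kill2 (Tab.reps 2521) (Tab.E2 2521) :=
  link hF hO c2521 (by decide +kernel) (by decide +kernel)

include hF hO in
theorem m2523 : Kill2 (Tab.reps 2523) (Tab.E2 2523) :=
  link hF hO c2523 (by decide +kernel) (by decide +kernel)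

include hF hO in
theorem m2525 : Kill2 (Tab.reps 2525) (Tab.E2 2525) :=
  link hF hO c2525 (by decide +kernel) (by decide +kernel)

include hF hO in
theorem m2526 : Kill2 (Tab.reps 2526) (Tab.E2 2526) :=
  link hF hO c2526 (by decide +kernel) (by decide +kernel)

include hF hO in
theorem m2529 : Kill2 (Tab.reps 2529) (Tab.E2 2529) :=
  link hF hO c2529 (by decide +kernel) (by decide +kernel)

include hF hO in
theorem m2530 : Kill2 (Tab.reps 2530) (Tab.E2 2530) :=
  link hF hO c2530 (by decide +kernel) (by decide +kernel)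

include hF hO in
theorem m2546 : Kill2 (Tab.reps 2546) (Tab.E2 2546) :=
  link hF hO c2546 (by decide +kernel) (by decide +kernel)

include hF hO in
theorem m2551 : Kill2 (Tab.reps 2551) (Tab.E2 2551) :=
  link hF hO c2551 (by decide +kernel) (by decide +kernel)

include hF hO in
theorem m2566 : Kill2 (Tab.reps 2566) (Tab.E2 2566) :=
  link hF hO c2566 (by decide +kernel) (by decide +kernel)

include hF hO in
theorem m2588 : Kill2 (Tab.reps 2588) (Tab.E2 2588) :=
  link hF hO c2588 (by decide +kernel) (by decide +kernel)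

include hF hO in
theorem m2615 : Kill2 (Tab.reps 2615) (Tab.E2 2615) :=
  link hF hO c2615 (by decide +kernel) (by decide +kernel)

include hF hO in
theorem m2624 : Kill2 (Tab.reps 2624) (Tab.E2 2624) :=
  link hF hO c2624 (by decide +kernel) (by decide +kernel)

include hF hO in
theorem m2647 : Kill2 (Tab.reps 2647) (Tab.E2 2647) :=
  link hF hO c2647 (by decide +kernel) (by decide +kernel)

include hF hO in
theorem m2670 : Kill2 (Tab.reps 2670) (Tab.E2 2670) :=
  link hF hO c2670 (by decide +kernel) (by decide +kernel)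

include hF hO in
theorem m2688 : Kill2 (Tab.reps 2688) (Tab.E2 2688) :=
  link hF hO c2688 (by decide +kernel) (by decide +kernel)

include hF hO in
theorem m2695 : Kill2 (Tab.reps 2695) (Tab.E2 2695) :=
  link hF hO c2695 (by decide +kernel) (by decide +kernel)

include hF hO in
theorem m2716 : Kill2 (Tab.reps 2716) (Tab.E2 2716) :=
  link hF hO c2716 (by decide +kernel) (by decide +kernel)

include hF hO in
theorem m2744 : Kill2 (Tab.reps 2744) (Tab.E2 2744) :=
  link hF hO c2744 (by decide +kernel) (by decide +kernel)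

include hF hO in
theorem m2747 : Kill2 (Tab.reps 2747) (Tab.E2 2747) :=
  link hF hO c2747 (by decide +kernel) (by decide +kernel)

include hF hO in
theorem m2794 : Kill2 (Tab.reps 2794) (Tab.E2 2794) :=
  link hF hO c2794 (by decide +kernel) (by decide +kernel)

include hF hO in
theorem m2822 : Kill2 (Tab.reps 2822) (Tab.E2 2822) :=
  link hF hO c2822 (by decide +kernel) (by decide +kernel)

include hF hO in
theorem m2824 : Kill2 (Tab.reps 2824) (Tab.E2 2824) :=
  link hF hO c2824 (by decide +kernel) (by decide +kernel)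

include hF hO in
theorem m2825 : Kill2 (Tab.reps 2825) (Tab.E2 2825) :=
  link hF hO c2825 (by decide +kernel) (by decide +kernel)

include hF hO in
theorem m2843 : Kill2 (Tab.reps 2843) (Tab.E2 2843) :=
  link hF hO c2843 (by decide +kernel) (by decide +kernel)

include hF hO in
theorem m2850 : Kill2 (Tab.reps 2850) (Tab.E2 2850) :=
  link hF hO c2850 (by decide +kernel) (by decide +kernel)

include hF hO in
theorem m2860 : Kill2 (Tab.reps 2860) (Tab.E2 2860) :=
  link hF hO c2860 (by decide +kernel) (by decide +kernel)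

include hF hO in
theorem m2864 : Kill2 (Tab.reps 2864) (Tab.E2 2864) :=
  link hF hO c2864 (by decide +kernel) (by decide +kernel)

include hF hO in
theorem m2868 : Kill2 (Tab.reps 2868) (Tab.E2 2868) :=
  link hF hO c2868 (by decide +kernel) (by decide +kernel)

include hF hO in
theorem m2879 : Kill2 (Tab.reps 2879) (Tab.E2 2879) :=
  link hF hO c2879 (by decide +kernel) (by decide +kernel)

include hF hO in
theorem m2890 : Kill2 (Tab.reps 2890) (Tab.E2 2890) :=
  link hF hO c2890 (by decide +kernel) (by decide +kernel)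

include hF hO in
theorem m2891 : Kill2 (Tab.reps 2891) (Tab.E2 2891) :=
  link hF hO c2891 (by decide +kernel) (by decide +kernel)

include hF hO in
theorem m2898 : Kill2 (Tab.reps 2898) (Tab.E2 2898) :=
  link hF hO c2898 (by decide +kernel) (by decide +kernel)

include hF hO in
theorem m2909 : Kill2 (Tab.reps 2909) (Tab.E2 2909) :=
  link hF hO c2909 (by decide +kernel) (by decide +kernel)

include hF hO in
theorem m2916 : Kill2 (Tab.reps 2916) (Tab.E2 2916) :=
  link hF hO c2916 (by decide +kernel) (by decide +kernel)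

include hF hO in
theorem m2941 : Kill2 (Tab.reps 2941) (Tab.E2 2941) :=
  link hF hO c2941 (by decide +kernel) (by decide +kernel)

include hF hO in
theorem m2949 : Kill2 (Tab.reps 2949) (Tab.E2 2949) :=
  link hF hO c2949 (by decide +kernel) (by decide +kernel)

include hF hO in
theorem m2952 : Kill2 (Tab.reps 2952) (Tab.E2 2952) :=
  link hF hO c2952 (by decide +kernel) (by decide +kernel)

include hF hO in
theorem m2968 : Kill2 (Tab.reps 2968) (Tab.E2 2968) :=
  link hF hO c2968 (by decide +kernel) (by decide +kernel)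

include hF hO in
theorem m3000 : Kill2 (Tab.reps 3000) (Tab.E2 3000) :=
  link hF hO c3000 (by decide +kernel) (by decide +kernel)

include hF hO in
theorem m3017 : Kill2 (Tab.reps 3017) (Tab.E2 3017) :=
  link hF hO c3017 (by decide +kernel) (by decide +kernel)

include hF hO in
theorem m3022 : Kill2 (Tab.reps 3022) (Tab.E2 3022) :=
  link hF hO c3022 (by decide +kernel) (by decide +kernel)

include hF hO in
theorem m3053 : Kill2 (Tab.reps 3053) (Tab.E2 3053) :=
  link hF hO c3053 (by decide +kernel) (by decide +kernel)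

include hF hO in
theorem m3074 : Kill2 (Tab.reps 3074) (Tab.E2 3074) :=
  link hF hO c3074 (by decide +kernel) (by decide +kernel)

include hF hO in
theorem m3076 : Kill2 (Tab.reps 3076) (Tab.E2 3076) :=
  link hF hO c3076 (by decide +kernel) (by decide +kernel)

include hF hO in
theorem m3083 : Kill2 (Tab.reps 3083) (Tab.E2 3083) :=
  link hF hO c3083 (by decide +kernel) (by decide +kernel)

include hF hO in
theorem m3088 : Kill2 (Tab.reps 3088) (Tab.E2 3088) :=
  link hF hO c3088 (by decide +kernel) (by decide +kernel)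

include hF hO in
theorem m3112 : Kill2 (Tab.reps 3112) (Tab.E2 3112) :=
  link hF hO c3112 (by decide +kernel) (by decide +kernel)

include hF hO in
theorem m3122 : Kill2 (Tab.reps 3122) (Tab.E2 3122) :=
  link hF hO c3122 (by decide +kernel) (by decide +kernel)

include hF hO in
theorem m3124 : Kill2 (Tab.reps 3124) (Tab.E2 3124) :=
  link hF hO c3124 (by decide +kernel) (by decide +kernel)

include hF hO in
theorem m3126 : Kill2 (Tab.reps 3126) (Tab.E2 3126) :=
  link hF hO c3126 (by decide +kernel) (by decide +kernel)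

include hF hO in
theorem m3133 : Kill2 (Tab.reps 3133) (Tab.E2 3133) :=
  link hF hO c3133 (by decide +kernel) (by decide +kernel)

include hF hO in
theorem m3134 : Kill2 (Tab.reps 3134) (Tab.E2 3134) :=
  link hF hO c3134 (by decide +kernel) (by decide +kernel)

include hF hO in
theorem m3158 : Kill2 (Tab.reps 3158) (Tab.E2 3158) :=
  link hF hO c3158 (by decide +kernel) (by decide +kernel)

include hF hO in
theorem m3161 : Kill2 (Tab.reps 3161) (Tab.E2 3161) :=
  link hF hO c3161 (by decide +kernel) (by decide +kernel)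

include hF hO in
theorem m3167 : Kill2 (Tab.reps 3167) (Tab.E2 3167) :=
  link hF hO c3167 (by decide +kernel) (by decide +kernel)

include hF hO in
theorem m3182 : Kill2 (Tab.reps 3182) (Tab.E2 3182) :=
  link hF hO c3182 (by decide +kernel) (by decide +kernel)

include hF hO in
theorem m3188 : Kill2 (Tab.reps 3188) (Tab.E2 3188) :=
  link hF hO c3188 (by decide +kernel) (by decide +kernel)

include hF hO in
theorem m3190 : Kill2 (Tab.reps 3190) (Tab.E2 3190) :=
  link hF hO c3190 (by decide +kernel) (by decide +kernel)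

include hF hO in
theorem m3276 : Kill2 (Tab.reps 3276) (Tab.E2 3276) :=
  link hF hO c3276 (by decide +kernel) (by decide +kernel)

include hF hO in
theorem m3292 : Kill2 (Tab.reps 3292) (Tab.E2 3292) :=
  link hF hO c3292 (by decide +kernel) (by decide +kernel)

include hF hO in
theorem m3295 : Kill2 (Tab.reps 3295) (Tab.E2 3295) :=
  link hF hO c3295 (by decide +kernel) (by decide +kernel)

include hF hO in
theorem m3316 : Kill2 (Tab.reps 3316) (Tab.E2 3316) :=
  link hF hO c3316 (by decide +kernel) (by decide +kernel)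

include hF hO in
theorem m3393 : Kill2 (Tab.reps 3393) (Tab.E2 3393) :=
  link hF hO c3393 (by decide +kernel) (by decide +kernel)

include hF hO in
theorem m3395 : Kill2 (Tab.reps 3395) (Tab.E2 3395) :=
  link hF hO c3395 (by decide +kernel) (by decide +kernel)

include hF hO in
theorem m3410 : Kill2 (Tab.reps 3410) (Tab.E2 3410) :=
  link hF hO c3410 (by decide +kernel) (by decide +kernel)

include hF hO in
theorem m3419 : Kill2 (Tab.reps 3419) (Tab.E2 3419) :=
  link hF hO c3419 (by decide +kernel) (by decide +kernel)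

include hF hO in
theorem m3428 : Kill2 (Tab.reps 3428) (Tab.E2 3428) :=
  link hF hO c3428 (by decide +kernel) (by decide +kernel)

include hF hO in
theorem m3443 : Kill2 (Tab.reps 3443) (Tab.E2 3443) :=
  link hF hO c3443 (by decide +kernel) (by decide +kernel)

include hF hO in
theorem m3446 : Kill2 (Tab.reps 3446) (Tab.E2 3446) :=
  link hF hO c3446 (by decide +kernel) (by decide +kernel)

include hF hO in
theorem m3478 : Kill2 (Tab.reps 3478) (Tab.E2 3478) :=
  link hF hO c3478 (by decide +kernel) (by decide +kernel)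

include hF hO in
theorem m3480 : Kill2 (Tab.reps 3480) (Tab.E2 3480) :=
  link hF hO c3480 (by decide +kernel) (by decide +kernel)

include hF hO in
theorem m3481 : Kill2 (Tab.reps 3481) (Tab.E2 3481) :=
  link hF hO c3481 (by decide +kernel) (by decide +kernel)

include hF hO in
theorem m3482 : Kill2 (Tab.reps 3482) (Tab.E2 3482) :=
  link hF hO c3482 (by decide +kernel) (by decide +kernel)

include hF hO in
theorem m3483 : Kill2 (Tab.reps 3483) (Tab.E2 3483) :=
  link hF hO c3483 (by decide +kernel) (by decide +kernel)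

include hF hO in
theorem m3493 : Kill2 (Tab.reps 3493) (Tab.E2 3493) :=
  link hF hO c3493 (by decide +kernel) (by decide +kernel)

include hF hO in
theorem m3503 : Kill2 (Tab.reps 3503) (Tab.E2 3503) :=
  link hF hO c3503 (by decide +kernel) (by decide +kernel)

include hF hO in
theorem m3506 : Kill2 (Tab.reps 3506) (Tab.E2 3506) :=
  link hF hO c3506 (by decide +kernel) (by decide +kernel)

include hF hO in
theorem m3519 : Kill2 (Tab.reps 3519) (Tab.E2 3519) :=
  link hF hO c3519 (by decide +kernel) (by decide +kernel)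

include hF hO in
theorem m3523 : Kill2 (Tab.reps 3523) (Tab.E2 3523) :=
  link hF hO c3523 (by decide +kernel) (by decide +kernel)

include hF hO in
theorem m3525 : Kill2 (Tab.reps 3525) (Tab.E2 3525) :=
  link hF hO c3525 (by decide +kernel) (by decide +kernel)

include hF hO in
theorem m3526 : Kill2 (Tab.reps 3526) (Tab.E2 3526) :=
  link hF hO c3526 (by decide +kernel) (by decide +kernel)

include hF hO in
theorem m3534 : Kill2 (Tab.reps 3534) (Tab.E2 3534) :=
  link hF hO c3534 (by decide +kernel) (by decide +kernel)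

include hF hO in
theorem m3598 : Kill2 (Tab.reps 3598) (Tab.E2 3598) :=
  link hF hO c3598 (by decide +kernel) (by decide +kernel)

include hF hO in
theorem m3599 : Kill2 (Tab.reps 3599) (Tab.E2 3599) :=
  link hF hO c3599 (by decide +kernel) (by decide +kernel)

include hF hO in
theorem m3602 : Kill2 (Tab.reps 3602) (Tab.E2 3602) :=
  link hF hO c3602 (by decide +kernel) (by decide +kernel)

include hF hO in
theorem m3609 : Kill2 (Tab.reps 3609) (Tab.E2 3609) :=
  link hF hO c3609 (by decide +kernel) (by decide +kernel)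

include hF hO in
theorem m3637 : Kill2 (Tab.reps 3637) (Tab.E2 3637) :=
  link hF hO c3637 (by decide +kernel) (by decide +kernel)

include hF hO in
theorem m3638 : Kill2 (Tab.reps 3638) (Tab.E2 3638) :=
  link hF hO c3638 (by decide +kernel) (by decide +kernel)

include hF hO in
theorem m3662 : Kill2 (Tab.reps 3662) (Tab.E2 3662) :=
  link hF hO c3662 (by decide +kernel) (by decide +kernel)

include hF hO in
theorem m3683 : Kill2 (Tab.reps 3683) (Tab.E2 3683) :=
  link hF hO c3683 (by decide +kernel) (by decide +kernel)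

include hF hO in
theorem m3684 : Kill2 (Tab.reps 3684) (Tab.E2 3684) :=
  link hF hO c3684 (by decide +kernel) (by decide +kernel)

include hF hO in
theorem m3685 : Kill2 (Tab.reps 3685) (Tab.E2 3685) :=
  link hF hO c3685 (by decide +kernel) (by decide +kernel)

include hF hO in
theorem m3702 : Kill2 (Tab.reps 3702) (Tab.E2 3702) :=
  link hF hO c3702 (by decide +kernel) (by decide +kernel)

include hF hO in
theorem m3703 : Kill2 (Tab.reps 3703) (Tab.E2 3703) :=
  link hF hO c3703 (by decide +kernel) (by decide +kernel)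

include hF hO in
theorem m3719 : Kill2 (Tab.reps 3719) (Tab.E2 3719) :=
  link hF hO c3719 (by decide +kernel) (by decide +kernel)

include hF hO in
theorem m3721 : Kill2 (Tab.reps 3721) (Tab.E2 3721) :=
  link hF hO c3721 (by decide +kernel) (by decide +kernel)

include hF hO in
theorem m3739 : Kill2 (Tab.reps 3739) (Tab.E2 3739) :=
  link hF hO c3739 (by decide +kernel) (by decide +kernel)

include hF hO in
theorem m3798 : Kill2 (Tab.reps 3798) (Tab.E2 3798) :=
  link hF hO c3798 (by decide +kernel) (by decide +kernel)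

include hF hO in
theorem m3800 : Kill2 (Tab.reps 3800) (Tab.E2 3800) :=
  link hF hO c3800 (by decide +kernel) (by decide +kernel)

include hF hO in
theorem m3810 : Kill2 (Tab.reps 3810) (Tab.E2 3810) :=
  link hF hO c3810 (by decide +kernel) (by decide +kernel)

include hF hO in
theorem m3815 : Kill2 (Tab.reps 3815) (Tab.E2 3815) :=
  link hF hO c3815 (by decide +kernel) (by decide +kernel)

include hF hO in
theorem m3818 : Kill2 (Tab.reps 3818) (Tab.E2 3818) :=
  link hF hO c3818 (by decide +kernel) (by decide +kernel)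

include hF hO in
theorem m3827 : Kill2 (Tab.reps 3827) (Tab.E2 3827) :=
  link hF hO c3827 (by decide +kernel) (by decide +kernel)

include hF hO in
theorem m3829 : Kill2 (Tab.reps 3829) (Tab.E2 3829) :=
  link hF hO c3829 (by decide +kernel) (by decide +kernel)

include hF hO in
theorem m3833 : Kill2 (Tab.reps 3833) (Tab.E2 3833) :=
  link hF hO c3833 (by decide +kernel) (by decide +kernel)

include hF hO in
theorem m3834 : Kill2 (Tab.reps 3834) (Tab.E2 3834) :=
  link hF hO c3834 (by decide +kernel) (by decide +kernel)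

include hF hO in
theorem m3845 : Kill2 (Tab.reps 3845) (Tab.E2 3845) :=
  link hF hO c3845 (by decide +kernel) (by decide +kernel)

include hF hO in
theorem m3859 : Kill2 (Tab.reps 3859) (Tab.E2 3859) :=
  link hF hO c3859 (by decide +kernel) (by decide +kernel)

include hF hO in
theorem m3875 : Kill2 (Tab.reps 3875) (Tab.E2 3875) :=
  link hF hO c3875 (by decide +kernel) (by decide +kernel)

include hF hO in
theorem m3901 : Kill2 (Tab.reps 3901) (Tab.E2 3901) :=
  link hF hO c3901 (by decide +kernel) (by decide +kernel)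

include hF hO in
theorem m3909 : Kill2 (Tab.reps 3909) (Tab.E2 3909) :=
  link hF hO c3909 (by decide +kernel) (by decide +kernel)

include hF hO in
theorem m3918 : Kill2 (Tab.reps 3918) (Tab.E2 3918) :=
  link hF hO c3918 (by decide +kernel) (by decide +kernel)

include hF hO in
theorem m3925 : Kill2 (Tab.reps 3925) (Tab.E2 3925) :=
  link hF hO c3925 (by decide +kernel) (by decide +kernel)

include hF hO in
theorem m3928 : Kill2 (Tab.reps 3928) (Tab.E2 3928) :=
  link hF hO c3928 (by decide +kernel) (by decide +kernel)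

include hF hO in
theorem m3933 : Kill2 (Tab.reps 3933) (Tab.E2 3933) :=
  link hF hO c3933 (by decide +kernel) (by decide +kernel)

include hF hO in
theorem m3941 : Kill2 (Tab.reps 3941) (Tab.E2 3941) :=
  link hF hO c3941 (by decide +kernel) (by decide +kernel)

include hF hO in
theorem m3943 : Kill2 (Tab.reps 3943) (Tab.E2 3943) :=
  link hF hO c3943 (by decide +kernel) (by decide +kernel)

include hF hO in
theorem m3967 : Kill2 (Tab.reps 3967) (Tab.E2 3967) :=
  link hF hO c3967 (by decide +kernel) (by decide +kernel)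

include hF hO in
theorem m3968 : Kill2 (Tab.reps 3968) (Tab.E2 3968) :=
  link hF hO c3968 (by decide +kernel) (by decide +kernel)

include hF hO in
theorem m3969 : Kill2 (Tab.reps 3969) (Tab.E2 3969) :=
  link hF hO c3969 (by decide +kernel) (by decide +kernel)

include hF hO in
theorem m3992 : Kill2 (Tab.reps 3992) (Tab.E2 3992) :=
  link hF hO c3992 (by decide +kernel) (by decide +kernel)

include hF hO in
theorem m3996 : Kill2 (Tab.reps 3996) (Tab.E2 3996) :=
  link hF hO c3996 (by decide +kernel) (by decide +kernel)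

include hF hO in
theorem m4006 : Kill2 (Tab.reps 4006) (Tab.E2 4006) :=
  link hF hO c4006 (by decide +kernel) (by decide +kernel)

include hF hO in
theorem m4009 : Kill2 (Tab.reps 4009) (Tab.E2 4009) :=
  link hF hO c4009 (by decide +kernel) (by decide +kernel)

include hF hO in
theorem m4014 : Kill2 (Tab.reps 4014) (Tab.E2 4014) :=
  link hF hO c4014 (by decide +kernel) (by decide +kernel)

include hF hO in
theorem m4047 : Kill2 (Tab.reps 4047) (Tab.E2 4047) :=
  link hF hO c4047 (by decide +kernel) (by decide +kernel)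

include hF hO in
theorem m4048 : Kill2 (Tab.reps 4048) (Tab.E2 4048) :=
  link hF hO c4048 (by decide +kernel) (by decide +kernel)

include hF hO in
theorem m4070 : Kill2 (Tab.reps 4070) (Tab.E2 4070) :=
  link hF hO c4070 (by decide +kernel) (by decide +kernel)

include hF hO in
theorem m4077 : Kill2 (Tab.reps 4077) (Tab.E2 4077) :=
  link hF hO c4077 (by decide +kernel) (by decide +kernel)

include hF hO in
theorem m4092 : Kill2 (Tab.reps 4092) (Tab.E2 4092) :=
  link hF hO c4092 (by decide +kernel) (by decide +kernel)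

include hF hO in
theorem m4099 : Kill2 (Tab.reps 4099) (Tab.E2 4099) :=
  link hF hO c4099 (by decide +kernel) (by decide +kernel)

include hF hO in
theorem m4104 : Kill2 (Tab.reps 4104) (Tab.E2 4104) :=
  link hF hO c4104 (by decide +kernel) (by decide +kernel)

include hF hO in
theorem m4112 : Kill2 (Tab.reps 4112) (Tab.E2 4112) :=
  link hF hO c4112 (by decide +kernel) (by decide +kernel)

include hF hO in
theorem m4113 : Kill2 (Tab.reps 4113) (Tab.E2 4113) :=
  link hF hO c4113 (by decide +kernel) (by decide +kernel)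

include hF hO in
theorem m4127 : Kill2 (Tab.reps 4127) (Tab.E2 4127) :=
  link hF hO c4127 (by decide +kernel) (by decide +kernel)

include hF hO in
theorem m4130 : Kill2 (Tab.reps 4130) (Tab.E2 4130) :=
  link hF hO c4130 (by decide +kernel) (by decide +kernel)

include hF hO in
theorem m4138 : Kill2 (Tab.reps 4138) (Tab.E2 4138) :=
  link hF hO c4138 (by decide +kernel) (by decide +kernel)

include hF hO in
theorem m4139 : Kill2 (Tab.reps 4139) (Tab.E2 4139) :=
  link hF hO c4139 (by decide +kernel) (by decide +kernel)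

include hF hO in
theorem m4146 : Kill2 (Tab.reps 4146) (Tab.E2 4146) :=
  link hF hO c4146 (by decide +kernel) (by decide +kernel)

include hF hO in
theorem m4153 : Kill2 (Tab.reps 4153) (Tab.E2 4153) :=
  link hF hO c4153 (by decide +kernel) (by decide +kernel)

include hF hO in
theorem m4154 : Kill2 (Tab.reps 4154) (Tab.E2 4154) :=
  link hF hO c4154 (by decide +kernel) (by decide +kernel)

include hF hO in
theorem m4155 : Kill2 (Tab.reps 4155) (Tab.E2 4155) :=
  link hF hO c4155 (by decide +kernel) (by decide +kernel)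

include hF hO in
theorem m4163 : Kill2 (Tab.reps 4163) (Tab.E2 4163) :=
  link hF hO c4163 (by decide +kernel) (by decide +kernel)

include hF hO in
theorem m4168 : Kill2 (Tab.reps 4168) (Tab.E2 4168) :=
  link hF hO c4168 (by decide +kernel) (by decide +kernel)

include hF hO in
theorem m4174 : Kill2 (Tab.reps 4174) (Tab.E2 4174) :=
  link hF hO c4174 (by decide +kernel) (by decide +kernel)

include hF hO in
theorem m4201 : Kill2 (Tab.reps 4201) (Tab.E2 4201) :=
  link hF hO c4201 (by decide +kernel) (by decide +kernel)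

include hF hO in
theorem m4207 : Kill2 (Tab.reps 4207) (Tab.E2 4207) :=
  link hF hO c4207 (by decide +kernel) (by decide +kernel)

include hF hO in
theorem m4213 : Kill2 (Tab.reps 4213) (Tab.E2 4213) :=
  link hF hO c4213 (by decide +kernel) (by decide +kernel)

include hF hO in
theorem m4214 : Kill2 (Tab.reps 4214) (Tab.E2 4214) :=
  link hF hO c4214 (by decide +kernel) (by decide +kernel)

include hF hO in
theorem m4216 : Kill2 (Tab.reps 4216) (Tab.E2 4216) :=
  link hF hO c4216 (by decide +kernel) (by decide +kernel)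

include hF hO in
theorem m4224 : Kill2 (Tab.reps 4224) (Tab.E2 4224) :=
  link hF hO c4224 (by decide +kernel) (by decide +kernel)

include hF hO in
theorem m4245 : Kill2 (Tab.reps 4245) (Tab.E2 4245) :=
  link hF hO c4245 (by decide +kernel) (by decide +kernel)

include hF hO in
theorem m4269 : Kill2 (Tab.reps 4269) (Tab.E2 4269) :=
  link hF hO c4269 (by decide +kernel) (by decide +kernel)

include hF hO in
theorem m4270 : Kill2 (Tab.reps 4270) (Tab.E2 4270) :=
  link hF hO c4270 (by decide +kernel) (by decide +kernel)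

include hF hO in
theorem m4295 : Kill2 (Tab.reps 4295) (Tab.E2 4295) :=
  link hF hO c4295 (by decide +kernel) (by decide +kernel)

include hF hO in
theorem m4301 : Kill2 (Tab.reps 4301) (Tab.E2 4301) :=
  link hF hO c4301 (by decide +kernel) (by decide +kernel)

include hF hO in
theorem m4302 : Kill2 (Tab.reps 4302) (Tab.E2 4302) :=
  link hF hO c4302 (by decide +kernel) (by decide +kernel)

include hF hO in
theorem m4303 : Kill2 (Tab.reps 4303) (Tab.E2 4303) :=
  link hF hO c4303 (by decide +kernel) (by decide +kernel)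

include hF hO in
theorem m4318 : Kill2 (Tab.reps 4318) (Tab.E2 4318) :=
  link hF hO c4318 (by decide +kernel) (by decide +kernel)

include hF hO in
theorem m4323 : Kill2 (Tab.reps 4323) (Tab.E2 4323) :=
  link hF hO c4323 (by decide +kernel) (by decide +kernel)

include hF hO in
theorem m4325 : Kill2 (Tab.reps 4325) (Tab.E2 4325) :=
  link hF hO c4325 (by decide +kernel) (by decide +kernel)

include hF hO in
theorem m4327 : Kill2 (Tab.reps 4327) (Tab.E2 4327) :=
  link hF hO c4327 (by decide +kernel) (by decide +kernel)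

include hF hO in
theorem m4331 : Kill2 (Tab.reps 4331) (Tab.E2 4331) :=
  link hF hO c4331 (by decide +kernel) (by decide +kernel)

include hF hO in
theorem m4332 : Kill2 (Tab.reps 4332) (Tab.E2 4332) :=
  link hF hO c4332 (by decide +kernel) (by decide +kernel)

include hF hO in
theorem m4347 : Kill2 (Tab.reps 4347) (Tab.E2 4347) :=
  link hF hO c4347 (by decide +kernel) (by decide +kernel)

include hF hO in
theorem m4366 : Kill2 (Tab.reps 4366) (Tab.E2 4366) :=
  link hF hO c4366 (by decide +kernel) (by decide +kernel)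

include hF hO in
theorem m4373 : Kill2 (Tab.reps 4373) (Tab.E2 4373) :=
  link hF hO c4373 (by decide +kernel) (by decide +kernel)

include hF hO in
theorem m4381 : Kill2 (Tab.reps 4381) (Tab.E2 4381) :=
  link hF hO c4381 (by decide +kernel) (by decide +kernel)

include hF hO in
theorem m4407 : Kill2 (Tab.reps 4407) (Tab.E2 4407) :=
  link hF hO c4407 (by decide +kernel) (by decide +kernel)

include hF hO in
theorem m4408 : Kill2 (Tab.reps 4408) (Tab.E2 4408) :=
  link hF hO c4408 (by decide +kernel) (by decide +kernel)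

include hF hO in
theorem m4411 : Kill2 (Tab.reps 4411) (Tab.E2 4411) :=
  link hF hO c4411 (by decide +kernel) (by decide +kernel)

include hF hO in
theorem m4414 : Kill2 (Tab.reps 4414) (Tab.E2 4414) :=
  link hF hO c4414 (by decide +kernel) (by decide +kernel)

include hF hO in
theorem m4415 : Kill2 (Tab.reps 4415) (Tab.E2 4415) :=
  link hF hO c4415 (by decide +kernel) (by decide +kernel)

include hF hO in
theorem m4416 : Kill2 (Tab.reps 4416) (Tab.E2 4416) :=
  link hF hO c4416 (by decide +kernel) (by decide +kernel)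

include hF hO in
theorem m4417 : Kill2 (Tab.reps 4417) (Tab.E2 4417) :=
  link hF hO c4417 (by decide +kernel) (by decide +kernel)

include hF hO in
theorem m4421 : Kill2 (Tab.reps 4421) (Tab.E2 4421) :=
  link hF hO c4421 (by decide +kernel) (by decide +kernel)

include hF hO in
theorem m4422 : Kill2 (Tab.reps 4422) (Tab.E2 4422) :=
  link hF hO c4422 (by decide +kernel) (by decide +kernel)

include hF hO in
theorem m4423 : Kill2 (Tab.reps 4423) (Tab.E2 4423) :=
  link hF hO c4423 (by decide +kernel) (by decide +kernel)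

include hF hO in
theorem m4424 : Kill2 (Tab.reps 4424) (Tab.E2 4424) :=
  link hF hO c4424 (by decide +kernel) (by decide +kernel)

include hF hO in
theorem m4429 : Kill2 (Tab.reps 4429) (Tab.E2 4429) :=
  link hF hO c4429 (by decide +kernel) (by decide +kernel)

include hF hO in
theorem m4431 : Kill2 (Tab.reps 4431) (Tab.E2 4431) :=
  link hF hO c4431 (by decide +kernel) (by decide +kernel)

include hF hO in
theorem m4432 : Kill2 (Tab.reps 4432) (Tab.E2 4432) :=
  link hF hO c4432 (by decide +kernel) (by decide +kernel)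

include hF hO in
theorem m4433 : Kill2 (Tab.reps 4433) (Tab.E2 4433) :=
  link hF hO c4433 (by decide +kernel) (by decide +kernel)

include hF hO in
theorem m4441 : Kill2 (Tab.reps 4441) (Tab.E2 4441) :=
  link hF hO c4441 (by decide +kernel) (by decide +kernel)

include hF hO in
theorem m4447 : Kill2 (Tab.reps 4447) (Tab.E2 4447) :=
  link hF hO c4447 (by decide +kernel) (by decide +kernel)

include hF hO in
theorem m4448 : Kill2 (Tab.reps 4448) (Tab.E2 4448) :=
  link hF hO c4448 (by decide +kernel) (by decide +kernel)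

include hF hO in
theorem m4449 : Kill2 (Tab.reps 4449) (Tab.E2 4449) :=
  link hF hO c4449 (by decide +kernel) (by decide +kernel)

include hF hO in
theorem m4451 : Kill2 (Tab.reps 4451) (Tab.E2 4451) :=
  link hF hO c4451 (by decide +kernel) (by decide +kernel)

include hF hO in
theorem m4452 : Kill2 (Tab.reps 4452) (Tab.E2 4452) :=
  link hF hO c4452 (by decide +kernel) (by decide +kernel)

include hF hO in
theorem m4453 : Kill2 (Tab.reps 4453) (Tab.E2 4453) :=
  link hF hO c4453 (by decide +kernel) (by decide +kernel)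

include hF hO in
theorem m4456 : Kill2 (Tab.reps 4456) (Tab.E2 4456) :=
  link hF hO c4456 (by decide +kernel) (by decide +kernel)

include hF hO in
theorem m4459 : Kill2 (Tab.reps 4459) (Tab.E2 4459) :=
  link hF hO c4459 (by decide +kernel) (by decide +kernel)

include hF hO in
theorem m4465 : Kill2 (Tab.reps 4465) (Tab.E2 4465) :=
  link hF hO c4465 (by decide +kernel) (by decide +kernel)

include hF hO in
theorem m4469 : Kill2 (Tab.reps 4469) (Tab.E2 4469) :=
  link hF hO c4469 (by decide +kernel) (by decide +kernel)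

include hF hO in
theorem m4471 : Kill2 (Tab.reps 4471) (Tab.E2 4471) :=
  link hF hO c4471 (by decide +kernel) (by decide +kernel)

include hF hO in
theorem m4473 : Kill2 (Tab.reps 4473) (Tab.E2 4473) :=
  link hF hO c4473 (by decide +kernel) (by decide +kernel)

include hF hO in
theorem m4474 : Kill2 (Tab.reps 4474) (Tab.E2 4474) :=
  link hF hO c4474 (by decide +kernel) (by decide +kernel)

include hF hO in
theorem m4475 : Kill2 (Tab.reps 4475) (Tab.E2 4475) :=
  link hF hO c4475 (by decide +kernel) (by decide +kernel)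

include hF hO in
theorem m4476 : Kill2 (Tab.reps 4476) (Tab.E2 4476) :=
  link hF hO c4476 (by decide +kernel) (by decide +kernel)

include hF hO in
theorem m4488 : Kill2 (Tab.reps 4488) (Tab.E2 4488) :=
  link hF hO c4488 (by decide +kernel) (by decide +kernel)

include hF hO in
theorem m4497 : Kill2 (Tab.reps 4497) (Tab.E2 4497) :=
  link hF hO c4497 (by decide +kernel) (by decide +kernel)

include hF hO in
theorem m4499 : Kill2 (Tab.reps 4499) (Tab.E2 4499) :=
  link hF hO c4499 (by decide +kernel) (by decide +kernel)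

include hF hO in
theorem m4501 : Kill2 (Tab.reps 4501) (Tab.E2 4501) :=
  link hF hO c4501 (by decide +kernel) (by decide +kernel)

include hF hO in
theorem m4502 : Kill2 (Tab.reps 4502) (Tab.E2 4502) :=
  link hF hO c4502 (by decide +kernel) (by decide +kernel)

include hF hO in
theorem m4505 : Kill2 (Tab.reps 4505) (Tab.E2 4505) :=
  link hF hO c4505 (by decide +kernel) (by decide +kernel)

include hF hO in
theorem m4507 : Kill2 (Tab.reps 4507) (Tab.E2 4507) :=
  link hF hO c4507 (by decide +kernel) (by decide +kernel)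

include hF hO in
theorem m4508 : Kill2 (Tab.reps 4508) (Tab.E2 4508) :=
  link hF hO c4508 (by decide +kernel) (by decide +kernel)

include hF hO in
theorem m4516 : Kill2 (Tab.reps 4516) (Tab.E2 4516) :=
  link hF hO c4516 (by decide +kernel) (by decide +kernel)

include hF hO in
theorem m4519 : Kill2 (Tab.reps 4519) (Tab.E2 4519) :=
  link hF hO c4519 (by decide +kernel) (by decide +kernel)

include hF hO in
theorem m4521 : Kill2 (Tab.reps 4521) (Tab.E2 4521) :=
  link hF hO c4521 (by decide +kernel) (by decide +kernel)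

include hF hO in
theorem m4522 : Kill2 (Tab.reps 4522) (Tab.E2 4522) :=
  link hF hO c4522 (by decide +kernel) (by decide +kernel)

include hF hO in
theorem m4523 : Kill2 (Tab.reps 4523) (Tab.E2 4523) :=
  link hF hO c4523 (by decide +kernel) (by decide +kernel)

include hF hO in
theorem m4524 : Kill2 (Tab.reps 4524) (Tab.E2 4524) :=
  link hF hO c4524 (by decide +kernel) (by decide +kernel)

include hF hO in
theorem m4526 : Kill2 (Tab.reps 4526) (Tab.E2 4526) :=
  link hF hO c4526 (by decide +kernel) (by decide +kernel)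

include hF hO in
theorem m4527 : Kill2 (Tab.reps 4527) (Tab.E2 4527) :=
  link hF hO c4527 (by decide +kernel) (by decide +kernel)

include hF hO in
theorem m4528 : Kill2 (Tab.reps 4528) (Tab.E2 4528) :=
  link hF hO c4528 (by decide +kernel) (by decide +kernel)

include hF hO in
theorem m4529 : Kill2 (Tab.reps 4529) (Tab.E2 4529) :=
  link hF hO c4529 (by decide +kernel) (by decide +kernel)

include hF hO in
theorem m4530 : Kill2 (Tab.reps 4530) (Tab.E2 4530) :=
  link hF hO c4530 (by decide +kernel) (by decide +kernel)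

include hF hO in
theorem m4531 : Kill2 (Tab.reps 4531) (Tab.E2 4531) :=
  link hF hO c4531 (by decide +kernel) (by decide +kernel)

include hF hO in
theorem m4532 : Kill2 (Tab.reps 4532) (Tab.E2 4532) :=
  link hF hO c4532 (by decide +kernel) (by decide +kernel)

include hF hO in
theorem m4534 : Kill2 (Tab.reps 4534) (Tab.E2 4534) :=
  link hF hO c4534 (by decide +kernel) (by decide +kernel)

include hF hO in
theorem m4543 : Kill2 (Tab.reps 4543) (Tab.E2 4543) :=
  link hF hO c4543 (by decide +kernel) (by decide +kernel)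

include hF hO in
theorem m4546 : Kill2 (Tab.reps 4546) (Tab.E2 4546) :=
  link hF hO c4546 (by decide +kernel) (by decide +kernel)

include hF hO in
theorem m4547 : Kill2 (Tab.reps 4547) (Tab.E2 4547) :=
  link hF hO c4547 (by decide +kernel) (by decide +kernel)

include hF hO in
theorem m4548 : Kill2 (Tab.reps 4548) (Tab.E2 4548) :=
  link hF hO c4548 (by decide +kernel) (by decide +kernel)

include hF hO in
theorem m4551 : Kill2 (Tab.reps 4551) (Tab.E2 4551) :=
  link hF hO c4551 (by decide +kernel) (by decide +kernel)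

include hF hO in
theorem m4552 : Kill2 (Tab.reps 4552) (Tab.E2 4552) :=
  link hF hO c4552 (by decide +kernel) (by decide +kernel)

include hF hO in
theorem m4554 : Kill2 (Tab.reps 4554) (Tab.E2 4554) :=
  link hF hO c4554 (by decide +kernel) (by decide +kernel)

include hF hO in
theorem m4558 : Kill2 (Tab.reps 4558) (Tab.E2 4558) :=
  link hF hO c4558 (by decide +kernel) (by decide +kernel)

include hF hO in
theorem m4559 : Kill2 (Tab.reps 4559) (Tab.E2 4559) :=
  link hF hO c4559 (by decide +kernel) (by decide +kernel)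

include hF hO in
theorem m4560 : Kill2 (Tab.reps 4560) (Tab.E2 4560) :=
  link hF hO c4560 (by decide +kernel) (by decide +kernel)

include hF hO in
theorem m4562 : Kill2 (Tab.reps 4562) (Tab.E2 4562) :=
  link hF hO c4562 (by decide +kernel) (by decide +kernel)

include hF hO in
theorem m4563 : Kill2 (Tab.reps 4563) (Tab.E2 4563) :=
  link hF hO c4563 (by decide +kernel) (by decide +kernel)

include hF hO in
theorem m4564 : Kill2 (Tab.reps 4564) (Tab.E2 4564) :=
  link hF hO c4564 (by decide +kernel) (by decide +kernel)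

include hF hO in
theorem m4565 : Kill2 (Tab.reps 4565) (Tab.E2 4565) :=
  link hF hO c4565 (by decide +kernel) (by decide +kernel)

include hF hO in
theorem m4566 : Kill2 (Tab.reps 4566) (Tab.E2 4566) :=
  link hF hO c4566 (by decide +kernel) (by decide +kernel)

include hF hO in
theorem m4573 : Kill2 (Tab.reps 4573) (Tab.E2 4573) :=
  link hF hO c4573 (by decide +kernel) (by decide +kernel)

include hF hO in
theorem m4574 : Kill2 (Tab.reps 4574) (Tab.E2 4574) :=
  link hF hO c4574 (by decide +kernel) (by decide +kernel)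

include hF hO in
theorem m4575 : Kill2 (Tab.reps 4575) (Tab.E2 4575) :=
  link hF hO c4575 (by decide +kernel) (by decide +kernel)

include hF hO in
theorem m4576 : Kill2 (Tab.reps 4576) (Tab.E2 4576) :=
  link hF hO c4576 (by decide +kernel) (by decide +kernel)

include hF hO in
theorem m4581 : Kill2 (Tab.reps 4581) (Tab.E2 4581) :=
  link hF hO c4581 (by decide +kernel) (by decide +kernel)

include hF hO in
theorem m4582 : Kill2 (Tab.reps 4582) (Tab.E2 4582) :=
  link hF hO c4582 (by decide +kernel) (by decide +kernel)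

include hF hO in
theorem m4585 : Kill2 (Tab.reps 4585) (Tab.E2 4585) :=
  link hF hO c4585 (by decide +kernel) (by decide +kernel)

include hF hO in
theorem m4586 : Kill2 (Tab.reps 4586) (Tab.E2 4586) :=
  link hF hO c4586 (by decide +kernel) (by decide +kernel)

include hF hO in
theorem m4588 : Kill2 (Tab.reps 4588) (Tab.E2 4588) :=
  link hF hO c4588 (by decide +kernel) (by decide +kernel)

include hF hO in
theorem m4590 : Kill2 (Tab.reps 4590) (Tab.E2 4590) :=
  link hF hO c4590 (by decide +kernel) (by decide +kernel)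

include hF hO in
theorem m4591 : Kill2 (Tab.reps 4591) (Tab.E2 4591) :=
  link hF hO c4591 (by decide +kernel) (by decide +kernel)

include hF hO in
theorem m4592 : Kill2 (Tab.reps 4592) (Tab.E2 4592) :=
  link hF hO c4592 (by decide +kernel) (by decide +kernel)

include hF hO in
theorem m4595 : Kill2 (Tab.reps 4595) (Tab.E2 4595) :=
  link hF hO c4595 (by decide +kernel) (by decide +kernel)

include hF hO in
theorem m4598 : Kill2 (Tab.reps 4598) (Tab.E2 4598) :=
  link hF hO c4598 (by decide +kernel) (by decide +kernel)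

include hF hO in
theorem m4599 : Kill2 (Tab.reps 4599) (Tab.E2 4599) :=
  link hF hO c4599 (by decide +kernel) (by decide +kernel)

include hF hO in
theorem m4604 : Kill2 (Tab.reps 4604) (Tab.E2 4604) :=
  link hF hO c4604 (by decide +kernel) (by decide +kernel)

include hF hO in
theorem m4605 : Kill2 (Tab.reps 4605) (Tab.E2 4605) :=
  link hF hO c4605 (by decide +kernel) (by decide +kernel)

include hF hO in
theorem m4607 : Kill2 (Tab.reps 4607) (Tab.E2 4607) :=
  link hF hO c4607 (by decide +kernel) (by decide +kernel)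

include hF hO in
theorem m4608 : Kill2 (Tab.reps 4608) (Tab.E2 4608) :=
  link hF hO c4608 (by decide +kernel) (by decide +kernel)

include hF hO in
theorem m4609 : Kill2 (Tab.reps 4609) (Tab.E2 4609) :=
  link hF hO c4609 (by decide +kernel) (by decide +kernel)

include hF hO in
theorem m4613 : Kill2 (Tab.reps 4613) (Tab.E2 4613) :=
  link hF hO c4613 (by decide +kernel) (by decide +kernel)

include hF hO in
theorem m4615 : Kill2 (Tab.reps 4615) (Tab.E2 4615) :=
  link hF hO c4615 (by decide +kernel) (by decide +kernel)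

include hF hO in
theorem m4622 : Kill2 (Tab.reps 4622) (Tab.E2 4622) :=
  link hF hO c4622 (by decide +kernel) (by decide +kernel)

include hF hO in
theorem m4624 : Kill2 (Tab.reps 4624) (Tab.E2 4624) :=
  link hF hO c4624 (by decide +kernel) (by decide +kernel)

include hF hO in
theorem m4625 : Kill2 (Tab.reps 4625) (Tab.E2 4625) :=
  link hF hO c4625 (by decide +kernel) (by decide +kernel)

include hF hO in
theorem m4627 : Kill2 (Tab.reps 4627) (Tab.E2 4627) :=
  link hF hO c4627 (by decide +kernel) (by decide +kernel)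

include hF hO in
theorem m4629 : Kill2 (Tab.reps 4629) (Tab.E2 4629) :=
  link hF hO c4629 (by decide +kernel) (by decide +kernel)

include hF hO in
theorem m4631 : Kill2 (Tab.reps 4631) (Tab.E2 4631) :=
  link hF hO c4631 (by decide +kernel) (by decide +kernel)

include hF hO in
theorem m4632 : Kill2 (Tab.reps 4632) (Tab.E2 4632) :=
  link hF hO c4632 (by decide +kernel) (by decide +kernel)

include hF hO in
theorem m4634 : Kill2 (Tab.reps 4634) (Tab.E2 4634) :=
  link hF hO c4634 (by decide +kernel) (by decide +kernel)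

include hF hO in
theorem m4636 : Kill2 (Tab.reps 4636) (Tab.E2 4636) :=
  link hF hO c4636 (by decide +kernel) (by decide +kernel)

include hF hO in
theorem m4639 : Kill2 (Tab.reps 4639) (Tab.E2 4639) :=
  link hF hO c4639 (by decide +kernel) (by decide +kernel)

include hF hO in
theorem m4640 : Kill2 (Tab.reps 4640) (Tab.E2 4640) :=
  link hF hO c4640 (by decide +kernel) (by decide +kernel)

include hF hO in
theorem m4641 : Kill2 (Tab.reps 4641) (Tab.E2 4641) :=
  link hF hO c4641 (by decide +kernel) (by decide +kernel)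

include hF hO in
theorem m4647 : Kill2 (Tab.reps 4647) (Tab.E2 4647) :=
  link hF hO c4647 (by decide +kernel) (by decide +kernel)

include hF hO in
theorem m4650 : Kill2 (Tab.reps 4650) (Tab.E2 4650) :=
  link hF hO c4650 (by decide +kernel) (by decide +kernel)

include hF hO in
theorem m4651 : Kill2 (Tab.reps 4651) (Tab.E2 4651) :=
  link hF hO c4651 (by decide +kernel) (by decide +kernel)

include hF hO in
theorem m4654 : Kill2 (Tab.reps 4654) (Tab.E2 4654) :=
  link hF hO c4654 (by decide +kernel) (by decide +kernel)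

include hF hO in
theorem m4655 : Kill2 (Tab.reps 4655) (Tab.E2 4655) :=
  link hF hO c4655 (by decide +kernel) (by decide +kernel)

include hF hO in
theorem m4659 : Kill2 (Tab.reps 4659) (Tab.E2 4659) :=
  link hF hO c4659 (by decide +kernel) (by decide +kernel)

include hF hO in
theorem m4660 : Kill2 (Tab.reps 4660) (Tab.E2 4660) :=
  link hF hO c4660 (by decide +kernel) (by decide +kernel)

include hF hO in
theorem m4661 : Kill2 (Tab.reps 4661) (Tab.E2 4661) :=
  link hF hO c4661 (by decide +kernel) (by decide +kernel)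

include hF hO in
theorem m4662 : Kill2 (Tab.reps 4662) (Tab.E2 4662) :=
  link hF hO c4662 (by decide +kernel) (by decide +kernel)

include hF hO in
theorem m4665 : Kill2 (Tab.reps 4665) (Tab.E2 4665) :=
  link hF hO c4665 (by decide +kernel) (by decide +kernel)

include hF hO in
theorem m4666 : Kill2 (Tab.reps 4666) (Tab.E2 4666) :=
  link hF hO c4666 (by decide +kernel) (by decide +kernel)

include hF hO in
theorem m4669 : Kill2 (Tab.reps 4669) (Tab.E2 4669) :=
  link hF hO c4669 (by decide +kernel) (by decide +kernel)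

include hF hO in
theorem m4670 : Kill2 (Tab.reps 4670) (Tab.E2 4670) :=
  link hF hO c4670 (by decide +kernel) (by decide +kernel)

include hF hO in
theorem m4671 : Kill2 (Tab.reps 4671) (Tab.E2 4671) :=
  link hF hO c4671 (by decide +kernel) (by decide +kernel)

include hF hO in
theorem m4672 : Kill2 (Tab.reps 4672) (Tab.E2 4672) :=
  link hF hO c4672 (by decide +kernel) (by decide +kernel)

include hF hO in
theorem m4673 : Kill2 (Tab.reps 4673) (Tab.E2 4673) :=
  link hF hO c4673 (by decide +kernel) (by decide +kernel)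

include hF hO in
theorem m4674 : Kill2 (Tab.reps 4674) (Tab.E2 4674) :=
  link hF hO c4674 (by decide +kernel) (by decide +kernel)

include hF hO in
theorem m4676 : Kill2 (Tab.reps 4676) (Tab.E2 4676) :=
  link hF hO c4676 (by decide +kernel) (by decide +kernel)

include hF hO in
theorem m4677 : Kill2 (Tab.reps 4677) (Tab.E2 4677) :=
  link hF hO c4677 (by decide +kernel) (by decide +kernel)

include hF hO in
theorem m4681 : Kill2 (Tab.reps 4681) (Tab.E2 4681) :=
  link hF hO c4681 (by decide +kernel) (by decide +kernel)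

include hF hO in
theorem m4683 : Kill2 (Tab.reps 4683) (Tab.E2 4683) :=
  link hF hO c4683 (by decide +kernel) (by decide +kernel)

include hF hO in
theorem m4684 : Kill2 (Tab.reps 4684) (Tab.E2 4684) :=
  link hF hO c4684 (by decide +kernel) (by decide +kernel)

include hF hO in
theorem m4685 : Kill2 (Tab.reps 4685) (Tab.E2 4685) :=
  link hF hO c4685 (by decide +kernel) (by decide +kernel)

include hF hO in
theorem m4688 : Kill2 (Tab.reps 4688) (Tab.E2 4688) :=
  link hF hO c4688 (by decide +kernel) (by decide +kernel)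

include hF hO in
theorem m4689 : Kill2 (Tab.reps 4689) (Tab.E2 4689) :=
  link hF hO c4689 (by decide +kernel) (by decide +kernel)

include hF hO in
theorem m4691 : Kill2 (Tab.reps 4691) (Tab.E2 4691) :=
  link hF hO c4691 (by decide +kernel) (by decide +kernel)

include hF hO in
theorem m4693 : Kill2 (Tab.reps 4693) (Tab.E2 4693) :=
  link hF hO c4693 (by decide +kernel) (by decide +kernel)

include hF hO in
theorem m4695 : Kill2 (Tab.reps 4695) (Tab.E2 4695) :=
  link hF hO c4695 (by decide +kernel) (by decide +kernel)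

include hF hO in
theorem m4697 : Kill2 (Tab.reps 4697) (Tab.E2 4697) :=
  link hF hO c4697 (by decide +kernel) (by decide +kernel)

include hF hO in
theorem m4698 : Kill2 (Tab.reps 4698) (Tab.E2 4698) :=
  link hF hO c4698 (by decide +kernel) (by decide +kernel)

include hF hO in
theorem m4702 : Kill2 (Tab.reps 4702) (Tab.E2 4702) :=
  link hF hO c4702 (by decide +kernel) (by decide +kernel)

include hF hO in
theorem m4708 : Kill2 (Tab.reps 4708) (Tab.E2 4708) :=
  link hF hO c4708 (by decide +kernel) (by decide +kernel)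

include hF hO in
theorem m4710 : Kill2 (Tab.reps 4710) (Tab.E2 4710) :=
  link hF hO c4710 (by decide +kernel) (by decide +kernel)

include hF hO in
theorem m4711 : Kill2 (Tab.reps 4711) (Tab.E2 4711) :=
  link hF hO c4711 (by decide +kernel) (by decide +kernel)

include hF hO in
theorem m4712 : Kill2 (Tab.reps 4712) (Tab.E2 4712) :=
  link hF hO c4712 (by decide +kernel) (by decide +kernel)

include hF hO in
theorem m4713 : Kill2 (Tab.reps 4713) (Tab.E2 4713) :=
  link hF hO c4713 (by decide +kernel) (by decide +kernel)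

include hF hO in
theorem m4714 : Kill2 (Tab.reps 4714) (Tab.E2 4714) :=
  link hF hO c4714 (by decide +kernel) (by decide +kernel)

include hF hO in
theorem m4716 : Kill2 (Tab.reps 4716) (Tab.E2 4716) :=
  link hF hO c4716 (by decide +kernel) (by decide +kernel)

include hF hO in
theorem m4721 : Kill2 (Tab.reps 4721) (Tab.E2 4721) :=
  link hF hO c4721 (by decide +kernel) (by decide +kernel)

include hF hO in
theorem m4722 : Kill2 (Tab.reps 4722) (Tab.E2 4722) :=
  link hF hO c4722 (by decide +kernel) (by decide +kernel)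

include hF hO in
theorem m4727 : Kill2 (Tab.reps 4727) (Tab.E2 4727) :=
  link hF hO c4727 (by decide +kernel) (by decide +kernel)

include hF hO in
theorem m4728 : Kill2 (Tab.reps 4728) (Tab.E2 4728) :=
  link hF hO c4728 (by decide +kernel) (by decide +kernel)

include hF hO in
theorem m4730 : Kill2 (Tab.reps 4730) (Tab.E2 4730) :=
  link hF hO c4730 (by decide +kernel) (by decide +kernel)

include hF hO in
theorem m4734 : Kill2 (Tab.reps 4734) (Tab.E2 4734) :=
  link hF hO c4734 (by decide +kernel) (by decide +kernel)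

include hF hO in
theorem m4735 : Kill2 (Tab.reps 4735) (Tab.E2 4735) :=
  link hF hO c4735 (by decide +kernel) (by decide +kernel)

include hF hO in
theorem m4736 : Kill2 (Tab.reps 4736) (Tab.E2 4736) :=
  link hF hO c4736 (by decide +kernel) (by decide +kernel)

include hF hO in
theorem m4738 : Kill2 (Tab.reps 4738) (Tab.E2 4738) :=
  link hF hO c4738 (by decide +kernel) (by decide +kernel)

include hF hO in
theorem m4740 : Kill2 (Tab.reps 4740) (Tab.E2 4740) :=
  link hF hO c4740 (by decide +kernel) (by decide +kernel)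

include hF hO in
theorem m4741 : Kill2 (Tab.reps 4741) (Tab.E2 4741) :=
  link hF hO c4741 (by decide +kernel) (by decide +kernel)

include hF hO in
theorem m4742 : Kill2 (Tab.reps 4742) (Tab.E2 4742) :=
  link hF hO c4742 (by decide +kernel) (by decide +kernel)

include hF hO in
theorem m4743 : Kill2 (Tab.reps 4743) (Tab.E2 4743) :=
  link hF hO c4743 (by decide +kernel) (by decide +kernel)

include hF hO in
theorem m4744 : Kill2 (Tab.reps 4744) (Tab.E2 4744) :=
  link hF hO c4744 (by decide +kernel) (by decide +kernel)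

include hF hO in
theorem m4745 : Kill2 (Tab.reps 4745) (Tab.E2 4745) :=
  link hF hO c4745 (by decide +kernel) (by decide +kernel)

include hF hO in
theorem m4746 : Kill2 (Tab.reps 4746) (Tab.E2 4746) :=
  link hF hO c4746 (by decide +kernel) (by decide +kernel)

include hF hO in
theorem m4747 : Kill2 (Tab.reps 4747) (Tab.E2 4747) :=
  link hF hO c4747 (by decide +kernel) (by decide +kernel)

include hF hO in
theorem m4748 : Kill2 (Tab.reps 4748) (Tab.E2 4748) :=
  link hF hO c4748 (by decide +kernel) (by decide +kernel)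

include hF hO in
theorem m4751 : Kill2 (Tab.reps 4751) (Tab.E2 4751) :=
  link hF hO c4751 (by decide +kernel) (by decide +kernel)

include hF hO in
theorem m4752 : Kill2 (Tab.reps 4752) (Tab.E2 4752) :=
  link hF hO c4752 (by decide +kernel) (by decide +kernel)

include hF hO in
theorem m4753 : Kill2 (Tab.reps 4753) (Tab.E2 4753) :=
  link hF hO c4753 (by decide +kernel) (by decide +kernel)

include hF hO in
theorem m4754 : Kill2 (Tab.reps 4754) (Tab.E2 4754) :=
  link hF hO c4754 (by decide +kernel) (by decide +kernel)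

include hF hO in
theorem m4755 : Kill2 (Tab.reps 4755) (Tab.E2 4755) :=
  link hF hO c4755 (by decide +kernel) (by decide +kernel)

include hF hO in
theorem m4756 : Kill2 (Tab.reps 4756) (Tab.E2 4756) :=
  link hF hO c4756 (by decide +kernel) (by decide +kernel)

include hF hO in
theorem m4757 : Kill2 (Tab.reps 4757) (Tab.E2 4757) :=
  link hF hO c4757 (by decide +kernel) (by decide +kernel)

include hF hO in
theorem m4758 : Kill2 (Tab.reps 4758) (Tab.E2 4758) :=
  link hF hO c4758 (by decide +kernel) (by decide +kernel)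

include hF hO in
theorem m4759 : Kill2 (Tab.reps 4759) (Tab.E2 4759) :=
  link hF hO c4759 (by decide +kernel) (by decide +kernel)

include hF hO in
theorem m4760 : Kill2 (Tab.reps 4760) (Tab.E2 4760) :=
  link hF hO c4760 (by decide +kernel) (by decide +kernel)

include hF hO in
theorem m4761 : Kill2 (Tab.reps 4761) (Tab.E2 4761) :=
  link hF hO c4761 (by decide +kernel) (by decide +kernel)

include hF hO in
theorem m4762 : Kill2 (Tab.reps 4762) (Tab.E2 4762) :=
  link hF hO c4762 (by decide +kernel) (by decide +kernel)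

include hF hO in
theorem m4764 : Kill2 (Tab.reps 4764) (Tab.E2 4764) :=
  link hF hO c4764 (by decide +kernel) (by decide +kernel)

include hF hO in
theorem m4766 : Kill2 (Tab.reps 4766) (Tab.E2 4766) :=
  link hF hO c4766 (by decide +kernel) (by decide +kernel)

include hF hO in
theorem m4768 : Kill2 (Tab.reps 4768) (Tab.E2 4768) :=
  link hF hO c4768 (by decide +kernel) (by decide +kernel)

include hF hO in
theorem m4770 : Kill2 (Tab.reps 4770) (Tab.E2 4770) :=
  link hF hO c4770 (by decide +kernel) (by decide +kernel)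

include hF hO in
theorem m4771 : Kill2 (Tab.reps 4771) (Tab.E2 4771) :=
  link hF hO c4771 (by decide +kernel) (by decide +kernel)

include hF hO in
theorem m4772 : Kill2 (Tab.reps 4772) (Tab.E2 4772) :=
  link hF hO c4772 (by decide +kernel) (by decide +kernel)

include hF hO in
theorem m4774 : Kill2 (Tab.reps 4774) (Tab.E2 4774) :=
  link hF hO c4774 (by decide +kernel) (by decide +kernel)

include hF hO in
theorem m4775 : Kill2 (Tab.reps 4775) (Tab.E2 4775) :=
  link hF hO c4775 (by decide +kernel) (by decide +kernel)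

include hF hO in
theorem m4776 : Kill2 (Tab.reps 4776) (Tab.E2 4776) :=
  link hF hO c4776 (by decide +kernel) (by decide +kernel)

include hF hO in
theorem m4777 : Kill2 (Tab.reps 4777) (Tab.E2 4777) :=
  link hF hO c4777 (by decide +kernel) (by decide +kernel)

include hF hO in
theorem m4778 : Kill2 (Tab.reps 4778) (Tab.E2 4778) :=
  link hF hO c4778 (by decide +kernel) (by decide +kernel)

include hF hO in
theorem m4779 : Kill2 (Tab.reps 4779) (Tab.E2 4779) :=
  link hF hO c4779 (by decide +kernel) (by decide +kernel)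

include hF hO in
theorem m4781 : Kill2 (Tab.reps 4781) (Tab.E2 4781) :=
  link hF hO c4781 (by decide +kernel) (by decide +kernel)

include hF hO in
theorem m4782 : Kill2 (Tab.reps 4782) (Tab.E2 4782) :=
  link hF hO c4782 (by decide +kernel) (by decide +kernel)

include hF hO in
theorem m4783 : Kill2 (Tab.reps 4783) (Tab.E2 4783) :=
  link hF hO c4783 (by decide +kernel) (by decide +kernel)

include hF hO in
theorem m4784 : Kill2 (Tab.reps 4784) (Tab.E2 4784) :=
  link hF hO c4784 (by decide +kernel) (by decide +kernel)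

include hF hO in
theorem m4785 : Kill2 (Tab.reps 4785) (Tab.E2 4785) :=
  link hF hO c4785 (by decide +kernel) (by decide +kernel)

include hF hO in
theorem m4786 : Kill2 (Tab.reps 4786) (Tab.E2 4786) :=
  link hF hO c4786 (by decide +kernel) (by decide +kernel)

include hF hO in
theorem m4787 : Kill2 (Tab.reps 4787) (Tab.E2 4787) :=
  link hF hO c4787 (by decide +kernel) (by decide +kernel)

include hF hO in
theorem m4788 : Kill2 (Tab.reps 4788) (Tab.E2 4788) :=
  link hF hO c4788 (by decide +kernel) (by decide +kernel)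

include hF hO in
theorem m4789 : Kill2 (Tab.reps 4789) (Tab.E2 4789) :=
  link hF hO c4789 (by decide +kernel) (by decide +kernel)

include hF hO in
theorem m4790 : Kill2 (Tab.reps 4790) (Tab.E2 4790) :=
  link hF hO c4790 (by decide +kernel) (by decide +kernel)

include hF hO in
theorem m4791 : Kill2 (Tab.reps 4791) (Tab.E2 4791) :=
  link hF hO c4791 (by decide +kernel) (by decide +kernel)

end

/-- the ranks with a nonempty list -/
def KS : List ℕ :=
  [0, 22, 30, 86, 113, 121, 123, 143, 147, 184, 190, 191, 209, 220, 232, 237, 240, 251, 272, 287,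
  310, 362, 395, 398, 435, 461, 482, 530, 549, 623, 667, 671, 683, 687, 691, 747, 757, 767, 768,
  781, 795, 802, 804, 805, 810, 831, 841, 845, 848, 861, 901, 932, 948, 957, 960, 963, 967, 984,
  985, 990, 1004, 1006, 1037, 1072, 1073, 1074, 1120, 1130, 1147, 1150, 1190, 1218, 1228, 1232,
  1253, 1256, 1259, 1263, 1285, 1286, 1317, 1329, 1349, 1361, 1394, 1395, 1402, 1403, 1408,
  1421, 1442, 1450, 1463, 1548, 1559, 1575, 1598, 1605, 1607, 1609, 1642, 1710, 1711, 1712,
  1716, 1717, 1718, 1732, 1733, 1736, 1747, 1752, 1758, 1776, 1785, 1799, 1800, 1801, 1810,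
  1829, 1846, 1886, 1928, 1931, 1932, 1937, 1962, 1984, 2015, 2048, 2054, 2108, 2127, 2145,
  2147, 2174, 2175, 2176, 2177, 2178, 2180, 2184, 2207, 2266, 2279, 2290, 2304, 2305, 2306,
  2311, 2313, 2314, 2315, 2316, 2317, 2319, 2320, 2325, 2334, 2382, 2385, 2395, 2429, 2472,
  2488, 2498, 2506, 2517, 2520, 2521, 2523, 2525, 2526, 2529, 2530, 2546, 2551, 2566, 2588,
  2615, 2624, 2647, 2670, 2688, 2695, 2716, 2744, 2747, 2794, 2822, 2824, 2825, 2843, 2850,
  2860, 2864, 2868, 2879, 2890, 2891, 2898, 2909, 2916, 2941, 2949, 2952, 2968, 3000, 3017,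
  3022, 3053, 3074, 3076, 3083, 3088, 3112, 3122, 3124, 3126, 3133, 3134, 3158, 3161, 3167,
  3182, 3188, 3190, 3276, 3292, 3295, 3316, 3393, 3395, 3410, 3419, 3428, 3443, 3446, 3478,
  3480, 3481, 3482, 3483, 3493, 3503, 3506, 3519, 3523, 3525, 3526, 3534, 3598, 3599, 3602,
  3609, 3637, 3638, 3662, 3683, 3684, 3685, 3702, 3703, 3719, 3721, 3739, 3798, 3800, 3810,
  3815, 3818, 3827, 3829, 3833, 3834, 3845, 3859, 3875, 3901, 3909, 3918, 3925, 3928, 3933,
  3941, 3943, 3967, 3968, 3969, 3992, 3996, 4006, 4009, 4014, 4047, 4048, 4070, 4077, 4092,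
  4099, 4104, 4112, 4113, 4127, 4130, 4138, 4139, 4146, 4153, 4154, 4155, 4163, 4168, 4174,
  4201, 4207, 4213, 4214, 4216, 4224, 4245, 4269, 4270, 4295, 4301, 4302, 4303, 4318, 4323,
  4325, 4327, 4331, 4332, 4347, 4366, 4373, 4381, 4407, 4408, 4411, 4414, 4415, 4416, 4417,
  4421, 4422, 4423, 4424, 4429, 4431, 4432, 4433, 4441, 4447, 4448, 4449, 4451, 4452, 4453,
  4456, 4459, 4465, 4469, 4471, 4473, 4474, 4475, 4476, 4488, 4497, 4499, 4501, 4502, 4505,
  4507, 4508, 4516, 4519, 4521, 4522, 4523, 4524, 4526, 4527, 4528, 4529, 4530, 4531, 4532,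
  4534, 4543, 4546, 4547, 4548, 4551, 4552, 4554, 4558, 4559, 4560, 4562, 4563, 4564, 4565,
  4566, 4573, 4574, 4575, 4576, 4581, 4582, 4585, 4586, 4588, 4590, 4591, 4592, 4595, 4598,
  4599, 4604, 4605, 4607, 4608, 4609, 4613, 4615, 4622, 4624, 4625, 4627, 4629, 4631, 4632,
  4634, 4636, 4639, 4640, 4641, 4647, 4650, 4651, 4654, 4655, 4659, 4660, 4661, 4662, 4665,
  4666, 4669, 4670, 4671, 4672, 4673, 4674, 4676, 4677, 4681, 4683, 4684, 4685, 4688, 4689,
  4691, 4693, 4695, 4697, 4698, 4702, 4708, 4710, 4711, 4712, 4713, 4714, 4716, 4721, 4722,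
  4727, 4728, 4730, 4734, 4735, 4736, 4738, 4740, 4741, 4742, 4743, 4744, 4745, 4746, 4747,
  4748, 4751, 4752, 4753, 4754, 4755, 4756, 4757, 4758, 4759, 4760, 4761, 4762, 4764, 4766,
  4768, 4770, 4771, 4772, 4774, 4775, 4776, 4777, 4778, 4779, 4781, 4782, 4783, 4784, 4785,
  4786, 4787, 4788, 4789, 4790, 4791]

/-- the mask of a list -/
def msk : List ℕ → ℕ
  | [] => 0
  | a :: L => (1 <<< a) ||| msk L

theorem msk_spec : ∀ (L : List ℕ) (k : ℕ), (msk L).testBit k = true → k ∈ L
  | [], k, h => by simp [msk] at h
  | a :: L, k, h => by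
    rw [msk, Nat.testBit_or, Bool.or_eq_true] at h
    rcases h with h | h
    · rw [Nat.one_shiftLeft, Nat.testBit_two_pow, decide_eq_true_eq] at h
      rw [h]
      exact List.mem_cons_self
    · exact List.mem_cons_of_mem _ (msk_spec L k h)

/-- the mask of `KS` -/
def KM : ℕ := 0xffefdd57ff9ff5c58617d046ab3a37e678cc8395ab40a3b0c9d661e07dc59c805fde901a6a01001ea2093b8203a1e3c980000020204000080018a84000e080000060000020000101608200000041080e040c048003010810002040000180000000424011000003800000a02120402020000008000800200628048401400000000000000800028000c0003800004000006000000204c0000000000000004068800480200f400000004800100804000a00000000000000000010000090001000000000000000000000504000824000006054010000010814000020000000420001000000010001202000001020040c0080111004080003400000040000000000090000001000008100004000008000010080000010000040008400066b20040401000100000000002000000008024000000000004021be8700040080040000000000000080000117c000000a000080001000000000000041000000008000000100000400000219000000000040000000004000200004038002010000410801300071c0000000000000000400000002a04000008000801000000000000000000000800404000020010c0c000000020020000200200000006000008920000110040000004000000000480004010000000000070000000020000000500043000089201000100000002000000000200122008000043408002001802008000000000000088800880000000000800000000000000000200004000000000004000020000008000000004800000004000000000000400000800100000801210010020000c1000000000880000a020000004000000000000040400001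

theorem KM_eq : KM = msk KS := by decide +kernel

theorem E2_aux : allN (fun k => (Tab.E2 k).isEmpty || Nat.testBit KM k) 4792 = true := by
  decide +kernel

theorem mem_KS {k : ℕ} (hk : k < Tab.nr) (h : Tab.E2 k ≠ []) : k ∈ KS := by
  have h1 := allN_spec E2_aux k hk
  simp only [Bool.or_eq_true, List.isEmpty_iff] at h1
  rcases h1 with h1 | h1
  · exact absurd h1 h
  · rw [KM_eq] at h1
    exact msk_spec KS k h1

/-- all members of the list have the property -/
def AllK (P : ℕ → Prop) : List ℕ → Prop
  | [] => True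
  | k :: L => P k ∧ AllK P L

theorem AllK.mem {P : ℕ → Prop} : ∀ (L : List ℕ), AllK P L → ∀ k ∈ L, P k
  | [], _, k, h => by simp at h
  | a :: L, h, k, hk => by
    rcases List.mem_cons.1 hk with rfl | h1
    · exact h.1
    · exact AllK.mem L h.2 k h1

/-- **level 8 in case (ii)** -/
theorem kill2_all (hF : ∀ F, L7.TabF F Tab.T5 Tab.E6 Tab.T4 Tab.E5) (hO : ∀ O ∈ OsL, Dead9 O) :
    ∀ k, k < Tab.nr → Tab.E2 k ≠ [] → Kill2 (Tab.reps k) (Tab.E2 k) := by
  have h : AllK (fun k => Kill2 (Tab.reps k) (Tab.E2 k)) KS :=
    ⟨m0 hF hO, m22 hF hO, m30 hF hO, m86 hF hO, m113 hF hO, m121 hF hO, m123 hF hO, m143 hF hO,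
      m147 hF hO, m184 hF hO, m190 hF hO, m191 hF hO, m209 hF hO, m220 hF hO, m232 hF hO,
      m237 hF hO, m240 hF hO, m251 hF hO, m272 hF hO, m287 hF hO, m310 hF hO, m362 hF hO,
      m395 hF hO, m398 hF hO, m435 hF hO, m461 hF hO, m482 hF hO, m530 hF hO, m549 hF hO,
      m623 hF hO, m667 hF hO, m671 hF hO, m683 hF hO, m687 hF hO, m691 hF hO, m747 hF hO,
      m757 hF hO, m767 hF hO, m768 hF hO, m781 hF hO, m795 hF hO, m802 hF hO, m804 hF hO,
      m805 hF hO, m810 hF hO, m831 hF hO, m841 hF hO, m845 hF hO, m848 hF hO, m861 hF hO,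
      m901 hF hO, m932 hF hO, m948 hF hO, m957 hF hO, m960 hF hO, m963 hF hO, m967 hF hO,
      m984 hF hO, m985 hF hO, m990 hF hO, m1004 hF hO, m1006 hF hO, m1037 hF hO, m1072 hF hO,
      m1073 hF hO, m1074 hF hO, m1120 hF hO, m1130 hF hO, m1147 hF hO, m1150 hF hO, m1190 hF hO,
      m1218 hF hO, m1228 hF hO, m1232 hF hO, m1253 hF hO, m1256 hF hO, m1259 hF hO, m1263 hF hO,
      m1285 hF hO, m1286 hF hO, m1317 hF hO, m1329 hF hO, m1349 hF hO, m1361 hF hO, m1394 hF hO,
      m1395 hF hO, m1402 hF hO, m1403 hF hO, m1408 hF hO, m1421 hF hO, m1442 hF hO, m1450 hF hO,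
      m1463 hF hO, m1548 hF hO, m1559 hF hO, m1575 hF hO, m1598 hF hO, m1605 hF hO, m1607 hF hO,
      m1609 hF hO, m1642 hF hO, m1710 hF hO, m1711 hF hO, m1712 hF hO, m1716 hF hO, m1717 hF hO,
      m1718 hF hO, m1732 hF hO, m1733 hF hO, m1736 hF hO, m1747 hF hO, m1752 hF hO, m1758 hF hO,
      m1776 hF hO, m1785 hF hO, m1799 hF hO, m1800 hF hO, m1801 hF hO, m1810 hF hO, m1829 hF hO,
      m1846 hF hO, m1886 hF hO, m1928 hF hO, m1931 hF hO, m1932 hF hO, m1937 hF hO, m1962 hF hO,
      m1984 hF hO, m2015 hF hO, m2048 hF hO, m2054 hF hO, m2108 hF hO, m2127 hF hO, m2145 hF hO,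
      m2147 hF hO, m2174 hF hO, m2175 hF hO, m2176 hF hO, m2177 hF hO, m2178 hF hO, m2180 hF hO,
      m2184 hF hO, m2207 hF hO, m2266 hF hO, m2279 hF hO, m2290 hF hO, m2304 hF hO, m2305 hF hO,
      m2306 hF hO, m2311 hF hO, m2313 hF hO, m2314 hF hO, m2315 hF hO, m2316 hF hO, m2317 hF hO,
      m2319 hF hO, m2320 hF hO, m2325 hF hO, m2334 hF hO, m2382 hF hO, m2385 hF hO, m2395 hF hO,
      m2429 hF hO, m2472 hF hO, m2488 hF hO, m2498 hF hO, m2506 hF hO, m2517 hF hO, m2520 hF hO,
      m2521 hF hO, m2523 hF hO, m2525 hF hO, m2526 hF hO, m2529 hF hO, m2530 hF hO, m2546 hF hO,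
      m2551 hF hO, m2566 hF hO, m2588 hF hO, m2615 hF hO, m2624 hF hO, m2647 hF hO, m2670 hF hO,
      m2688 hF hO, m2695 hF hO, m2716 hF hO, m2744 hF hO, m2747 hF hO, m2794 hF hO, m2822 hF hO,
      m2824 hF hO, m2825 hF hO, m2843 hF hO, m2850 hF hO, m2860 hF hO, m2864 hF hO, m2868 hF hO,
      m2879 hF hO, m2890 hF hO, m2891 hF hO, m2898 hF hO, m2909 hF hO, m2916 hF hO, m2941 hF hO,
      m2949 hF hO, m2952 hF hO, m2968 hF hO, m3000 hF hO, m3017 hF hO, m3022 hF hO, m3053 hF hO,
      m3074 hF hO, m3076 hF hO, m3083 hF hO, m3088 hF hO, m3112 hF hO, m3122 hF hO, m3124 hF hO,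
      m3126 hF hO, m3133 hF hO, m3134 hF hO, m3158 hF hO, m3161 hF hO, m3167 hF hO, m3182 hF hO,
      m3188 hF hO, m3190 hF hO, m3276 hF hO, m3292 hF hO, m3295 hF hO, m3316 hF hO, m3393 hF hO,
      m3395 hF hO, m3410 hF hO, m3419 hF hO, m3428 hF hO, m3443 hF hO, m3446 hF hO, m3478 hF hO,
      m3480 hF hO, m3481 hF hO, m3482 hF hO, m3483 hF hO, m3493 hF hO, m3503 hF hO, m3506 hF hO,
      m3519 hF hO, m3523 hF hO, m3525 hF hO, m3526 hF hO, m3534 hF hO, m3598 hF hO, m3599 hF hO,
      m3602 hF hO, m3609 hF hO, m3637 hF hO, m3638 hF hO, m3662 hF hO, m3683 hF hO, m3684 hF hO,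
      m3685 hF hO, m3702 hF hO, m3703 hF hO, m3719 hF hO, m3721 hF hO, m3739 hF hO, m3798 hF hO,
      m3800 hF hO, m3810 hF hO, m3815 hF hO, m3818 hF hO, m3827 hF hO, m3829 hF hO, m3833 hF hO,
      m3834 hF hO, m3845 hF hO, m3859 hF hO, m3875 hF hO, m3901 hF hO, m3909 hF hO, m3918 hF hO,
      m3925 hF hO, m3928 hF hO, m3933 hF hO, m3941 hF hO, m3943 hF hO, m3967 hF hO, m3968 hF hO,
      m3969 hF hO, m3992 hF hO, m3996 hF hO, m4006 hF hO, m4009 hF hO, m4014 hF hO, m4047 hF hO,
      m4048 hF hO, m4070 hF hO, m4077 hF hO, m4092 hF hO, m4099 hF hO, m4104 hF hO, m4112 hF hO,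
      m4113 hF hO, m4127 hF hO, m4130 hF hO, m4138 hF hO, m4139 hF hO, m4146 hF hO, m4153 hF hO,
      m4154 hF hO, m4155 hF hO, m4163 hF hO, m4168 hF hO, m4174 hF hO, m4201 hF hO, m4207 hF hO,
      m4213 hF hO, m4214 hF hO, m4216 hF hO, m4224 hF hO, m4245 hF hO, m4269 hF hO, m4270 hF hO,
      m4295 hF hO, m4301 hF hO, m4302 hF hO, m4303 hF hO, m4318 hF hO, m4323 hF hO, m4325 hF hO,
      m4327 hF hO, m4331 hF hO, m4332 hF hO, m4347 hF hO, m4366 hF hO, m4373 hF hO, m4381 hF hO,
      m4407 hF hO, m4408 hF hO, m4411 hF hO, m4414 hF hO, m4415 hF hO, m4416 hF hO, m4417 hF hO,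
      m4421 hF hO, m4422 hF hO, m4423 hF hO, m4424 hF hO, m4429 hF hO, m4431 hF hO, m4432 hF hO,
      m4433 hF hO, m4441 hF hO, m4447 hF hO, m4448 hF hO, m4449 hF hO, m4451 hF hO, m4452 hF hO,
      m4453 hF hO, m4456 hF hO, m4459 hF hO, m4465 hF hO, m4469 hF hO, m4471 hF hO, m4473 hF hO,
      m4474 hF hO, m4475 hF hO, m4476 hF hO, m4488 hF hO, m4497 hF hO, m4499 hF hO, m4501 hF hO,
      m4502 hF hO, m4505 hF hO, m4507 hF hO, m4508 hF hO, m4516 hF hO, m4519 hF hO, m4521 hF hO,
      m4522 hF hO, m4523 hF hO, m4524 hF hO, m4526 hF hO, m4527 hF hO, m4528 hF hO, m4529 hF hO,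
      m4530 hF hO, m4531 hF hO, m4532 hF hO, m4534 hF hO, m4543 hF hO, m4546 hF hO, m4547 hF hO,
      m4548 hF hO, m4551 hF hO, m4552 hF hO, m4554 hF hO, m4558 hF hO, m4559 hF hO, m4560 hF hO,
      m4562 hF hO, m4563 hF hO, m4564 hF hO, m4565 hF hO, m4566 hF hO, m4573 hF hO, m4574 hF hO,
      m4575 hF hO, m4576 hF hO, m4581 hF hO, m4582 hF hO, m4585 hF hO, m4586 hF hO, m4588 hF hO,
      m4590 hF hO, m4591 hF hO, m4592 hF hO, m4595 hF hO, m4598 hF hO, m4599 hF hO, m4604 hF hO,
      m4605 hF hO, m4607 hF hO, m4608 hF hO, m4609 hF hO, m4613 hF hO, m4615 hF hO, m4622 hF hO,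
      m4624 hF hO, m4625 hF hO, m4627 hF hO, m4629 hF hO, m4631 hF hO, m4632 hF hO, m4634 hF hO,
      m4636 hF hO, m4639 hF hO, m4640 hF hO, m4641 hF hO, m4647 hF hO, m4650 hF hO, m4651 hF hO,
      m4654 hF hO, m4655 hF hO, m4659 hF hO, m4660 hF hO, m4661 hF hO, m4662 hF hO, m4665 hF hO,
      m4666 hF hO, m4669 hF hO, m4670 hF hO, m4671 hF hO, m4672 hF hO, m4673 hF hO, m4674 hF hO,
      m4676 hF hO, m4677 hF hO, m4681 hF hO, m4683 hF hO, m4684 hF hO, m4685 hF hO, m4688 hF hO,
      m4689 hF hO, m4691 hF hO, m4693 hF hO, m4695 hF hO, m4697 hF hO, m4698 hF hO, m4702 hF hO,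
      m4708 hF hO, m4710 hF hO, m4711 hF hO, m4712 hF hO, m4713 hF hO, m4714 hF hO, m4716 hF hO,
      m4721 hF hO, m4722 hF hO, m4727 hF hO, m4728 hF hO, m4730 hF hO, m4734 hF hO, m4735 hF hO,
      m4736 hF hO, m4738 hF hO, m4740 hF hO, m4741 hF hO, m4742 hF hO, m4743 hF hO, m4744 hF hO,
      m4745 hF hO, m4746 hF hO, m4747 hF hO, m4748 hF hO, m4751 hF hO, m4752 hF hO, m4753 hF hO,
      m4754 hF hO, m4755 hF hO, m4756 hF hO, m4757 hF hO, m4758 hF hO, m4759 hF hO, m4760 hF hO,
      m4761 hF hO, m4762 hF hO, m4764 hF hO, m4766 hF hO, m4768 hF hO, m4770 hF hO, m4771 hF hO,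
      m4772 hF hO, m4774 hF hO, m4775 hF hO, m4776 hF hO, m4777 hF hO, m4778 hF hO, m4779 hF hO,
      m4781 hF hO, m4782 hF hO, m4783 hF hO, m4784 hF hO, m4785 hF hO, m4786 hF hO, m4787 hF hO,
      m4788 hF hO, m4789 hF hO, m4790 hF hO, m4791 hF hO, trivial⟩
  exact fun k hk hE => AllK.mem KS h k (mem_KS hk hE)

end D8

end CR
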