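import Pool.Agent.Lib.MP_6f5d36_co.D8.Base

/-!
# MP_6f5d36_co : level 8 in case (ii), search trees (generated)
-/

set_option autoImplicit false
set_option linter.all false
set_option maxRecDepth 100000

namespace CR

namespace D8

theorem c0 : ck 0x1014c8688000 [83793, 116043, 142026, 146073] [
  .apx 1 5 3 6 7, .spl, .t6 0x762310 915, .t6 0x762310 915, .apx 5 7 0 4 6, .apx 5 6 1 4 7,
  .t6 0x762310 915, .t6 0x762310 915, .t6 0x762310 915, .t6 0x762310 915, .spl, .t6 0x762310 915,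
  .t6 0x762310 915, .t6 0x762310 915, .t6 0x762310 915, .apx 4 7 0 5 6, .t6 0x762310 915,
  .pt 0x76543210 0o543210 0, .pt 0x76543210 0o543210 0, .spl, .t6 0x762310 915, .t6 0x762310 915,
  .t6 0x762310 915, .t6 0x762310 915, .apx 4 7 1 5 6, .t6 0x762310 915, .t6 0x762310 915,
  .t6 0x762310 915, .apx 0 5 3 6 7, .spl, .t6 0x762301 915, .t6 0x762301 915, .t6 0x762301 915,
  .t6 0x762301 915, .apx 4 7 0 5 6, .t6 0x762301 915, .t6 0x762301 915, .t6 0x762301 915, .spl,
  .t6 0x762301 915, .t6 0x762301 915, .t6 0x762301 915, .t6 0x762301 915, .apx 4 7 1 5 6,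
  .t6 0x762301 915, .pt 0x67452310 0o542310 0, .pt 0x67452310 0o542310 0, .apx 0 4 2 6 7, .spl,
  .t6 0x762301 915, .t6 0x762301 915, .apx 4 7 1 5 6, .apx 4 6 0 5 7, .t6 0x762301 915,
  .t6 0x762301 915, .t6 0x762301 915, .t6 0x762301 915, .apx 1 4 2 6 7] = true := by
  decide +kernel

theorem c22 : ck 0x2585b251000 [46313, 105025] [
  .deg 0 4 5 6 7, .siz 9, .siz 9] = true := by
  decide +kernel

theorem c30 : ck 0xc314811a040 [21010] [
  .siz 9] = true := by
  decide +kernel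

theorem c86 : ck 0xab88245a040 [14866] [
  .siz 9] = true := by
  decide +kernel

theorem c113 : ck 0x854425a040 [102940] [
  .siz 8] = true := by
  decide +kernel

theorem c121 : ck 0x55b1b451240 [82258] [
  .siz 9] = true := by
  decide +kernel

theorem c123 : ck 0xac762688000 [113308] [
  .deg 1 4 5 6 7] = true := by
  decide +kernel

theorem c143 : ck 0x14a8e24d1040 [170763] [
  .deg 0 4 5 6 7] = true := by
  decide +kernel

theorem c147 : ck 0x11b4425a040 [12810] [
  .siz 9] = true := by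
  decide +kernel

theorem c184 : ck 0xacaea8d1040 [174163] [
  .deg 0 4 5 6 7] = true := by
  decide +kernel

theorem c190 : ck 0x4a5c25a040 [67843] [
  .siz 9] = true := by
  decide +kernel

theorem c191 : ck 0x6c323651040 [176676] [
  .deg 4 1 2 6 7] = true := by
  decide +kernel

theorem c209 : ck 0x14c45a251040 [118873] [
  .siz 9] = true := by
  decide +kernel

theorem c220 : ck 0x624ec2d1040 [184995] [
  .deg 0 4 5 6 7] = true := by
  decide +kernel

theorem c232 : ck 0x68b0a45a040 [20809] [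
  .siz 8] = true := by
  decide +kernel

theorem c237 : ck 0x14874911a040 [49481] [
  .siz 9] = true := by
  decide +kernel

theorem c240 : ck 0x91b6311a040 [522] [
  .siz 9] = true := by
  decide +kernel

theorem c251 : ck 0x14c8da251040 [49241] [
  .siz 9] = true := by
  decide +kernel

theorem c272 : ck 0x14914425a040 [135708] [
  .siz 9] = true := by
  decide +kernel

theorem c287 : ck 0x1250e4651000 [107019, 119307] [
  .deg 2 0 1 6 7, .deg 2 0 1 6 7, .deg 2 0 1 6 7] = true := by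
  decide +kernel

theorem c310 : ck 0x14a8ec2d1040 [170131] [
  .deg 0 4 5 6 7] = true := by
  decide +kernel

theorem c362 : ck 0x4d6e3651040 [69732] [
  .siz 9] = true := by
  decide +kernel

theorem c395 : ck 0x10a16225a040 [42201] [
  .apx 0 5 1 6 7] = true := by
  decide +kernel

theorem c398 : ck 0x1ca4425a040 [45578] [
  .siz 9] = true := by
  decide +kernel

theorem c435 : ck 0x16c91a091040 [33445] [
  .deg 2 3 4 6 7] = true := by
  decide +kernel

theorem c461 : ck 0x11034c65a040 [107587] [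
  .siz 6] = true := by
  decide +kernel

theorem c482 : ck 0x2cae2688000 [109219, 178844] [
  .deg 4 0 2 6 7, .spl, .t6 0x762301 1135, .t6 0x762301 1135, .apx 4 7 1 2 6, .t6 0x762301 1135,
  .siz 5, .apx 5 6 0 3 7, .t6 0x710264 639, .t6 0x710264 639, .deg 5 1 3 6 7] = true := by
  decide +kernel

theorem c530 : ck 0x15c713651240 [149059] [
  .deg 5 0 2 6 7] = true := by
  decide +kernel

theorem c549 : ck 0xaa89b489000 [111850] [
  .siz 9] = true := by
  decide +kernel

theorem c623 : ck 0xbb20688000 [146076] [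
  .apx 1 4 2 6 7] = true := by
  decide +kernel

theorem c667 : ck 0xaa8e14d1040 [88875] [
  .deg 0 4 5 6 7] = true := by
  decide +kernel

theorem c671 : ck 0x16cae14d1040 [76451] [
  .deg 0 4 5 6 7] = true := by
  decide +kernel

theorem c683 : ck 0x5871265a040 [98821, 176835] [
  .siz 9, .siz 8, .siz 9] = true := by
  decide +kernel

theorem c687 : ck 0xea918091240 [147731] [
  .deg 5 0 1 6 7] = true := by
  decide +kernel

theorem c691 : ck 0x2972311a040 [66058] [
  .siz 9] = true := by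
  decide +kernel

theorem c747 : ck 0x214d80d1040 [109101, 186178] [
  .deg 2 0 4 6 7, .spl, .siz 9, .t6 0x723106 575, .apx 0 6 2 5 7, .t6 0x723106 575,
  .t6 0x751306 1151, .deg 6 0 1 3 7, .pt 0x67543210 0o543210 1, .pt 0x67543210 0o543210 1,
  .deg 1 0 4 6 7] = true := by
  decide +kernel

theorem c757 : ck 0x10d2a225a040 [107737] [
  .siz 7] = true := by
  decide +kernel

theorem c767 : ck 0x6caa4651240 [172376] [
  .deg 0 1 2 6 7] = true := by
  decide +kernel

theorem c768 : ck 0xdd70425a040 [55633] [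
  .apx 2 4 1 6 7] = true := by
  decide +kernel

theorem c781 : ck 0x10571a250240 [21322] [
  .deg 1 2 4 6 7] = true := by
  decide +kernel

theorem c795 : ck 0x4d5200d1040 [176674] [
  .deg 2 0 4 6 7] = true := by
  decide +kernel

theorem c802 : ck 0xad51311a240 [6786] [
  .deg 1 0 4 6 7] = true := by
  decide +kernel

theorem c804 : ck 0x23b22688000 [76451, 146076] [
  .deg 4 0 2 6 7, .spl, .t6 0x762301 1135, .t6 0x762301 1135, .deg 6 2 4 5 7, .siz 6,
  .t6 0x762301 1135, .t6 0x762301 1135, .t6 0x710264 639, .t6 0x710264 639, .deg 5 0 3 6 7] = true := by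
  decide +kernel

theorem c805 : ck 0xac2da049000 [148233] [
  .siz 9] = true := by
  decide +kernel

theorem c810 : ck 0x1442a3089000 [172554] [
  .deg 0 4 5 6 7] = true := by
  decide +kernel

theorem c831 : ck 0x1528d4689200 [185556] [
  .deg 3 4 5 6 7] = true := by
  decide +kernel

theorem c841 : ck 0x23363651040 [4196] [
  .siz 8] = true := by
  decide +kernel

theorem c845 : ck 0x15a1080d1040 [276] [
  .siz 9] = true := by
  decide +kernel

theorem c848 : ck 0xab1a091040 [51565] [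
  .apx 0 2 4 6 7] = true := by
  decide +kernel

theorem c861 : ck 0x1626d94d1040 [55106] [
  .siz 5] = true := by
  decide +kernel

theorem c901 : ck 0x6a113651240 [43728] [
  .deg 0 1 2 6 7] = true := by
  decide +kernel

theorem c932 : ck 0x14c0d8451000 [49866] [
  .siz 9] = true := by
  decide +kernel

theorem c948 : ck 0x6a119091040 [4372] [
  .siz 9] = true := by
  decide +kernel

theorem c957 : ck 0x8aae1691040 [38765] [
  .apx 1 2 0 6 7] = true := by
  decide +kernel

theorem c960 : ck 0xbb21688000 [146076] [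
  .apx 6 7 0 1 2] = true := by
  decide +kernel

theorem c963 : ck 0x1c10245a040 [5468, 33901] [
  .deg 5 1 4 6 7, .spl, .siz 9, .t6 0x762130 1097, .t6 0x762130 1097, .apx 1 7 2 3 6,
  .t6 0x762130 1097, .apx 1 6 3 5 7, .t6 0x716205 913, .t6 0x716205 913, .deg 4 3 5 6 7] = true := by
  decide +kernel

theorem c967 : ck 0x217618d1040 [5769] [
  .siz 9] = true := by
  decide +kernel

theorem c984 : ck 0x2094425a040 [49809] [
  .siz 9] = true := by
  decide +kernel

theorem c985 : ck 0x52b0245a040 [1124] [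
  .deg 3 1 5 6 7] = true := by
  decide +kernel

theorem c990 : ck 0x6949c65a240 [176810] [
  .deg 4 1 3 6 7] = true := by
  decide +kernel

theorem c1004 : ck 0xd763448000 [41619, 103769, 185675] [
  .deg 3 2 5 6 7, .spl, .t6 0x762301 610, .apx 5 7 1 2 6, .deg 6 1 2 4 7, .t6 0x762301 610,
  .t6 0x703641 975, .t6 0x762301 610, .pt 0x67543210 0o543210 2, .pt 0x67543210 0o543210 2, .spl,
  .t6 0x762301 610, .t6 0x762301 610, .deg 6 1 2 4 7, .siz 5, .t6 0x762301 610, .deg 7 2 4 5 6,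
  .t6 0x762301 610, .t6 0x762301 610, .apx 6 7 0 1 2, .spl, .t6 0x762310 915, .t6 0x762310 915,
  .t6 0x762310 915, .siz 6, .t6 0x762310 915, .deg 7 2 4 5 6, .t6 0x762310 915, .t6 0x762310 915,
  .deg 5 0 2 6 7] = true := by
  decide +kernel

theorem c1006 : ck 0x14189a049000 [170257] [
  .apx 0 4 1 6 7] = true := by
  decide +kernel

theorem c1037 : ck 0x288e20d1040 [131283] [
  .siz 9] = true := by
  decide +kernel

theorem c1072 : ck 0x29719448000 [104601] [
  .deg 4 0 2 6 7] = true := by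
  decide +kernel

theorem c1073 : ck 0x8763448000 [103769] [
  .apx 1 5 2 6 7] = true := by
  decide +kernel

theorem c1074 : ck 0x14c711688000 [111897, 140555] [
  .deg 1 4 5 6 7, .siz 5, .deg 4 0 3 6 7] = true := by
  decide +kernel

theorem c1120 : ck 0x113b2c2d1040 [186397] [
  .apx 0 4 5 6 7] = true := by
  decide +kernel

theorem c1130 : ck 0x14449b451240 [70949] [
  .deg 5 0 1 6 7] = true := by
  decide +kernel

theorem c1147 : ck 0x4c12c45a040 [104029] [
  .deg 4 0 5 6 7] = true := by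
  decide +kernel

theorem c1150 : ck 0x12828c05a040 [43843] [
  .deg 1 0 4 6 7] = true := by
  decide +kernel

theorem c1190 : ck 0x15ae3448000 [70745, 107347, 185178] [
  .apx 0 2 1 6 7, .spl, .t6 0x763210 600, .deg 6 0 2 4 7, .apx 5 7 0 2 6, .siz 6,
  .t6 0x713640 975, .t6 0x763210 600, .pt 0x76543210 0o543210 4, .pt 0x76543210 0o543210 4, .spl,
  .t6 0x763210 600, .deg 6 0 2 4 7, .t6 0x763210 600, .siz 5, .t6 0x763210 600, .deg 7 2 4 5 6,
  .t6 0x763210 600, .t6 0x763210 600, .apx 6 7 0 1 2, .spl, .t6 0x762301 871, .siz 5,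
  .t6 0x762301 871, .t6 0x762301 871, .t6 0x762301 871, .deg 7 2 4 5 6, .t6 0x762301 871,
  .t6 0x762301 871, .deg 5 1 2 6 7] = true := by
  decide +kernel

theorem c1218 : ck 0x15db12651000 [37089] [
  .apx 6 7 0 1 2] = true := by
  decide +kernel

theorem c1228 : ck 0x118108691040 [54099] [
  .deg 3 1 4 6 7] = true := by
  decide +kernel

theorem c1232 : ck 0x5db61691040 [41643] [
  .apx 6 7 0 1 2] = true := by
  decide +kernel

theorem c1253 : ck 0xc66c05a040 [174659] [
  .deg 1 0 4 6 7] = true := by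
  decide +kernel

theorem c1256 : ck 0xeb44425a040 [2819] [
  .siz 9] = true := by
  decide +kernel

theorem c1259 : ck 0x52b1c25a040 [86569] [
  .deg 5 2 3 6 7] = true := by
  decide +kernel

theorem c1263 : ck 0x1d30345a040 [8899] [
  .siz 9] = true := by
  decide +kernel

theorem c1285 : ck 0x68554651240 [35338] [
  .siz 9] = true := by
  decide +kernel

theorem c1286 : ck 0x113b08651040 [21355] [
  .deg 3 1 4 6 7] = true := by
  decide +kernel

theorem c1317 : ck 0xeb512651000 [22082, 119498] [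
  .deg 1 0 2 6 7, .spl, .t6 0x736021 640, .siz 6, .t6 0x736021 640, .t6 0x736021 640,
  .t6 0x736021 640, .t6 0x736021 640, .t6 0x736021 640, .t6 0x736021 640, .deg 5 2 4 6 7] = true := by
  decide +kernel

theorem c1329 : ck 0x24744691200 [18196] [
  .siz 9] = true := by
  decide +kernel

theorem c1349 : ck 0x1494425a040 [173315] [
  .deg 2 4 5 6 7] = true := by
  decide +kernel

theorem c1361 : ck 0x16028b05a040 [152233] [
  .apx 0 3 4 6 7] = true := by
  decide +kernel

theorem c1394 : ck 0x49b0225a040 [79370] [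
  .deg 1 2 4 6 7] = true := by
  decide +kernel

theorem c1395 : ck 0x14210225a040 [4826, 99845] [
  .deg 4 0 1 6 7, .siz 9, .siz 9] = true := by
  decide +kernel

theorem c1402 : ck 0x18b19450240 [78404, 177417] [
  .deg 1 0 3 6 7, .spl, .t6 0x726031 613, .siz 9, .apx 3 6 1 4 7, .t6 0x726031 613,
  .t6 0x726031 613, .t6 0x726031 613, .t6 0x726031 613, .t6 0x726031 613, .deg 0 3 4 6 7] = true := by
  decide +kernel

theorem c1403 : ck 0xe8b21650240 [176907] [
  .deg 4 1 5 6 7] = true := by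
  decide +kernel

theorem c1408 : ck 0x1590425a040 [141571] [
  .siz 9] = true := by
  decide +kernel

theorem c1421 : ck 0xac4db489000 [177378] [
  .deg 4 2 3 6 7] = true := by
  decide +kernel

theorem c1442 : ck 0x10cae46d1000 [41674, 140866] [
  .deg 3 1 5 6 7, .siz 5, .deg 1 0 2 6 7] = true := by
  decide +kernel

theorem c1450 : ck 0x2971a251040 [6763] [
  .siz 9] = true := by
  decide +kernel

theorem c1463 : ck 0xab91a251040 [39011] [
  .siz 9] = true := by
  decide +kernel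

theorem c1548 : ck 0x1a9518d1040 [6372] [
  .deg 1 4 5 6 7] = true := by
  decide +kernel

theorem c1559 : ck 0xa99086d1040 [39137] [
  .siz 9] = true := by
  decide +kernel

theorem c1575 : ck 0x1086e32d1040 [169833] [
  .apx 1 2 0 6 7] = true := by
  decide +kernel

theorem c1598 : ck 0x1a9618d1040 [4633, 180313] [
  .siz 9, .spl, .siz 8, .siz 9, .t6 0x763210 613, .apx 1 7 2 4 6, .t6 0x763210 613,
  .t6 0x763210 613, .t6 0x763210 613, .t6 0x763210 613, .deg 2 1 4 6 7] = true := by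
  decide +kernel

theorem c1605 : ck 0x13ae3450240 [43693] [
  .apx 0 3 1 6 7] = true := by
  decide +kernel

theorem c1607 : ck 0x168703650240 [120331] [
  .siz 9] = true := by
  decide +kernel

theorem c1609 : ck 0x163519450240 [5850] [
  .deg 4 0 2 6 7] = true := by
  decide +kernel

theorem c1642 : ck 0x12b31a049000 [21321] [
  .siz 9] = true := by
  decide +kernel

theorem c1710 : ck 0x5d70345a040 [107203] [
  .siz 9] = true := by
  decide +kernel

theorem c1711 : ck 0x16094425a040 [53260] [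
  .siz 9] = true := by
  decide +kernel

theorem c1712 : ck 0xca88345a040 [20501, 136389, 166418] [
  .siz 9, .spl, .siz 9, .apx 4 6 1 3 7, .apx 1 7 3 5 6, .t6 0x761230 878, .t6 0x761230 878,
  .apx 0 6 2 3 7, .t6 0x761230 878, .t6 0x761230 878, .siz 9, .deg 2 3 4 6 7, .spl,
  .t6 0x762310 722, .t6 0x762310 722, .apx 0 6 1 4 7, .t6 0x762310 722, .t6 0x762310 722,
  .t6 0x762310 722, .t6 0x762310 722, .t6 0x762310 722, .siz 8] = true := by
  decide +kernel

theorem c1716 : ck 0x111a4c05a040 [46877] [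
  .deg 5 0 2 6 7] = true := by
  decide +kernel

theorem c1717 : ck 0xdc74c05a040 [50281] [
  .siz 9] = true := by
  decide +kernel

theorem c1718 : ck 0x5c76c45a040 [115017] [
  .deg 5 1 3 6 7] = true := by
  decide +kernel

theorem c1732 : ck 0x14530485a040 [133154] [
  .siz 9] = true := by
  decide +kernel

theorem c1733 : ck 0x28aa1651240 [149185] [
  .deg 0 3 4 6 7] = true := by
  decide +kernel

theorem c1736 : ck 0x552e3091040 [86362] [
  .apx 6 7 0 1 2] = true := by
  decide +kernel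

theorem c1747 : ck 0x16544425a040 [46940] [
  .apx 1 3 0 6 7] = true := by
  decide +kernel

theorem c1752 : ck 0x12a74425a040 [47626] [
  .deg 1 2 4 6 7] = true := by
  decide +kernel

theorem c1758 : ck 0x88b5c45a040 [177901] [
  .siz 8] = true := by
  decide +kernel

theorem c1776 : ck 0x16394c05a040 [169803] [
  .deg 4 0 3 6 7] = true := by
  decide +kernel

theorem c1785 : ck 0x19546d1240 [4700] [
  .siz 9] = true := by
  decide +kernel

theorem c1799 : ck 0x163519448000 [75859, 137306] [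
  .deg 1 4 5 6 7, .deg 2 3 4 6 7, .deg 2 3 4 6 7] = true := by
  decide +kernel

theorem c1800 : ck 0x16b522688000 [166565] [
  .deg 5 3 4 6 7] = true := by
  decide +kernel

theorem c1801 : ck 0x956a3289000 [13001] [
  .siz 9] = true := by
  decide +kernel

theorem c1810 : ck 0x164718451000 [79426, 82634] [
  .deg 1 0 2 6 7, .spl, .t6 0x736021 640, .t6 0x736021 640, .t6 0x736021 640, .t6 0x736021 640,
  .siz 5, .t6 0x736021 640, .t6 0x736021 640, .t6 0x736021 640, .apx 1 3 0 6 7] = true := by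
  decide +kernel

theorem c1829 : ck 0xea74c691200 [166605] [
  .deg 5 0 3 6 7] = true := by
  decide +kernel

theorem c1846 : ck 0x1ab08651040 [6763] [
  .deg 4 0 3 6 7] = true := by
  decide +kernel

theorem c1886 : ck 0x1632e149a240 [106708, 149504] [
  .deg 1 3 4 6 7, .spl, .deg 7 0 1 2 6, .siz 5, .t6 0x710632 925, .t6 0x710632 925,
  .deg 7 3 4 5 6, .t6 0x710632 925, .t6 0x710632 925, .t6 0x710632 925, .siz 8] = true := by
  decide +kernel

theorem c1928 : ck 0x659540d1240 [182340] [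
  .siz 9] = true := by
  decide +kernel

theorem c1931 : ck 0x12b961691240 [43076, 83468] [
  .deg 2 1 4 6 7, .spl, .t6 0x763210 632, .t6 0x763210 632, .t6 0x763210 632, .t6 0x763210 632,
  .apx 0 6 1 4 7, .t6 0x763210 632, .t6 0x763210 632, .t6 0x763210 632, .deg 1 2 3 6 7] = true := by
  decide +kernel

theorem c1932 : ck 0xe8561691240 [169497] [
  .deg 2 0 5 6 7] = true := by
  decide +kernel

theorem c1937 : ck 0xb763448000 [103769] [
  .deg 5 1 2 6 7] = true := by
  decide +kernel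

theorem c1962 : ck 0x81ae3051000 [72537] [
  .apx 0 4 1 6 7] = true := by
  decide +kernel

theorem c1984 : ck 0x1058d84d1040 [1283] [
  .siz 9] = true := by
  decide +kernel

theorem c2015 : ck 0x1c4ca249000 [1229, 80660, 109195] [
  .siz 9, .spl, .apx 5 7 1 2 6, .t6 0x763210 884, .t6 0x763210 884, .apx 4 6 1 5 7,
  .t6 0x763210 884, .t6 0x763210 884, .t6 0x721564 816, .t6 0x721564 816, .deg 1 3 4 6 7,
  .apx 0 2 1 6 7, .spl, .t6 0x763120 826, .t6 0x763120 826, .t6 0x763120 826, .apx 4 7 1 2 6,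
  .t6 0x763120 826, .apx 3 7 1 5 6, .t6 0x746102 797, .t6 0x746102 797, .deg 1 3 4 6 7] = true := by
  decide +kernel

theorem c2048 : ck 0x28b2211a040 [32781] [
  .siz 9] = true := by
  decide +kernel

theorem c2054 : ck 0x618c8651040 [1701, 181449] [
  .apx 6 7 0 1 2, .spl, .t6 0x763210 1112, .siz 9, .apx 2 7 1 3 6, .t6 0x763210 1112,
  .t6 0x763210 1112, .t6 0x763210 1112, .t6 0x740651 973, .t6 0x740651 973, .siz 9] = true := by
  decide +kernel

theorem c2108 : ck 0x1650a0651040 [178260] [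
  .deg 3 4 5 6 7] = true := by
  decide +kernel

theorem c2127 : ck 0xad6a3489000 [1890] [
  .deg 0 4 5 6 7] = true := by
  decide +kernel

theorem c2145 : ck 0x15a311650240 [23237] [
  .deg 1 0 3 6 7] = true := by
  decide +kernel

theorem c2147 : ck 0x1626d84d1240 [178729] [
  .deg 2 0 4 6 7] = true := by
  decide +kernel

theorem c2174 : ck 0x15210345a040 [49348] [
  .siz 9] = true := by
  decide +kernel

theorem c2175 : ck 0x5972c6d1040 [43145] [
  .siz 9] = true := by
  decide +kernel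

theorem c2176 : ck 0xa3b184d1240 [5642] [
  .deg 1 2 3 6 7] = true := by
  decide +kernel

theorem c2177 : ck 0x54aa0651040 [170530] [
  .deg 2 0 4 6 7] = true := by
  decide +kernel

theorem c2178 : ck 0x16a320651040 [72226] [
  .deg 2 0 4 6 7] = true := by
  decide +kernel

theorem c2180 : ck 0x5976c45a040 [103172, 115020] [
  .deg 4 0 5 6 7, .deg 5 1 3 6 7, .deg 5 1 3 6 7] = true := by
  decide +kernel

theorem c2184 : ck 0x5570345a040 [176658] [
  .deg 1 3 4 6 7] = true := by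
  decide +kernel

theorem c2207 : ck 0x11d718451000 [43091, 46658] [
  .apx 1 4 2 6 7, .spl, .t6 0x763120 819, .t6 0x764102 639, .siz 6, .t6 0x763120 819,
  .t6 0x763120 819, .t6 0x763120 819, .t6 0x763120 819, .t6 0x763120 819, .deg 1 0 2 6 7] = true := by
  decide +kernel

theorem c2266 : ck 0xac7600d1040 [112162] [
  .deg 2 0 4 6 7] = true := by
  decide +kernel

theorem c2279 : ck 0xe0459251000 [145474] [
  .deg 1 0 2 6 7] = true := by
  decide +kernel

theorem c2290 : ck 0x9952c0d1000 [75793, 111777] [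
  .siz 9, .spl, .t6 0x736012 640, .t6 0x736012 640, .siz 9, .apx 5 6 1 4 7, .apx 1 6 2 5 7,
  .t6 0x736012 640, .t6 0x736012 640, .t6 0x736012 640, .apx 2 3 0 6 7] = true := by
  decide +kernel

theorem c2304 : ck 0x56e3091040 [67620, 82115] [
  .siz 9, .siz 9, .siz 9] = true := by
  decide +kernel

theorem c2305 : ck 0x2888345a040 [35523, 45586] [
  .siz 9, .siz 9, .deg 1 3 4 6 7] = true := by
  decide +kernel

theorem c2306 : ck 0x618da251040 [2141, 43748, 147545] [
  .deg 2 1 5 6 7, .spl, .t6 0x763210 1064, .siz 9, .t6 0x763210 1064, .t6 0x763210 1064,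
  .t6 0x763210 1064, .t6 0x763210 1064, .t6 0x701652 777, .t6 0x701652 777, .siz 9,
  .deg 5 2 4 6 7, .siz 9, .siz 9] = true := by
  decide +kernel

theorem c2311 : ck 0x2c0c425a040 [15057] [
  .deg 5 1 4 6 7] = true := by
  decide +kernel

theorem c2313 : ck 0x34e20d1040 [20996, 39490, 133667, 178780] [
  .siz 9, .siz 9, .siz 9, .siz 9, .siz 8, .siz 9, .spl, .t6 0x763210 620, .deg 6 2 4 5 7,
  .t6 0x763210 620, .t6 0x763210 620, .t6 0x763210 620, .t6 0x763210 620, .t6 0x720461 633,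
  .t6 0x720461 633, .siz 9, .spl, .siz 9, .t6 0x763210 1079, .t6 0x763210 1079,
  .t6 0x763210 1079, .t6 0x763210 1079, .apx 5 6 0 4 7, .t6 0x712460 962, .t6 0x712460 962,
  .apx 6 7 0 1 2] = true := by
  decide +kernel

theorem c2314 : ck 0x10165a251040 [54051, 115537, 137315] [
  .siz 9, .siz 9, .siz 9, .siz 9, .siz 9, .siz 9] = true := by
  decide +kernel

theorem c2315 : ck 0xec521651240 [39178] [
  .siz 9] = true := by
  decide +kernel

theorem c2316 : ck 0xdd31265a040 [12995] [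
  .siz 9] = true := by
  decide +kernel

theorem c2317 : ck 0x10c8c8651040 [21733, 50377] [
  .apx 0 4 2 6 7, .spl, .t6 0x762310 1112, .siz 9, .apx 3 7 1 5 6, .apx 2 7 1 3 6,
  .t6 0x762310 1112, .t6 0x762310 1112, .pt 0x67543210 0o543210 7, .pt 0x67543210 0o543210 7,
  .siz 9] = true := by
  decide +kernel

theorem c2319 : ck 0x1618a309a240 [50020, 135812] [
  .siz 9, .spl, .t6 0x763210 1126, .siz 8, .t6 0x763210 1126, .t6 0x763210 1126, .siz 9,
  .t6 0x754016 821, .t6 0x702651 742, .t6 0x702651 742, .deg 1 0 4 6 7] = true := by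
  decide +kernel

theorem c2320 : ck 0x2551a250240 [7018] [
  .deg 4 0 1 6 7] = true := by
  decide +kernel

theorem c2325 : ck 0x19b184d1240 [80425] [
  .deg 2 0 4 6 7] = true := by
  decide +kernel

theorem c2334 : ck 0xe97220d1040 [164051] [
  .apx 3 4 2 6 7] = true := by
  decide +kernel

theorem c2382 : ck 0xa98e02d1040 [180500] [
  .apx 0 4 2 6 7] = true := by
  decide +kernel

theorem c2385 : ck 0x14d7184d1040 [78028, 99587] [
  .deg 1 2 3 6 7, .spl, .t6 0x762310 700, .t6 0x762310 700, .apx 3 6 1 4 7, .apx 0 6 3 4 7,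
  .t6 0x762310 700, .t6 0x762310 700, .t6 0x762310 700, .t6 0x762310 700, .apx 6 7 0 1 2] = true := by
  decide +kernel

theorem c2395 : ck 0x20aa345a040 [8297] [
  .siz 9] = true := by
  decide +kernel

theorem c2429 : ck 0x16910485a040 [153859] [
  .siz 9] = true := by
  decide +kernel

theorem c2472 : ck 0x575011a040 [10501, 139301] [
  .siz 9, .siz 9, .siz 9] = true := by
  decide +kernel

theorem c2488 : ck 0x1288a305a040 [180900] [
  .siz 9] = true := by
  decide +kernel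

theorem c2498 : ck 0x10572c2d1040 [153253] [
  .deg 5 0 4 6 7] = true := by
  decide +kernel

theorem c2506 : ck 0x14cae429a240 [71259] [
  .siz 8] = true := by
  decide +kernel

theorem c2517 : ck 0x688a0651040 [88716, 169258] [
  .deg 1 2 3 6 7, .spl, .t6 0x763210 838, .t6 0x763210 838, .apx 3 6 1 2 7, .t6 0x764120 1113,
  .siz 5, .t6 0x763210 838, .pt 0x67543210 0o543210 8, .pt 0x67543210 0o543210 8, .deg 4 0 5 6 7] = true := by
  decide +kernel

theorem c2520 : ck 0xa86a325a040 [168595] [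
  .deg 4 0 1 6 7] = true := by
  decide +kernel

theorem c2521 : ck 0x1030e3091040 [17235, 65883, 86308] [
  .deg 4 3 5 6 7, .siz 9, .spl, .siz 9, .t6 0x762310 829, .apx 5 6 0 4 7, .t6 0x726401 1187,
  .deg 7 0 1 2 6, .t6 0x762310 829, .t6 0x706135 577, .t6 0x706135 577, .siz 9, .siz 9, .siz 8] = true := by
  decide +kernel

theorem c2523 : ck 0x45080d1040 [22148, 47682, 141323] [
  .siz 9, .siz 9, .siz 9, .siz 9, .siz 9, .siz 9] = true := by
  decide +kernel

theorem c2525 : ck 0x689626d1240 [184332] [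
  .deg 1 2 3 6 7] = true := by
  decide +kernel

theorem c2526 : ck 0x113121651240 [49731, 170275] [
  .siz 9, .siz 9, .siz 9] = true := by
  decide +kernel

theorem c2529 : ck 0xaac445a200 [601] [
  .siz 9] = true := by
  decide +kernel

theorem c2530 : ck 0x2569c689000 [10914] [
  .deg 0 4 5 6 7] = true := by
  decide +kernel

theorem c2546 : ck 0x1634ca249000 [68309] [
  .apx 0 3 4 6 7] = true := by
  decide +kernel

theorem c2551 : ck 0x161698451000 [13890, 112194, 144962, 177730] [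
  .siz 9, .deg 1 0 2 6 7, .deg 1 0 2 6 7, .deg 1 0 2 6 7, .deg 1 0 2 6 7, .deg 1 0 2 6 7,
  .deg 1 0 2 6 7, .deg 1 0 2 6 7, .deg 1 0 2 6 7, .deg 1 0 2 6 7] = true := by
  decide +kernel

theorem c2566 : ck 0x12b960691040 [83460] [
  .deg 2 0 4 6 7] = true := by
  decide +kernel

theorem c2588 : ck 0x154aa3489000 [174762] [
  .siz 9] = true := by
  decide +kernel

theorem c2615 : ck 0x11172c2d1000 [147681] [
  .siz 9] = true := by
  decide +kernel

theorem c2624 : ck 0x163b1d8d1000 [184605] [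
  .siz 9] = true := by
  decide +kernel

theorem c2647 : ck 0x15c304650240 [54339] [
  .deg 1 0 3 6 7] = true := by
  decide +kernel

theorem c2670 : ck 0x917688d1040 [38747] [
  .apx 1 3 0 6 7] = true := by
  decide +kernel

theorem c2688 : ck 0x129b1c25a040 [143707] [
  .deg 5 0 4 6 7] = true := by
  decide +kernel

theorem c2695 : ck 0x2088485a040 [151884, 182804] [
  .siz 8, .siz 8, .siz 8] = true := by
  decide +kernel

theorem c2716 : ck 0x16a8d4689000 [79514] [
  .siz 9] = true := by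
  decide +kernel

theorem c2744 : ck 0x1418a0651040 [178772] [
  .deg 2 1 5 6 7] = true := by
  decide +kernel

theorem c2747 : ck 0x158722650240 [53605] [
  .apx 6 7 0 1 2] = true := by
  decide +kernel

theorem c2794 : ck 0x143304651000 [49930] [
  .siz 9] = true := by
  decide +kernel

theorem c2822 : ck 0x4a4e325a040 [174618] [
  .apx 3 5 1 6 7] = true := by
  decide +kernel

theorem c2824 : ck 0xa50a0651040 [365] [
  .siz 9] = true := by
  decide +kernel

theorem c2825 : ck 0x10532c45a040 [104029] [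
  .apx 1 3 0 6 7] = true := by
  decide +kernel

theorem c2843 : ck 0xeb563489000 [21081] [
  .deg 3 1 2 6 7] = true := by
  decide +kernel

theorem c2850 : ck 0x125544651200 [17162, 21644] [
  .deg 3 0 1 6 7, .spl, .t6 0x720163 639, .apx 3 7 1 2 6, .siz 6, .t6 0x720163 639,
  .t6 0x720163 639, .t6 0x720163 639, .t6 0x720163 639, .t6 0x720163 639, .apx 6 7 0 1 2] = true := by
  decide +kernel

theorem c2860 : ck 0xad0cc05a040 [51722] [
  .apx 6 7 0 1 2] = true := by
  decide +kernel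

theorem c2864 : ck 0x6ba54651000 [18697] [
  .deg 0 4 5 6 7] = true := by
  decide +kernel

theorem c2868 : ck 0x11c35c651000 [46796] [
  .siz 9] = true := by
  decide +kernel

theorem c2879 : ck 0x616a3449200 [39051] [
  .siz 9] = true := by
  decide +kernel

theorem c2890 : ck 0x16970225a040 [79370] [
  .siz 6] = true := by
  decide +kernel

theorem c2891 : ck 0x6a32345a040 [43877, 184418] [
  .deg 5 1 4 6 7, .spl, .t6 0x712306 1115, .t6 0x712306 1115, .t6 0x712306 1115,
  .t6 0x712306 1115, .apx 1 6 4 5 7, .deg 6 0 2 3 7, .t6 0x720615 961, .t6 0x720615 961,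
  .apx 6 7 0 1 2] = true := by
  decide +kernel

theorem c2898 : ck 0x2272d31a040 [139363] [
  .deg 5 0 3 6 7] = true := by
  decide +kernel

theorem c2909 : ck 0x16089c25a040 [166147] [
  .apx 2 3 0 6 7] = true := by
  decide +kernel

theorem c2916 : ck 0x15c453449000 [170009] [
  .deg 0 4 5 6 7] = true := by
  decide +kernel

theorem c2941 : ck 0x15465a049000 [143626, 170257] [
  .apx 6 7 0 1 2, .spl, .t6 0x763210 595, .t6 0x763210 595, .t6 0x763210 595, .apx 4 7 0 5 6,
  .apx 3 6 1 4 7, .t6 0x763210 595, .t6 0x763210 595, .t6 0x763210 595, .deg 0 4 5 6 7] = true := by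
  decide +kernel

theorem c2949 : ck 0xeb893449000 [184899] [
  .deg 1 0 2 6 7] = true := by
  decide +kernel

theorem c2952 : ck 0x1d8e3289000 [777] [
  .siz 9] = true := by
  decide +kernel

theorem c2968 : ck 0x4918451000 [13890] [
  .siz 9] = true := by
  decide +kernel

theorem c3000 : ck 0x62ae1691200 [182122] [
  .apx 1 2 0 6 7] = true := by
  decide +kernel

theorem c3017 : ck 0x14c8d8451000 [49866, 144962] [
  .siz 9, .spl, .t6 0x763120 639, .deg 6 1 3 5 7, .t6 0x763120 639, .apx 2 7 1 5 6,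
  .t6 0x763120 639, .t6 0x763120 639, .t6 0x763120 639, .t6 0x763120 639, .deg 1 0 2 6 7] = true := by
  decide +kernel

theorem c3022 : ck 0x5570245a040 [1796] [
  .siz 9] = true := by
  decide +kernel

theorem c3053 : ck 0x15d7220d2240 [79074] [
  .siz 9] = true := by
  decide +kernel

theorem c3074 : ck 0x64744691200 [18196] [
  .siz 9] = true := by
  decide +kernel

theorem c3076 : ck 0x1608a305a040 [152236] [
  .deg 5 1 3 6 7] = true := by
  decide +kernel

theorem c3083 : ck 0x1442d8451000 [53962] [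
  .siz 9] = true := by
  decide +kernel

theorem c3088 : ck 0x1508a305a040 [86700] [
  .deg 5 0 3 6 7] = true := by
  decide +kernel

theorem c3112 : ck 0x9db2305a040 [17060] [
  .apx 0 4 1 6 7] = true := by
  decide +kernel

theorem c3122 : ck 0x1646d8451000 [79426, 82634, 141395] [
  .deg 1 0 2 6 7, .spl, .t6 0x736021 640, .siz 6, .t6 0x736021 640, .t6 0x736021 640,
  .t6 0x736021 640, .t6 0x736021 640, .t6 0x736021 640, .t6 0x736021 640, .spl, .t6 0x736021 640,
  .t6 0x764102 640, .apx 5 7 0 3 6, .t6 0x736021 640, .t6 0x736021 640, .t6 0x736021 640,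
  .t6 0x736021 640, .t6 0x736021 640, .apx 1 3 0 6 7, .siz 5, .deg 5 2 3 6 7] = true := by
  decide +kernel

theorem c3124 : ck 0x11476c6d1000 [99673] [
  .deg 1 4 5 6 7] = true := by
  decide +kernel

theorem c3126 : ck 0xcd8d8451000 [53962, 177730] [
  .siz 9, .spl, .t6 0x763120 639, .deg 6 1 3 5 7, .t6 0x763120 639, .apx 2 7 1 5 6,
  .t6 0x763120 639, .t6 0x763120 639, .t6 0x763120 639, .t6 0x763120 639, .deg 1 0 2 6 7] = true := by
  decide +kernel

theorem c3133 : ck 0x111adc05a040 [144066] [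
  .deg 1 0 4 6 7] = true := by
  decide +kernel

theorem c3134 : ck 0x6475c05a040 [78530] [
  .deg 1 0 4 6 7] = true := by
  decide +kernel

theorem c3158 : ck 0x15523650240 [35425] [
  .siz 9] = true := by
  decide +kernel

theorem c3161 : ck 0x2a8d9448000 [39002, 108627, 145186] [
  .siz 9, .deg 2 3 4 6 7, .spl, .t6 0x763201 871, .deg 6 2 4 5 7, .siz 5, .t6 0x763201 871,
  .deg 7 1 2 5 6, .t6 0x763201 871, .t6 0x763201 871, .t6 0x763201 871, .deg 2 3 4 6 7, .spl,
  .t6 0x763201 871, .siz 5, .t6 0x763201 871, .apx 4 6 1 2 7, .deg 7 1 2 5 6, .t6 0x713650 975,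
  .pt 0x67543210 0o543210 12, .pt 0x67543210 0o543210 12, .apx 1 2 0 6 7] = true := by
  decide +kernel

theorem c3167 : ck 0xd51c651200 [145052] [
  .deg 4 1 3 6 7] = true := by
  decide +kernel

theorem c3182 : ck 0x2c75211a240 [104643] [
  .deg 1 0 4 6 7] = true := by
  decide +kernel

theorem c3188 : ck 0x908d3449000 [119363] [
  .deg 1 0 2 6 7] = true := by
  decide +kernel

theorem c3190 : ck 0xa22ca249000 [100179, 173889] [
  .apx 0 3 4 6 7, .spl, .t6 0x763120 911, .t6 0x763120 911, .t6 0x763120 911, .deg 6 0 3 5 7,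
  .t6 0x763120 911, .apx 2 7 1 4 6, .t6 0x763120 911, .t6 0x763120 911, .deg 1 0 2 6 7] = true := by
  decide +kernel

theorem c3276 : ck 0x14c6d8451000 [49866, 144962] [
  .siz 9, .spl, .t6 0x763120 639, .deg 6 1 3 5 7, .t6 0x763120 639, .apx 2 7 1 5 6,
  .t6 0x763120 639, .t6 0x763120 639, .t6 0x763120 639, .t6 0x763120 639, .deg 1 0 2 6 7] = true := by
  decide +kernel

theorem c3292 : ck 0xe3b058d1000 [113437] [
  .siz 9] = true := by
  decide +kernel

theorem c3295 : ck 0x14bb1c05a040 [119907] [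
  .apx 6 7 0 1 2] = true := by
  decide +kernel

theorem c3316 : ck 0x14a96189a240 [20584] [
  .deg 0 1 2 6 7] = true := by
  decide +kernel

theorem c3393 : ck 0xebb288d0240 [47256] [
  .deg 0 1 2 6 7] = true := by
  decide +kernel

theorem c3395 : ck 0x11856c0d1240 [135914] [
  .siz 4] = true := by
  decide +kernel

theorem c3410 : ck 0x1456a3091040 [70987] [
  .deg 1 2 3 6 7] = true := by
  decide +kernel

theorem c3419 : ck 0x8d104651000 [169121] [
  .apx 0 4 3 6 7] = true := by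
  decide +kernel

theorem c3428 : ck 0xa354c4d1000 [110818] [
  .apx 4 5 1 6 7] = true := by
  decide +kernel

theorem c3443 : ck 0x1698d20d1000 [51796] [
  .apx 0 4 1 6 7] = true := by
  decide +kernel

theorem c3446 : ck 0x6d96c4d1000 [67650] [
  .deg 1 0 2 6 7] = true := by
  decide +kernel

theorem c3478 : ck 0x16a70425a040 [141571] [
  .apx 2 3 0 6 7] = true := by
  decide +kernel

theorem c3480 : ck 0x88b086d1040 [6889] [
  .apx 0 4 2 6 7] = true := by
  decide +kernel

theorem c3481 : ck 0x892c2d1040 [35625] [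
  .apx 0 5 2 6 7] = true := by
  decide +kernel

theorem c3482 : ck 0x1763651040 [69732] [
  .deg 2 1 5 6 7] = true := by
  decide +kernel

theorem c3483 : ck 0xc8923651040 [170764] [
  .deg 1 2 3 6 7] = true := by
  decide +kernel

theorem c3493 : ck 0x12bb288d0240 [51352] [
  .deg 0 1 2 6 7] = true := by
  decide +kernel

theorem c3503 : ck 0xeb504691200 [50315, 107210] [
  .apx 1 5 4 6 7, .spl, .t6 0x701263 638, .apx 3 6 1 2 7, .t6 0x701263 638, .apx 0 7 3 4 6,
  .apx 4 7 0 5 6, .t6 0x701263 638, .t6 0x701263 638, .t6 0x701263 638, .deg 3 0 1 6 7] = true := by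
  decide +kernel

theorem c3506 : ck 0x163b1d8d1200 [184605] [
  .siz 9] = true := by
  decide +kernel

theorem c3519 : ck 0x14ab2305a040 [87074, 120354, 153634] [
  .apx 6 7 0 1 2, .apx 6 7 0 1 2, .apx 6 7 0 1 2, .apx 6 7 0 1 2, .apx 6 7 0 1 2, .apx 1 3 0 6 7] = true := by
  decide +kernel

theorem c3523 : ck 0x1588a305a040 [119468] [
  .siz 4] = true := by
  decide +kernel

theorem c3525 : ck 0xaaec45a200 [601] [
  .siz 9] = true := by
  decide +kernel

theorem c3526 : ck 0x163304651200 [49930] [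
  .siz 9] = true := by
  decide +kernel

theorem c3534 : ck 0x63b288d0240 [38936, 178251] [
  .deg 0 1 2 6 7, .spl, .t6 0x731620 891, .t6 0x731620 891, .t6 0x731620 891, .apx 1 7 2 5 6,
  .t6 0x714062 640, .apx 5 6 3 4 7, .t6 0x731620 891, .t6 0x731620 891, .apx 0 4 2 6 7] = true := by
  decide +kernel

theorem c3598 : ck 0xe88d20d1000 [170730, 183018] [
  .apx 1 3 0 6 7, .apx 1 3 0 6 7, .apx 1 3 0 6 7] = true := by
  decide +kernel

theorem c3599 : ck 0xd9b120d1000 [54869] [
  .siz 5] = true := by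
  decide +kernel

theorem c3602 : ck 0x256d4651000 [177500] [
  .deg 1 4 5 6 7] = true := by
  decide +kernel

theorem c3609 : ck 0x16c2d8451000 [53962] [
  .siz 9] = true := by
  decide +kernel

theorem c3637 : ck 0x5d7214d1000 [38466, 140817] [
  .siz 9, .spl, .apx 1 7 2 4 6, .deg 6 2 4 5 7, .apx 0 7 2 5 6, .t6 0x746201 639, .apx 5 6 3 4 7,
  .t6 0x736021 640, .t6 0x736021 640, .t6 0x736021 640, .deg 2 0 1 6 7] = true := by
  decide +kernel

theorem c3638 : ck 0xcd32889a240 [75037] [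
  .apx 6 7 0 1 2] = true := by
  decide +kernel

theorem c3662 : ck 0xd47688d1040 [177996] [
  .deg 1 2 3 6 7] = true := by
  decide +kernel

theorem c3683 : ck 0x1482e4651000 [116931, 117059, 178844] [
  .deg 1 0 2 6 7, .deg 1 0 2 6 7, .spl, .t6 0x736201 818, .t6 0x736201 818, .apx 2 6 1 4 7,
  .deg 6 0 2 5 7, .apx 0 6 1 5 7, .t6 0x736201 818, .t6 0x746021 570, .t6 0x746021 570,
  .deg 1 0 2 6 7, .spl, .t6 0x736201 1049, .t6 0x736201 1049, .apx 2 6 1 4 7, .t6 0x736201 1049,
  .apx 0 6 1 5 7, .t6 0x736201 1049, .t6 0x701346 642, .t6 0x701346 642, .apx 3 5 1 6 7] = true := by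
  decide +kernel

theorem c3684 : ck 0x6c7214d1000 [38466, 140817, 148170] [
  .siz 9, .spl, .apx 1 7 2 4 6, .deg 6 2 4 5 7, .apx 0 7 2 5 6, .t6 0x746201 639,
  .t6 0x736021 640, .t6 0x736021 640, .t6 0x736021 640, .t6 0x736021 640, .spl, .t6 0x736021 640,
  .siz 9, .t6 0x736021 640, .apx 2 6 1 4 7, .apx 4 6 2 5 7, .t6 0x736021 640, .t6 0x736021 640,
  .t6 0x736021 640, .deg 2 0 1 6 7, .deg 5 0 2 6 7, .deg 5 0 2 6 7] = true := by
  decide +kernel

theorem c3685 : ck 0x1620c225a040 [135898] [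
  .deg 4 0 1 6 7] = true := by
  decide +kernel

theorem c3702 : ck 0x1518da05a040 [178882] [
  .deg 1 0 4 6 7] = true := by
  decide +kernel

theorem c3703 : ck 0x6d71a05a040 [80578] [
  .deg 1 0 4 6 7] = true := by
  decide +kernel

theorem c3719 : ck 0xed72c651000 [183083] [
  .siz 9] = true := by
  decide +kernel

theorem c3721 : ck 0x12caec651000 [179036] [
  .siz 9] = true := by
  decide +kernel

theorem c3739 : ck 0x1628e0690240 [54928] [
  .deg 0 1 2 6 7] = true := by
  decide +kernel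

theorem c3798 : ck 0xe3b058d1200 [113437] [
  .siz 9] = true := by
  decide +kernel

theorem c3800 : ck 0xec312651200 [132898] [
  .deg 5 0 2 6 7] = true := by
  decide +kernel

theorem c3810 : ck 0xe309a05a040 [71965, 148587] [
  .apx 2 3 0 6 7, .spl, .t6 0x762310 1008, .siz 5, .t6 0x762310 1008, .apx 0 6 4 5 7,
  .t6 0x762310 1008, .t6 0x762310 1008, .pt 0x67543210 0o543210 13, .pt 0x67543210 0o543210 13,
  .apx 4 5 1 6 7] = true := by
  decide +kernel

theorem c3815 : ck 0x8db04651000 [169121, 186434] [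
  .deg 5 1 2 6 7, .deg 5 1 2 6 7, .deg 1 0 2 6 7] = true := by
  decide +kernel

theorem c3818 : ck 0x12474c6d1000 [70346, 83522] [
  .deg 3 1 4 6 7, .siz 5, .deg 1 0 2 6 7] = true := by
  decide +kernel

theorem c3827 : ck 0xbb23490240 [777] [
  .siz 9] = true := by
  decide +kernel

theorem c3829 : ck 0xc763448000 [103769] [
  .apx 6 7 0 1 2] = true := by
  decide +kernel

theorem c3833 : ck 0x6d92c4d1000 [67650, 174676] [
  .deg 1 0 2 6 7, .spl, .apx 4 7 1 3 6, .siz 5, .apx 5 7 0 3 6, .t6 0x736021 640,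
  .t6 0x736021 640, .t6 0x736021 640, .t6 0x736021 640, .t6 0x736021 640, .deg 3 4 5 6 7] = true := by
  decide +kernel

theorem c3834 : ck 0x15c2d8451000 [53962] [
  .siz 9] = true := by
  decide +kernel

theorem c3845 : ck 0xd5724651000 [74251] [
  .deg 2 0 1 6 7] = true := by
  decide +kernel

theorem c3859 : ck 0x5d8c4691200 [10018] [
  .apx 1 2 0 6 7] = true := by
  decide +kernel

theorem c3875 : ck 0xa5112651000 [153708] [
  .deg 5 0 3 6 7] = true := by
  decide +kernel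

theorem c3901 : ck 0xa54e3489000 [165730] [
  .apx 6 7 0 1 2] = true := by
  decide +kernel

theorem c3909 : ck 0x163304651000 [49930] [
  .siz 9] = true := by
  decide +kernel

theorem c3918 : ck 0x15d512651000 [176474] [
  .siz 6] = true := by
  decide +kernel

theorem c3925 : ck 0xea724651000 [184843] [
  .deg 2 0 1 6 7] = true := by
  decide +kernel

theorem c3928 : ck 0x6535c650240 [150217] [
  .siz 9] = true := by
  decide +kernel

theorem c3933 : ck 0xea8c4691200 [79001, 135889] [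
  .siz 9, .spl, .t6 0x710263 638, .deg 7 0 3 4 6, .deg 6 2 3 5 7, .apx 1 7 3 5 6, .apx 5 6 2 4 7,
  .t6 0x710263 638, .t6 0x710263 638, .t6 0x710263 638, .deg 3 0 1 6 7] = true := by
  decide +kernel

theorem c3941 : ck 0x105504651200 [169121, 170346] [
  .deg 0 3 4 6 7, .siz 5, .apx 1 2 0 6 7] = true := by
  decide +kernel

theorem c3943 : ck 0x12d712651200 [184659] [
  .deg 5 2 3 6 7] = true := by
  decide +kernel

theorem c3967 : ck 0x6a8ec689200 [39636] [
  .deg 3 4 5 6 7] = true := by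
  decide +kernel

theorem c3968 : ck 0x1428c4689200 [184532] [
  .deg 3 4 5 6 7] = true := by
  decide +kernel

theorem c3969 : ck 0xcc96069a240 [103440] [
  .deg 0 1 2 6 7] = true := by
  decide +kernel

theorem c3992 : ck 0x12bb058d1200 [149277] [
  .siz 9] = true := by
  decide +kernel

theorem c3996 : ck 0x12a6dc690240 [50772] [
  .deg 4 2 5 6 7] = true := by
  decide +kernel

theorem c4006 : ck 0x45504651200 [169121, 170346] [
  .deg 0 3 4 6 7, .deg 4 0 5 6 7, .deg 4 0 5 6 7] = true := by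
  decide +kernel

theorem c4009 : ck 0x163458451000 [6209, 177730] [
  .siz 9, .deg 1 0 2 6 7, .deg 1 0 2 6 7] = true := by
  decide +kernel

theorem c4014 : ck 0xe2b2149a240 [137291] [
  .siz 9] = true := by
  decide +kernel

theorem c4047 : ck 0xd58cc29a200 [42068] [
  .siz 9] = true := by
  decide +kernel

theorem c4048 : ck 0x114aec689000 [15003] [
  .apx 0 1 2 6 7] = true := by
  decide +kernel

theorem c4070 : ck 0x6b7214d1000 [38466, 140817, 148170] [
  .siz 9, .spl, .apx 1 7 2 4 6, .deg 6 2 4 5 7, .apx 0 7 2 5 6, .t6 0x746201 639,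
  .t6 0x736021 640, .t6 0x736021 640, .t6 0x736021 640, .t6 0x736021 640, .spl, .t6 0x736021 640,
  .siz 9, .t6 0x736021 640, .apx 2 6 1 4 7, .apx 4 6 2 5 7, .t6 0x736021 640, .t6 0x736021 640,
  .t6 0x736021 640, .deg 2 0 1 6 7, .siz 5, .apx 1 3 0 6 7] = true := by
  decide +kernel

theorem c4077 : ck 0x145504651200 [169121, 170346] [
  .deg 0 3 4 6 7, .deg 5 2 4 6 7, .deg 5 2 4 6 7] = true := by
  decide +kernel

theorem c4092 : ck 0x1d8a3489000 [11098, 174419] [
  .deg 0 4 5 6 7, .deg 4 0 1 6 7, .deg 4 0 1 6 7] = true := by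
  decide +kernel

theorem c4099 : ck 0x129504651000 [55362, 181002] [
  .deg 1 0 2 6 7, .spl, .t6 0x736021 640, .t6 0x736021 640, .t6 0x736021 640, .t6 0x736021 640,
  .apx 2 6 1 5 7, .t6 0x736021 640, .t6 0x736021 640, .t6 0x736021 640, .deg 4 2 5 6 7] = true := by
  decide +kernel

theorem c4104 : ck 0x122d585a200 [70313] [
  .siz 9] = true := by
  decide +kernel

theorem c4112 : ck 0x5d8d2651000 [185179] [
  .apx 0 1 2 6 7] = true := by
  decide +kernel

theorem c4113 : ck 0x12c762688000 [113308, 174755] [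
  .deg 1 4 5 6 7, .siz 5, .deg 4 0 2 6 7] = true := by
  decide +kernel

theorem c4127 : ck 0x12b912651000 [84051] [
  .apx 3 4 2 6 7] = true := by
  decide +kernel

theorem c4130 : ck 0xd530969a200 [4747] [
  .siz 9] = true := by
  decide +kernel

theorem c4138 : ck 0x114c65a040 [102549, 173123] [
  .deg 3 0 5 6 7, .spl, .siz 9, .t6 0x762130 842, .apx 1 7 2 3 6, .apx 0 6 3 4 7,
  .t6 0x704126 1174, .apx 0 7 1 5 6, .pt 0x67543210 0o543210 14, .pt 0x67543210 0o543210 14,
  .deg 1 0 5 6 7] = true := by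
  decide +kernel

theorem c4139 : ck 0x10a84b05a040 [182794] [
  .apx 6 7 0 1 2] = true := by
  decide +kernel

theorem c4146 : ck 0x8d904651000 [169121, 186434] [
  .apx 0 4 3 6 7, .spl, .t6 0x763210 639, .apx 2 6 3 5 7, .apx 2 7 1 5 6, .t6 0x712460 975,
  .t6 0x763210 639, .siz 5, .t6 0x765201 866, .t6 0x765201 866, .deg 1 0 2 6 7] = true := by
  decide +kernel

theorem c4153 : ck 0x14552c691240 [186368] [
  .siz 9] = true := by
  decide +kernel

theorem c4154 : ck 0x10c0d2651000 [49866, 69865] [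
  .siz 9, .spl, .apx 3 6 1 5 7, .siz 9, .apx 0 7 3 4 6, .t6 0x765021 836, .t6 0x763120 639,
  .t6 0x763120 639, .t6 0x763120 639, .t6 0x763120 639, .apx 6 7 0 1 2] = true := by
  decide +kernel

theorem c4155 : ck 0x12b712651000 [84051, 149058] [
  .apx 3 4 2 6 7, .spl, .t6 0x763120 819, .siz 5, .t6 0x763120 819, .apx 0 7 1 5 6,
  .t6 0x763120 819, .t6 0x763120 819, .t6 0x763120 819, .t6 0x763120 819, .deg 1 0 2 6 7] = true := by
  decide +kernel

theorem c4163 : ck 0xeb323451000 [67649] [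
  .deg 1 0 2 6 7] = true := by
  decide +kernel

theorem c4168 : ck 0xeb304651000 [49930, 111715] [
  .siz 9, .spl, .t6 0x763120 639, .deg 6 1 3 5 7, .t6 0x763120 639, .deg 7 0 4 5 6,
  .apx 1 6 3 5 7, .t6 0x763120 639, .t6 0x763120 639, .t6 0x763120 639, .siz 9] = true := by
  decide +kernel

theorem c4174 : ck 0xabb288d0240 [43160] [
  .deg 0 1 2 6 7] = true := by
  decide +kernel

theorem c4201 : ck 0xa16a3449200 [75915] [
  .siz 9] = true := by
  decide +kernel

theorem c4207 : ck 0xa42c969a200 [101155, 151836] [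
  .apx 0 5 4 6 7, .apx 0 5 4 6 7, .deg 5 2 3 6 7] = true := by
  decide +kernel

theorem c4213 : ck 0x11435585a200 [147564] [
  .siz 9] = true := by
  decide +kernel

theorem c4214 : ck 0x8968585a200 [45707] [
  .siz 9] = true := by
  decide +kernel

theorem c4216 : ck 0x1b56c651200 [617] [
  .siz 9] = true := by
  decide +kernel

theorem c4224 : ck 0x2b95c49a240 [6340] [
  .deg 2 3 5 6 7] = true := by
  decide +kernel

theorem c4245 : ck 0x4435585a200 [135961] [
  .siz 9] = true := by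
  decide +kernel

theorem c4269 : ck 0x968585a200 [103193] [
  .siz 9] = true := by
  decide +kernel

theorem c4270 : ck 0x1968585a200 [103193] [
  .siz 9] = true := by
  decide +kernel

theorem c4295 : ck 0xc763491040 [78540] [
  .deg 1 2 3 6 7] = true := by
  decide +kernel

theorem c4301 : ck 0x143554651240 [33288] [
  .siz 9] = true := by
  decide +kernel

theorem c4302 : ck 0x15644651000 [169121] [
  .deg 0 4 5 6 7] = true := by
  decide +kernel

theorem c4303 : ck 0x158e469a240 [5824] [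
  .siz 9] = true := by
  decide +kernel

theorem c4318 : ck 0x65ac4651000 [169121] [
  .deg 4 0 5 6 7] = true := by
  decide +kernel

theorem c4323 : ck 0x15968585a200 [99979] [
  .siz 9] = true := by
  decide +kernel

theorem c4325 : ck 0xd4ae98d1200 [133381] [
  .deg 1 0 2 6 7] = true := by
  decide +kernel

theorem c4327 : ck 0x11cacc6d1000 [50329] [
  .deg 4 2 5 6 7] = true := by
  decide +kernel

theorem c4331 : ck 0x1150e069a240 [70672] [
  .siz 9] = true := by
  decide +kernel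

theorem c4332 : ck 0x10c8d2651000 [49866, 69865] [
  .siz 9, .spl, .apx 3 6 1 5 7, .siz 9, .apx 0 7 3 4 6, .t6 0x765012 852, .t6 0x763120 639,
  .t6 0x763120 639, .t6 0x763120 639, .t6 0x763120 639, .apx 6 7 0 1 2] = true := by
  decide +kernel

theorem c4347 : ck 0x44ae3491040 [71244] [
  .siz 9] = true := by
  decide +kernel

theorem c4366 : ck 0x2968585a200 [103193] [
  .siz 9] = true := by
  decide +kernel

theorem c4373 : ck 0x8435585a200 [135961] [
  .siz 9] = true := by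
  decide +kernel

theorem c4381 : ck 0xea16189a240 [49953] [
  .siz 9] = true := by
  decide +kernel

theorem c4407 : ck 0x6bb12651000 [120386, 152419, 173099, 173291, 173419, 186963] [
  .deg 1 0 2 6 7, .spl, .t6 0x736021 640, .t6 0x736021 640, .siz 5, .t6 0x736021 640, .siz 4,
  .apx 2 6 1 5 7, .t6 0x760432 816, .t6 0x760432 816, .spl, .apx 1 7 2 5 6, .siz 5,
  .t6 0x736021 640, .apx 3 7 4 5 6, .t6 0x756021 1062, .t6 0x736021 640, .t6 0x753261 686,
  .t6 0x753261 686, .spl, .t6 0x736021 640, .siz 5, .t6 0x736021 640, .apx 2 6 1 5 7,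
  .t6 0x756021 1062, .t6 0x736021 640, .t6 0x753261 686, .t6 0x753261 686, .spl,
  .t6 0x736021 640, .siz 5, .t6 0x736021 640, .apx 3 7 4 5 6, .t6 0x756021 1062, .deg 7 1 2 5 6,
  .t6 0x753261 686, .t6 0x753261 686, .siz 5, .apx 2 4 3 6 7, .spl, .t6 0x763210 1185,
  .apx 3 7 4 5 6, .t6 0x763210 1185, .t6 0x746201 1154, .siz 4, .apx 2 7 3 4 6, .t6 0x756021 642,
  .t6 0x756021 642, .spl, .t6 0x763210 1185, .apx 3 7 4 5 6, .t6 0x763210 1185, .t6 0x756021 642,
  .siz 4, .apx 2 7 3 4 6, .t6 0x756021 642, .t6 0x756021 642, .spl, .t6 0x763210 1185,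
  .apx 3 7 4 5 6, .t6 0x763210 1185, .t6 0x756021 642, .siz 4, .deg 7 1 2 5 6, .t6 0x756021 642,
  .t6 0x756021 642, .spl, .t6 0x763210 1185, .t6 0x763210 1185, .t6 0x763210 1185,
  .t6 0x763210 1185, .siz 4, .deg 7 3 4 5 6, .t6 0x706324 797, .t6 0x706324 797, .deg 2 0 1 6 7,
  .deg 3 2 4 6 7, .deg 3 2 4 6 7, .deg 5 1 3 6 7, .deg 3 2 4 6 7, .deg 3 2 4 6 7, .deg 5 1 3 6 7,
  .deg 3 2 4 6 7, .deg 5 1 3 6 7, .deg 5 1 3 6 7] = true := by
  decide +kernel

theorem c4408 : ck 0x222d585a200 [70313] [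
  .siz 9] = true := by
  decide +kernel

theorem c4411 : ck 0x14c8e069a240 [103440, 137379] [
  .deg 0 1 2 6 7, .siz 5, .siz 9] = true := by
  decide +kernel

theorem c4414 : ck 0xc1b1585a200 [168617] [
  .siz 9] = true := by
  decide +kernel

theorem c4415 : ck 0x161b12651000 [141636] [
  .deg 1 0 2 6 7] = true := by
  decide +kernel

theorem c4416 : ck 0x12c354651000 [166565] [
  .deg 5 0 3 6 7] = true := by
  decide +kernel

theorem c4417 : ck 0x12c354651200 [166565] [
  .deg 5 0 3 6 7] = true := by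
  decide +kernel

theorem c4421 : ck 0xe94dc2d1000 [168650] [
  .siz 9] = true := by
  decide +kernel

theorem c4422 : ck 0x15a8c4691200 [79001, 135889, 141090] [
  .siz 9, .spl, .t6 0x710263 638, .deg 7 0 3 4 6, .deg 6 2 3 5 7, .apx 1 7 3 5 6,
  .t6 0x710263 638, .t6 0x710263 638, .t6 0x710263 638, .t6 0x710263 638, .spl, .t6 0x703641 642,
  .t6 0x710263 638, .siz 9, .apx 3 6 0 2 7, .deg 7 1 2 5 6, .t6 0x710263 638, .t6 0x710263 638,
  .t6 0x710263 638, .deg 3 0 1 6 7, .spl, .siz 5, .deg 6 0 3 4 7, .t6 0x721063 639,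
  .t6 0x721063 639, .deg 7 1 2 5 6, .t6 0x721063 639, .t6 0x721063 639, .t6 0x721063 639,
  .apx 1 2 0 6 7] = true := by
  decide +kernel

theorem c4423 : ck 0xe94c42d1000 [168650] [
  .siz 9] = true := by
  decide +kernel

theorem c4424 : ck 0x1628c4691200 [79001, 135889, 141090] [
  .siz 9, .spl, .t6 0x710263 638, .deg 7 0 3 4 6, .deg 6 2 3 5 7, .apx 1 7 3 5 6,
  .t6 0x710263 638, .t6 0x710263 638, .t6 0x710263 638, .t6 0x710263 638, .spl, .t6 0x703641 642,
  .t6 0x710263 638, .siz 9, .apx 3 6 0 2 7, .deg 7 1 2 5 6, .t6 0x710263 638, .t6 0x710263 638,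
  .t6 0x710263 638, .deg 3 0 1 6 7, .deg 5 1 3 6 7, .siz 9] = true := by
  decide +kernel

theorem c4429 : ck 0xd5714651000 [166235] [
  .deg 1 4 5 6 7] = true := by
  decide +kernel

theorem c4431 : ck 0xe94ec2d1000 [168650] [
  .siz 9] = true := by
  decide +kernel

theorem c4432 : ck 0x14a8c4691200 [79001, 141090] [
  .siz 9, .spl, .t6 0x703641 642, .t6 0x710263 638, .siz 9, .apx 3 6 0 2 7, .deg 7 1 2 5 6,
  .t6 0x710263 638, .t6 0x710263 638, .t6 0x710263 638, .apx 1 2 0 6 7] = true := by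
  decide +kernel

theorem c4433 : ck 0xa35614d1000 [5698, 9745, 34307, 51483, 108049, 115402, 140817, 143881, 143884, 143885] [
  .deg 1 0 2 6 7, .spl, .siz 9, .t6 0x736021 640, .siz 8, .t6 0x746201 639, .t6 0x736021 640,
  .t6 0x736021 640, .t6 0x736021 640, .t6 0x736021 640, .siz 9, .siz 5, .spl, .apx 1 7 2 4 6,
  .t6 0x736021 640, .t6 0x736021 640, .t6 0x746201 639, .t6 0x736021 640, .t6 0x736021 640,
  .t6 0x736021 640, .t6 0x736021 640, .spl, .t6 0x736021 640, .t6 0x736021 640, .t6 0x736021 640,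
  .siz 6, .t6 0x736021 640, .t6 0x736021 640, .t6 0x736021 640, .t6 0x736021 640, .spl,
  .apx 1 7 2 4 6, .t6 0x736021 640, .t6 0x736021 640, .t6 0x746201 639, .t6 0x736021 640,
  .t6 0x736021 640, .t6 0x736021 640, .t6 0x736021 640, .spl, .apx 1 7 2 3 6, .deg 7 0 1 3 6,
  .apx 0 7 2 4 6, .apx 3 7 1 5 6, .t6 0x756201 891, .t6 0x756201 891, .pt 0x67543210 0o543210 16,
  .pt 0x67543210 0o543210 16, .spl, .apx 1 7 2 3 6, .t6 0x736021 640, .apx 0 7 2 4 6,
  .apx 3 7 1 5 6, .t6 0x736021 640, .t6 0x756201 891, .pt 0x76543210 0o543210 17,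
  .pt 0x76543210 0o543210 17, .spl, .apx 1 7 2 3 6, .t6 0x736021 640, .apx 0 7 2 4 6,
  .apx 3 7 1 5 6, .t6 0x756201 891, .t6 0x736021 640, .pt 0x76543210 0o543210 18,
  .pt 0x76543210 0o543210 18, .siz 8, .siz 9, .spl, .t6 0x736012 640, .siz 5, .apx 4 7 0 3 6,
  .apx 1 6 2 4 7, .deg 7 2 3 4 6, .t6 0x756012 864, .s7 0x7653210 0, .s7 0x7653210 0,
  .deg 1 4 5 6 7, .spl, .t6 0x736012 640, .apx 1 6 2 4 7, .t6 0x736012 640, .apx 3 7 1 4 6,
  .t6 0x730561 1147, .t6 0x746102 639, .t6 0x746102 639, .t6 0x746102 639, .deg 1 4 5 6 7,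
  .deg 2 0 1 6 7, .deg 2 0 1 6 7, .deg 2 0 1 6 7, .siz 9, .spl, .deg 6 1 2 4 7, .t6 0x736012 568,
  .t6 0x736012 568, .apx 0 6 1 2 7, .deg 7 2 3 4 6, .t6 0x736012 568, .t6 0x736012 568,
  .t6 0x736012 568, .deg 2 0 1 6 7, .spl, .deg 6 1 2 4 7, .t6 0x736012 568, .apx 0 6 1 2 7,
  .apx 3 7 1 4 6, .t6 0x740612 568, .t6 0x750612 915, .pt 0x67543210 0o543210 19,
  .pt 0x67543210 0o543210 19, .deg 2 0 1 6 7, .deg 2 0 1 6 7, .deg 2 0 1 6 7, .deg 2 0 1 6 7,
  .deg 3 4 5 6 7, .spl, .t6 0x763210 872, .siz 5, .apx 4 6 0 3 7, .apx 1 7 2 4 6, .deg 6 2 3 4 7,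
  .t6 0x756201 1170, .pt 0x67543210 0o543210 20, .pt 0x67543210 0o543210 20, .spl, .siz 5,
  .t6 0x763210 872, .t6 0x756201 1170, .t6 0x763210 872, .deg 6 2 3 4 7, .t6 0x763210 872,
  .t6 0x763210 872, .t6 0x763210 872, .spl, .t6 0x763210 872, .siz 5, .apx 4 6 0 3 7,
  .apx 1 7 2 4 6, .deg 6 2 3 4 7, .t6 0x756201 1170, .s7 0x7653210 1, .s7 0x7653210 1,
  .apx 0 1 2 6 7, .spl, .t6 0x763210 872, .t6 0x746210 866, .siz 5, .apx 0 7 2 4 6,
  .deg 6 2 3 4 7, .t6 0x763210 872, .t6 0x763210 872, .t6 0x763210 872, .spl, .t6 0x763210 872,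
  .t6 0x763210 872, .siz 5, .apx 0 7 2 4 6, .deg 6 2 3 4 7, .t6 0x746210 866, .s7 0x7653210 2,
  .s7 0x7653210 2, .deg 1 4 5 6 7, .spl, .t6 0x736012 640, .apx 1 6 2 4 7, .t6 0x736012 640,
  .apx 3 7 1 4 6, .t6 0x756310 1066, .t6 0x746102 639, .t6 0x746102 639, .t6 0x746102 639,
  .deg 1 4 5 6 7, .deg 2 0 1 6 7, .deg 2 0 1 6 7, .deg 2 0 1 6 7, .apx 1 3 0 6 7, .spl,
  .t6 0x763120 639, .apx 1 7 2 4 6, .t6 0x763120 639, .apx 3 6 1 4 7, .siz 5, .t6 0x746012 974,
  .t6 0x746012 974, .t6 0x746012 974, .apx 1 3 0 6 7, .siz 5, .apx 1 3 0 6 7, .deg 1 4 5 6 7,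
  .deg 2 0 1 6 7, .deg 2 0 1 6 7, .deg 2 0 1 6 7, .deg 2 0 1 6 7, .deg 2 0 1 6 7, .deg 2 0 1 6 7,
  .deg 2 0 1 6 7, .deg 2 0 1 6 7, .deg 2 0 1 6 7] = true := by
  decide +kernel

theorem c4441 : ck 0x108859451040 [185609] [
  .siz 9] = true := by
  decide +kernel

theorem c4447 : ck 0x6289b451240 [104269, 144170] [
  .siz 9, .spl, .t6 0x702631 741, .siz 9, .t6 0x702631 741, .apx 3 7 4 5 6, .t6 0x702631 741,
  .t6 0x702631 741, .t6 0x701463 962, .t6 0x701463 962, .deg 3 0 1 6 7] = true := by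
  decide +kernel

theorem c4448 : ck 0x11c2e3650240 [12331, 98333] [
  .siz 9, .siz 9, .siz 9] = true := by
  decide +kernel

theorem c4449 : ck 0x657190d1240 [108138] [
  .deg 2 1 4 6 7] = true := by
  decide +kernel

theorem c4451 : ck 0x9366225a040 [49797, 115530] [
  .apx 3 5 2 6 7, .spl, .t6 0x762310 794, .siz 9, .apx 0 6 1 5 7, .t6 0x762310 794,
  .t6 0x762310 794, .t6 0x762310 794, .t6 0x762310 794, .t6 0x762310 794, .deg 1 2 4 6 7] = true := by
  decide +kernel

theorem c4452 : ck 0x10c25a049000 [22733, 142091] [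
  .deg 1 3 5 6 7, .deg 1 3 5 6 7, .deg 1 3 5 6 7] = true := by
  decide +kernel

theorem c4453 : ck 0xd389b489000 [108714, 174867] [
  .siz 9, .siz 9, .deg 4 0 1 6 7] = true := by
  decide +kernel

theorem c4456 : ck 0x10c4c8691040 [54789, 180457] [
  .deg 2 0 4 6 7, .spl, .t6 0x763210 803, .apx 0 6 1 2 7, .t6 0x763210 803, .t6 0x763210 803,
  .t6 0x763210 803, .t6 0x763210 803, .t6 0x763210 803, .t6 0x763210 803, .apx 1 5 3 6 7] = true := by
  decide +kernel

theorem c4459 : ck 0x10d4e3091040 [16579] [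
  .siz 9] = true := by
  decide +kernel

theorem c4465 : ck 0x4871a45a040 [178777] [
  .apx 6 7 0 1 2] = true := by
  decide +kernel

theorem c4469 : ck 0x1518dc05a040 [119532] [
  .apx 6 7 0 1 2] = true := by
  decide +kernel

theorem c4471 : ck 0xe1520651040 [186690] [
  .deg 3 4 5 6 7] = true := by
  decide +kernel

theorem c4473 : ck 0x11b0225a040 [13834, 37594] [
  .siz 9, .spl, .siz 8, .siz 9, .t6 0x762130 634, .apx 2 6 1 3 7, .t6 0x762130 634,
  .t6 0x762130 634, .t6 0x762130 634, .t6 0x762130 634, .siz 9] = true := by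
  decide +kernel

theorem c4474 : ck 0xd80e3091040 [67620] [
  .siz 9] = true := by
  decide +kernel

theorem c4475 : ck 0x14910225a040 [67076, 70362] [
  .siz 9, .apx 1 2 0 6 7, .siz 9] = true := by
  decide +kernel

theorem c4476 : ck 0x108119091040 [4437] [
  .siz 9] = true := by
  decide +kernel

theorem c4488 : ck 0x1044d80d1240 [41293] [
  .deg 1 2 3 6 7] = true := by
  decide +kernel

theorem c4497 : ck 0xd28d4689200 [111828] [
  .siz 9] = true := by
  decide +kernel

theorem c4499 : ck 0x556e3091040 [148179] [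
  .apx 6 7 0 1 2] = true := by
  decide +kernel

theorem c4501 : ck 0xdc50c690240 [54981, 103780] [
  .deg 1 0 3 6 7, .spl, .t6 0x726301 830, .t6 0x726301 830, .t6 0x726301 830, .apx 3 7 4 5 6,
  .t6 0x726301 830, .siz 4, .t6 0x704653 843, .t6 0x704653 843, .deg 5 3 4 6 7] = true := by
  decide +kernel

theorem c4502 : ck 0x457608d0240 [148685, 186017] [
  .deg 4 1 3 6 7, .spl, .t6 0x762301 843, .t6 0x762301 843, .siz 4, .siz 5, .t6 0x762301 843,
  .t6 0x762301 843, .t6 0x705164 868, .t6 0x705164 868, .deg 5 0 2 6 7] = true := by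
  decide +kernel

theorem c4505 : ck 0x10b4e3091040 [136539, 180457] [
  .apx 6 7 0 1 2, .spl, .t6 0x762310 840, .t6 0x762310 840, .t6 0x762310 840, .t6 0x762310 840,
  .apx 5 7 2 4 6, .siz 4, .t6 0x762310 840, .t6 0x762310 840, .deg 2 4 5 6 7] = true := by
  decide +kernel

theorem c4507 : ck 0x1502e3450240 [185920] [
  .deg 0 1 2 6 7] = true := by
  decide +kernel

theorem c4508 : ck 0x8bac4651000 [181002] [
  .deg 3 1 5 6 7] = true := by
  decide +kernel

theorem c4516 : ck 0xb96211a040 [136930] [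
  .deg 2 3 5 6 7] = true := by
  decide +kernel

theorem c4519 : ck 0x1458ec650240 [53444, 185932] [
  .deg 1 0 3 6 7, .deg 4 3 5 6 7, .deg 4 3 5 6 7] = true := by
  decide +kernel

theorem c4521 : ck 0x2a954651200 [183053] [
  .deg 5 0 3 6 7] = true := by
  decide +kernel

theorem c4522 : ck 0x2296c651200 [137569] [
  .siz 9] = true := by
  decide +kernel

theorem c4523 : ck 0x101b1585a200 [148749, 168617] [
  .siz 9, .spl, .t6 0x763201 1195, .deg 7 0 3 4 6, .t6 0x763201 1195, .t6 0x763201 1195,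
  .deg 6 2 4 5 7, .apx 0 7 3 4 6, .t6 0x746102 642, .t6 0x746102 642, .siz 9] = true := by
  decide +kernel

theorem c4524 : ck 0x2a954651000 [183053] [
  .deg 5 0 3 6 7] = true := by
  decide +kernel

theorem c4526 : ck 0x1148d8451000 [49498, 177730] [
  .apx 6 7 0 1 2, .spl, .t6 0x763120 891, .t6 0x763120 891, .t6 0x763120 891, .t6 0x763120 891,
  .t6 0x763120 891, .t6 0x763120 891, .t6 0x763120 891, .t6 0x763120 891, .deg 1 0 2 6 7] = true := by
  decide +kernel

theorem c4527 : ck 0x22adc651200 [79516] [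
  .siz 9] = true := by
  decide +kernel

theorem c4528 : ck 0x1169585a200 [103193] [
  .siz 9] = true := by
  decide +kernel

theorem c4529 : ck 0x6aae3448000 [5209] [
  .siz 9] = true := by
  decide +kernel

theorem c4530 : ck 0x14d6a3448000 [165227] [
  .deg 5 2 4 6 7] = true := by
  decide +kernel

theorem c4531 : ck 0xa9763448000 [8851] [
  .deg 4 1 5 6 7] = true := by
  decide +kernel

theorem c4532 : ck 0x1152e3448000 [18530] [
  .deg 4 3 5 6 7] = true := by
  decide +kernel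

theorem c4534 : ck 0x63912651000 [181826] [
  .deg 1 0 2 6 7] = true := by
  decide +kernel

theorem c4543 : ck 0x161b12651200 [141636, 185640] [
  .deg 1 0 2 6 7, .spl, .apx 0 6 1 5 7, .siz 5, .apx 3 6 4 5 7, .t6 0x736201 940, .deg 6 0 3 5 7,
  .deg 7 1 4 5 6, .t6 0x736201 940, .t6 0x736201 940, .deg 0 1 2 6 7] = true := by
  decide +kernel

theorem c4546 : ck 0xaa8ec689200 [76500] [
  .siz 9] = true := by
  decide +kernel

theorem c4547 : ck 0x14ae3448000 [107347] [
  .apx 6 7 0 1 2] = true := by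
  decide +kernel

theorem c4548 : ck 0xe1754651200 [18179, 74976] [
  .deg 1 0 2 6 7, .spl, .t6 0x736201 940, .siz 5, .deg 7 3 4 5 6, .apx 2 6 1 4 7, .apx 2 7 0 3 6,
  .t6 0x736201 940, .t6 0x736201 940, .t6 0x736201 940, .deg 0 1 2 6 7] = true := by
  decide +kernel

theorem c4551 : ck 0x1616a3449200 [186507] [
  .deg 3 4 5 6 7] = true := by
  decide +kernel

theorem c4552 : ck 0xe1754651000 [18179] [
  .deg 1 0 2 6 7] = true := by
  decide +kernel

theorem c4554 : ck 0x11c54c691200 [14364] [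
  .deg 2 0 1 6 7] = true := by
  decide +kernel

theorem c4558 : ck 0x10a44425a040 [34853] [
  .deg 5 0 3 6 7] = true := by
  decide +kernel

theorem c4559 : ck 0x41923651040 [2253, 65629, 70491] [
  .deg 1 2 3 6 7, .spl, .siz 9, .siz 8, .t6 0x762310 1115, .t6 0x762310 1115, .t6 0x762310 1115,
  .t6 0x762310 1115, .t6 0x704621 629, .t6 0x704621 629, .spl, .t6 0x762310 1115, .siz 9,
  .t6 0x762310 1115, .t6 0x762310 1115, .t6 0x762310 1115, .t6 0x762310 1115, .t6 0x704621 629,
  .t6 0x704621 629, .deg 2 1 5 6 7, .spl, .t6 0x762310 728, .siz 9, .apx 5 6 2 3 7,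
  .t6 0x762310 728, .t6 0x762310 728, .t6 0x762310 728, .t6 0x762310 728, .t6 0x762310 728, .siz 9] = true := by
  decide +kernel

theorem c4560 : ck 0x240dc25a040 [65833, 100708, 186402] [
  .siz 9, .spl, .siz 9, .t6 0x763120 1200, .apx 5 7 3 4 6, .apx 5 6 2 4 7, .siz 8,
  .t6 0x721640 630, .t6 0x721640 630, .t6 0x721640 630, .spl, .siz 9, .t6 0x763120 1200,
  .t6 0x763120 1200, .t6 0x763120 1200, .t6 0x763120 1200, .apx 4 6 0 2 7, .t6 0x721640 630,
  .t6 0x721640 630, .siz 9, .apx 1 3 0 6 7, .apx 1 3 0 6 7] = true := by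
  decide +kernel

theorem c4562 : ck 0x811265a040 [103965, 176835] [
  .siz 8, .siz 8, .siz 8] = true := by
  decide +kernel

theorem c4563 : ck 0x44519091040 [6788, 20997] [
  .siz 9, .siz 9, .siz 9] = true := by
  decide +kernel

theorem c4564 : ck 0xd828225a040 [1125, 1132, 8489, 8545, 70245, 70252, 84061, 88668, 132612, 149869, 165381, 187172] [
  .siz 9, .siz 9, .siz 9, .siz 9, .apx 6 7 0 1 2, .spl, .siz 8, .siz 9, .t6 0x764210 928,
  .t6 0x762130 1128, .apx 1 7 2 4 6, .apx 0 7 4 5 6, .t6 0x764210 928, .t6 0x764210 928, .spl,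
  .t6 0x762130 1128, .t6 0x762130 1128, .t6 0x762130 1128, .apx 1 6 2 3 7, .t6 0x762130 1128,
  .t6 0x762130 1128, .t6 0x712364 888, .t6 0x712364 888, .spl, .t6 0x762130 1128,
  .t6 0x762130 1128, .t6 0x762130 1128, .apx 1 6 2 3 7, .t6 0x762130 1128, .t6 0x762130 1128,
  .s7 0x7643210 3, .s7 0x7643210 3, .siz 9, .apx 4 5 1 6 7, .siz 9, .apx 4 5 1 6 7, .siz 9,
  .siz 9, .siz 9, .spl, .siz 8, .siz 9, .t6 0x764210 928, .t6 0x762130 1128, .apx 0 7 4 5 6,
  .apx 1 7 2 4 6, .t6 0x764210 928, .t6 0x764210 928, .apx 6 7 0 1 2, .spl, .t6 0x762130 1128,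
  .t6 0x762130 1128, .t6 0x762130 1128, .apx 1 6 2 3 7, .t6 0x762130 1128, .t6 0x762130 1128,
  .s7 0x7643210 3, .s7 0x7643210 3, .spl, .t6 0x762130 1128, .t6 0x762130 1128,
  .t6 0x762130 1128, .apx 1 6 2 3 7, .t6 0x762130 1128, .t6 0x762130 1128, .t6 0x712364 888,
  .t6 0x712364 888, .siz 9, .apx 4 5 1 6 7, .siz 9, .apx 4 5 1 6 7, .siz 9, .siz 9, .spl, .siz 8,
  .siz 9, .t6 0x763120 1200, .t6 0x763120 1200, .t6 0x763120 1200, .apx 1 7 2 4 6,
  .t6 0x764210 963, .t6 0x764210 963, .spl, .siz 8, .siz 9, .t6 0x763120 1200, .t6 0x763120 1200,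
  .t6 0x763120 1200, .apx 1 7 2 4 6, .t6 0x764210 963, .t6 0x764210 963, .spl, .t6 0x763120 1200,
  .apx 2 6 4 5 7, .t6 0x763120 1200, .t6 0x763120 1200, .apx 4 6 0 3 7, .t6 0x763120 1200,
  .t6 0x762435 623, .t6 0x762435 623, .spl, .t6 0x763120 1200, .apx 2 6 4 5 7, .t6 0x763120 1200,
  .t6 0x763120 1200, .t6 0x763120 1200, .apx 4 6 0 3 7, .t6 0x716435 879, .t6 0x716435 879,
  .siz 9, .spl, .t6 0x763120 1200, .t6 0x763120 1200, .t6 0x763120 1200, .siz 4, .deg 7 3 4 5 6,
  .deg 7 0 1 2 6, .t6 0x764210 963, .t6 0x764210 963, .siz 9, .spl, .t6 0x763120 1200,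
  .t6 0x763120 1200, .t6 0x763120 1200, .siz 4, .deg 7 0 1 2 6, .deg 7 3 4 5 6, .t6 0x764210 963,
  .t6 0x764210 963, .siz 9, .spl, .siz 8, .siz 9, .t6 0x763120 1200, .t6 0x763120 1200,
  .apx 1 7 2 4 6, .t6 0x763120 1200, .t6 0x764210 963, .t6 0x764210 963, .spl, .siz 8, .siz 9,
  .t6 0x763120 1200, .t6 0x763120 1200, .apx 1 7 2 4 6, .t6 0x763120 1200, .t6 0x764210 963,
  .t6 0x764210 963, .spl, .t6 0x763120 1200, .apx 2 6 4 5 7, .t6 0x763120 1200,
  .t6 0x763120 1200, .apx 4 6 0 3 7, .t6 0x763120 1200, .t6 0x716435 879, .t6 0x716435 879, .spl,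
  .t6 0x763120 1200, .apx 2 6 4 5 7, .t6 0x763120 1200, .t6 0x763120 1200, .t6 0x763120 1200,
  .apx 4 6 0 3 7, .t6 0x762435 623, .t6 0x762435 623, .siz 9, .spl, .t6 0x763120 1200,
  .t6 0x763120 1200, .t6 0x763120 1200, .siz 4, .deg 7 3 4 5 6, .deg 7 0 1 2 6, .t6 0x764210 963,
  .t6 0x764210 963, .siz 9, .spl, .t6 0x763120 1200, .t6 0x763120 1200, .t6 0x763120 1200,
  .siz 4, .deg 7 0 1 2 6, .deg 7 3 4 5 6, .t6 0x764210 963, .t6 0x764210 963, .siz 9, .siz 9,
  .apx 3 4 5 6 7, .apx 3 4 5 6 7, .apx 2 4 1 6 7, .apx 3 4 5 6 7, .apx 2 4 1 6 7, .apx 3 4 5 6 7,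
  .siz 9, .apx 3 4 5 6 7, .apx 3 4 5 6 7, .apx 2 4 1 6 7, .apx 3 4 5 6 7, .apx 2 4 1 6 7,
  .apx 3 4 5 6 7, .apx 3 4 5 6 7, .apx 3 4 5 6 7, .spl, .siz 9, .t6 0x763120 1097,
  .apx 5 7 2 3 6, .t6 0x763120 1097, .t6 0x763120 1097, .apx 0 7 1 2 6, .t6 0x753612 786,
  .t6 0x753612 786, .siz 4, .spl, .siz 9, .t6 0x763120 1097, .apx 5 7 2 3 6, .t6 0x763120 1097,
  .t6 0x763120 1097, .apx 0 7 1 2 6, .t6 0x760521 968, .t6 0x760521 968, .siz 4, .apx 3 4 5 6 7,
  .spl, .siz 9, .t6 0x763120 1097, .apx 5 7 2 3 6, .t6 0x763120 1097, .apx 0 7 1 2 6,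
  .t6 0x763120 1097, .t6 0x760521 968, .t6 0x760521 968, .siz 4, .spl, .siz 9, .t6 0x763120 1097,
  .apx 5 7 2 3 6, .t6 0x763120 1097, .apx 0 7 1 2 6, .t6 0x763120 1097, .t6 0x753612 786,
  .t6 0x753612 786, .siz 4, .siz 9, .apx 1 2 0 6 7, .siz 9, .apx 1 2 0 6 7, .apx 0 1 4 6 7,
  .apx 1 2 0 6 7, .apx 0 1 4 6 7, .siz 9, .apx 1 2 0 6 7, .apx 0 1 4 6 7] = true := by
  decide +kernel

theorem c4565 : ck 0x10889265a040 [79467, 174811, 176835] [
  .apx 6 7 0 1 2, .spl, .t6 0x761230 669, .t6 0x761230 669, .t6 0x761230 669, .siz 9,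
  .t6 0x761230 669, .t6 0x761230 669, .t6 0x761230 669, .t6 0x761230 669, .spl, .apx 1 6 2 4 7,
  .t6 0x761230 669, .t6 0x761230 669, .siz 9, .t6 0x761230 669, .t6 0x761230 669,
  .t6 0x761230 669, .t6 0x761230 669, .deg 4 2 3 6 7, .apx 6 7 0 2 5, .apx 6 7 0 1 2] = true := by
  decide +kernel

theorem c4566 : ck 0x10b299450240 [54995, 119400, 169690, 176709] [
  .siz 8, .siz 9, .siz 8, .siz 9, .siz 9, .siz 9, .siz 9, .siz 8, .siz 9, .siz 9] = true := by
  decide +kernel

theorem c4573 : ck 0x618e0691040 [174219] [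
  .deg 1 2 3 6 7] = true := by
  decide +kernel

theorem c4574 : ck 0xa22e0691040 [51010, 136745, 170083, 181474] [
  .apx 6 7 0 1 2, .spl, .t6 0x762310 971, .t6 0x762310 971, .t6 0x762310 971, .t6 0x762310 971,
  .t6 0x762310 971, .t6 0x762310 971, .t6 0x762310 971, .t6 0x762310 971, .spl, .t6 0x762310 971,
  .apx 5 7 0 3 6, .t6 0x762310 971, .siz 5, .t6 0x762310 971, .t6 0x762310 971, .s7 0x7653210 4,
  .s7 0x7653210 4, .spl, .t6 0x762310 971, .t6 0x762310 971, .t6 0x762310 971, .t6 0x762310 971,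
  .t6 0x762310 971, .t6 0x762310 971, .s7 0x7653210 5, .s7 0x7653210 5, .deg 2 0 4 6 7, .spl,
  .t6 0x763210 908, .t6 0x763210 908, .t6 0x763210 908, .t6 0x763210 908, .apx 5 7 0 3 6,
  .t6 0x714062 908, .t6 0x756130 973, .t6 0x756130 973, .spl, .t6 0x763210 908,
  .t6 0x756120 1113, .t6 0x763210 908, .siz 5, .t6 0x763210 908, .t6 0x763210 908,
  .t6 0x716453 906, .t6 0x716453 906, .deg 3 4 5 6 7, .spl, .t6 0x763210 766, .t6 0x763210 766,
  .t6 0x705612 1166, .t6 0x763210 766, .t6 0x763210 766, .apx 5 6 0 3 7, .t6 0x763210 766,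
  .t6 0x763210 766, .apx 6 7 0 1 2] = true := by
  decide +kernel

theorem c4575 : ck 0x5c71211a240 [109349, 116067] [
  .deg 4 2 3 6 7, .deg 5 1 3 6 7, .deg 3 1 4 6 7] = true := by
  decide +kernel

theorem c4576 : ck 0x1138a0691040 [38441, 174219] [
  .deg 2 0 4 6 7, .spl, .t6 0x763210 908, .deg 6 0 4 5 7, .t6 0x763210 908, .apx 3 7 1 2 6,
  .t6 0x751602 1113, .t6 0x763210 908, .t6 0x734062 900, .t6 0x734062 900, .deg 1 2 3 6 7] = true := by
  decide +kernel

theorem c4581 : ck 0x2969585a200 [103193] [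
  .siz 9] = true := by
  decide +kernel

theorem c4582 : ck 0x9cb046d1240 [74248] [
  .deg 0 1 2 6 7] = true := by
  decide +kernel

theorem c4585 : ck 0x123458451000 [177730] [
  .deg 1 0 2 6 7] = true := by
  decide +kernel

theorem c4586 : ck 0x2572069a240 [141386] [
  .deg 3 4 5 6 7] = true := by
  decide +kernel

theorem c4588 : ck 0x1458dc650240 [53444, 185932] [
  .deg 1 0 3 6 7, .spl, .t6 0x720631 891, .t6 0x720631 891, .t6 0x720631 891, .apx 2 7 1 5 6,
  .siz 5, .apx 4 7 3 5 6, .t6 0x720631 891, .t6 0x720631 891, .deg 5 2 4 6 7] = true := by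
  decide +kernel

theorem c4590 : ck 0x1ab23250240 [104201] [
  .siz 9] = true := by
  decide +kernel

theorem c4591 : ck 0x5da9c651200 [4817] [
  .siz 9] = true := by
  decide +kernel

theorem c4592 : ck 0x1058c969a200 [4747, 135819, 141026] [
  .siz 9, .siz 9, .spl, .t6 0x736021 642, .deg 6 1 3 4 7, .t6 0x736021 642, .apx 3 6 4 5 7,
  .siz 5, .t6 0x736021 642, .t6 0x736021 642, .t6 0x736021 642, .siz 9, .deg 5 1 4 6 7,
  .deg 5 1 4 6 7] = true := by
  decide +kernel

theorem c4595 : ck 0xe3458451000 [177730] [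
  .deg 1 0 2 6 7] = true := by
  decide +kernel

theorem c4598 : ck 0x2275c2d1000 [79523] [
  .siz 9] = true := by
  decide +kernel

theorem c4599 : ck 0x1168585a200 [83083, 103193] [
  .siz 9, .spl, .t6 0x736102 642, .deg 7 0 3 4 6, .deg 6 2 3 5 7, .apx 0 7 3 4 6,
  .t6 0x736102 642, .t6 0x736102 642, .t6 0x736102 642, .t6 0x736102 642, .siz 9] = true := by
  decide +kernel

theorem c4604 : ck 0x23458451000 [177730] [
  .deg 1 0 2 6 7] = true := by
  decide +kernel

theorem c4605 : ck 0x16572069a240 [141386] [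
  .deg 3 4 5 6 7] = true := by
  decide +kernel

theorem c4607 : ck 0x998d4651200 [80412, 116483, 140512] [
  .deg 2 0 1 6 7, .spl, .apx 1 6 2 4 7, .t6 0x746102 639, .apx 5 7 0 3 6, .siz 9, .apx 0 7 1 5 6,
  .t6 0x746102 639, .t6 0x746102 639, .t6 0x746102 639, .spl, .apx 2 7 0 3 6, .siz 5,
  .apx 4 6 1 5 7, .apx 1 7 0 5 6, .apx 1 6 2 4 7, .t6 0x736012 1182, .t6 0x746102 639,
  .t6 0x746102 639, .siz 9, .spl, .apx 0 6 1 5 7, .siz 5, .t6 0x736201 940, .deg 6 0 3 5 7,
  .apx 2 7 0 3 6, .t6 0x736201 940, .t6 0x736201 940, .t6 0x736201 940, .deg 0 1 2 6 7] = true := by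
  decide +kernel

theorem c4608 : ck 0x6350c691200 [51971, 145436] [
  .deg 1 0 2 6 7, .spl, .apx 1 7 2 4 6, .apx 5 7 0 3 6, .t6 0x746201 639, .apx 0 7 2 5 6, .siz 9,
  .t6 0x746201 639, .t6 0x746201 639, .t6 0x746201 639, .siz 9] = true := by
  decide +kernel

theorem c4609 : ck 0x998d4651000 [80412, 116483] [
  .deg 2 0 1 6 7, .spl, .apx 1 6 2 4 7, .t6 0x746102 639, .apx 5 7 0 3 6, .siz 9, .apx 0 7 1 5 6,
  .t6 0x736102 1049, .t6 0x746102 639, .t6 0x746102 639, .siz 9] = true := by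
  decide +kernel

theorem c4613 : ck 0x882e4651000 [79196, 117059, 137921] [
  .apx 3 5 1 6 7, .spl, .t6 0x763120 1185, .t6 0x763120 1185, .t6 0x763120 1185,
  .t6 0x763120 1185, .apx 0 7 1 5 6, .apx 2 7 1 4 6, .t6 0x702461 975, .t6 0x702461 975, .spl,
  .t6 0x763120 1185, .apx 4 6 1 5 7, .t6 0x763120 1185, .t6 0x763120 1185, .apx 0 7 1 4 6,
  .t6 0x763120 1185, .t6 0x702461 975, .t6 0x702461 975, .deg 1 0 2 6 7, .deg 1 0 2 6 7,
  .deg 1 0 2 6 7] = true := by
  decide +kernel

theorem c4615 : ck 0x2c8e1691200 [147681] [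
  .siz 9] = true := by
  decide +kernel

theorem c4622 : ck 0x1416a3448000 [172563] [
  .deg 2 0 1 6 7] = true := by
  decide +kernel

theorem c4624 : ck 0x12bb0d8d1000 [54425] [
  .apx 2 3 0 6 7] = true := by
  decide +kernel

theorem c4625 : ck 0x12b112651000 [84051] [
  .apx 3 4 2 6 7] = true := by
  decide +kernel

theorem c4627 : ck 0x1158d9448000 [133346] [
  .deg 5 1 4 6 7] = true := by
  decide +kernel

theorem c4629 : ck 0x6a8e1688000 [5713] [
  .siz 9] = true := by
  decide +kernel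

theorem c4631 : ck 0xc429a049000 [152857, 180746] [
  .apx 6 7 0 1 2, .spl, .t6 0x763120 929, .t6 0x763120 929, .t6 0x763120 929, .apx 1 7 2 3 6,
  .apx 5 7 0 1 6, .t6 0x764310 902, .s7 0x7654210 6, .s7 0x7654210 6, .siz 8] = true := by
  decide +kernel

theorem c4632 : ck 0x1022d3449000 [137753] [
  .deg 2 0 1 6 7] = true := by
  decide +kernel

theorem c4634 : ck 0x10c6d2651000 [49866, 69865, 137003, 149058] [
  .siz 9, .spl, .apx 3 6 1 5 7, .siz 9, .apx 0 7 3 4 6, .t6 0x765201 827, .t6 0x763120 639,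
  .t6 0x763120 639, .t6 0x763120 639, .t6 0x763120 639, .spl, .t6 0x763120 639, .deg 6 1 3 5 7,
  .t6 0x764012 974, .apx 3 6 1 5 7, .apx 5 6 3 4 7, .t6 0x763120 639, .pt 0x76543210 0o543210 21,
  .pt 0x76543210 0o543210 21, .siz 5, .apx 6 7 0 1 2, .spl, .t6 0x763210 891, .t6 0x763210 891,
  .apx 5 7 0 2 6, .apx 0 6 3 4 7, .t6 0x763210 891, .t6 0x763210 891, .t6 0x713460 796,
  .t6 0x713460 796, .spl, .t6 0x763210 891, .t6 0x763210 891, .apx 0 6 3 4 7, .apx 2 7 1 5 6,
  .siz 5, .t6 0x763210 891, .t6 0x760423 638, .t6 0x760423 638, .deg 5 2 4 6 7, .deg 5 2 4 6 7,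
  .siz 5] = true := by
  decide +kernel

theorem c4636 : ck 0x16b304651200 [49930] [
  .siz 9] = true := by
  decide +kernel

theorem c4639 : ck 0x14d8d2651000 [53962, 137964, 185922] [
  .siz 9, .apx 1 3 0 6 7, .spl, .t6 0x763120 639, .deg 6 1 3 5 7, .t6 0x763120 639, .siz 5,
  .t6 0x763120 639, .apx 5 6 3 4 7, .t6 0x763120 639, .t6 0x763120 639, .apx 1 3 0 6 7, .spl,
  .t6 0x763210 1062, .t6 0x763210 1062, .t6 0x763210 1062, .apx 2 7 1 5 6, .siz 4,
  .t6 0x763210 1062, .pt 0x67543210 0o543210 22, .pt 0x67543210 0o543210 22, .deg 1 0 2 6 7] = true := by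
  decide +kernel

theorem c4640 : ck 0x11daa1691200 [170155] [
  .deg 5 1 2 6 7] = true := by
  decide +kernel

theorem c4641 : ck 0xea722688000 [109341, 117533, 121629, 133356, 166699] [
  .deg 1 4 5 6 7, .deg 1 4 5 6 7, .deg 1 4 5 6 7, .apx 0 3 1 6 7, .apx 1 5 4 6 7, .deg 1 4 5 6 7,
  .deg 1 4 5 6 7, .apx 0 3 1 6 7, .apx 1 5 4 6 7, .deg 1 4 5 6 7, .apx 0 3 1 6 7, .apx 1 5 4 6 7,
  .apx 0 3 1 6 7, .spl, .t6 0x762310 753, .t6 0x762310 753, .t6 0x762310 753, .t6 0x762310 753,
  .deg 6 0 3 5 7, .deg 7 1 3 5 6, .t6 0x762310 753, .t6 0x762310 753, .apx 1 3 0 6 7] = true := by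
  decide +kernel

theorem c4647 : ck 0xc3323449000 [87297] [
  .deg 1 0 2 6 7] = true := by
  decide +kernel

theorem c4650 : ck 0x10829a049000 [170257, 176394] [
  .siz 9, .spl, .siz 8, .siz 9, .t6 0x763120 570, .t6 0x763120 570, .apx 3 7 1 4 6,
  .apx 5 7 0 1 6, .t6 0x763120 570, .t6 0x763120 570, .deg 1 3 5 6 7] = true := by
  decide +kernel

theorem c4651 : ck 0x6445a049000 [180746, 184418, 185625] [
  .siz 9, .spl, .siz 8, .siz 9, .t6 0x702613 526, .t6 0x702613 526, .apx 1 6 2 3 7,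
  .t6 0x702613 526, .t6 0x702613 526, .t6 0x702613 526, .spl, .t6 0x702613 526, .siz 9,
  .t6 0x702613 526, .apx 1 6 2 3 7, .t6 0x702613 526, .apx 5 7 0 2 6, .t6 0x750623 716,
  .t6 0x750623 716, .apx 4 5 0 6 7, .apx 4 5 0 6 7, .deg 0 4 5 6 7] = true := by
  decide +kernel

theorem c4654 : ck 0xe9520651040 [184418] [
  .deg 2 1 5 6 7] = true := by
  decide +kernel

theorem c4655 : ck 0x12215d89a240 [36968, 102632] [
  .deg 0 1 2 6 7, .deg 0 1 2 6 7, .deg 0 1 2 6 7] = true := by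
  decide +kernel

theorem c4659 : ck 0x1182c3650240 [116765, 143659] [
  .deg 2 0 5 6 7, .spl, .siz 8, .t6 0x716052 603, .t6 0x763210 1161, .siz 9, .apx 4 7 3 5 6,
  .t6 0x716052 603, .pt 0x67543210 0o543210 23, .pt 0x67543210 0o543210 23, .deg 3 1 4 6 7] = true := by
  decide +kernel

theorem c4660 : ck 0x1190d3651240 [79466, 153372] [
  .deg 2 1 5 6 7, .apx 0 5 1 6 7, .apx 0 5 1 6 7] = true := by
  decide +kernel

theorem c4661 : ck 0x1190245a040 [5292, 14866, 34629] [
  .deg 3 1 5 6 7, .siz 8, .spl, .siz 9, .apx 5 6 0 3 7, .apx 2 7 3 5 6, .t6 0x762130 1043,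
  .t6 0x762130 1043, .t6 0x762130 1043, .t6 0x706124 859, .t6 0x706124 859, .siz 9, .siz 9, .siz 9] = true := by
  decide +kernel

theorem c4662 : ck 0x40513651240 [2369, 34829, 69976] [
  .siz 9, .siz 9, .siz 9, .siz 9, .siz 8, .deg 0 1 2 6 7] = true := by
  decide +kernel

theorem c4665 : ck 0xc828425a040 [1133, 34601] [
  .siz 9, .siz 8, .siz 9] = true := by
  decide +kernel

theorem c4666 : ck 0x1044d8091240 [146084] [
  .deg 5 2 4 6 7] = true := by
  decide +kernel

theorem c4669 : ck 0x10aa4425a040 [99850] [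
  .deg 1 2 4 6 7] = true := by
  decide +kernel

theorem c4670 : ck 0x15211c49a240 [39108] [
  .deg 1 0 5 6 7] = true := by
  decide +kernel

theorem c4671 : ck 0x8c70445a040 [178706] [
  .deg 1 3 4 6 7] = true := by
  decide +kernel

theorem c4672 : ck 0x940c425a040 [165157] [
  .deg 2 4 5 6 7] = true := by
  decide +kernel

theorem c4673 : ck 0xa40c425a040 [132452, 154268] [
  .siz 9, .deg 5 2 3 6 7, .deg 5 2 3 6 7] = true := by
  decide +kernel

theorem c4674 : ck 0x14a90585a040 [149250] [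
  .siz 9] = true := by
  decide +kernel

theorem c4676 : ck 0x10a2d1650240 [88773, 173928] [
  .deg 1 0 3 6 7, .spl, .t6 0x723061 900, .t6 0x723061 900, .t6 0x723061 900, .siz 5,
  .t6 0x754061 1175, .deg 6 0 3 4 7, .pt 0x67543210 0o543210 24, .pt 0x67543210 0o543210 24,
  .deg 0 1 2 6 7] = true := by
  decide +kernel

theorem c4677 : ck 0xac0c425a040 [1546] [
  .siz 9] = true := by
  decide +kernel

theorem c4681 : ck 0x14c2e1650240 [121357, 176489] [
  .deg 1 2 5 6 7, .spl, .t6 0x762301 630, .siz 9, .t6 0x762301 630, .t6 0x764120 632,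
  .t6 0x705621 867, .siz 8, .pt 0x67543210 0o543210 25, .pt 0x67543210 0o543210 25, .deg 0 3 4 6 7] = true := by
  decide +kernel

theorem c4683 : ck 0x10aa8445a040 [12586, 185986] [
  .deg 3 0 4 6 7, .spl, .apx 5 7 0 2 6, .t6 0x762130 1149, .t6 0x762130 1149, .t6 0x762130 1149,
  .t6 0x762130 1149, .apx 4 6 2 3 7, .t6 0x712650 859, .t6 0x712650 859, .apx 0 2 5 6 7] = true := by
  decide +kernel

theorem c4684 : ck 0xa40c445a040 [55938] [
  .deg 1 0 5 6 7] = true := by
  decide +kernel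

theorem c4685 : ck 0x23899448000 [39577, 71770, 141395, 148835] [
  .siz 9, .deg 4 0 2 6 7, .spl, .t6 0x762310 915, .deg 6 0 4 5 7, .t6 0x762310 915,
  .apx 1 7 4 5 6, .t6 0x762310 915, .apx 3 7 2 5 6, .pt 0x76543210 0o543210 26,
  .pt 0x76543210 0o543210 26, .spl, .t6 0x762310 915, .deg 6 0 4 5 7, .t6 0x762310 915,
  .t6 0x762310 915, .deg 7 1 4 5 6, .t6 0x762310 915, .s7 0x7643210 7, .s7 0x7643210 7,
  .deg 2 3 4 6 7, .deg 2 3 4 6 7, .spl, .t6 0x763201 871, .t6 0x763201 871, .t6 0x710264 639,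
  .siz 5, .deg 7 1 4 5 6, .t6 0x763201 871, .pt 0x76543210 0o543210 27,
  .pt 0x76543210 0o543210 27, .deg 2 3 4 6 7, .deg 5 1 3 6 7, .deg 5 1 3 6 7] = true := by
  decide +kernel

end D8

end CR
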